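import Mathlib

/-!
# Project UR: the choice of the tilt
-/

set_option autoImplicit false
set_option linter.all false

namespace Pool.Agent.R421.UR

open Finset

/-- an exponential tilt decreases a weighted sum -/
lemma exp_tilt {ι : Type} (s : Finset ι) (W u : ι → ℝ) (h : 0 < ∑ i ∈ s, W i * u i) :
    ∃ θ : ℝ, 0 < θ ∧ ∑ i ∈ s, W i * Real.exp (-(θ * u i)) < ∑ i ∈ s, W i := by
  set τ := ∑ i ∈ s, W i * u i with hτ
  set U := 1 + ∑ i ∈ s, |u i| with hU
  set M := 1 + ∑ i ∈ s, |W i| * u i ^ 2 with hM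
  have hU0 : 0 < U := by
    have : 0 ≤ ∑ i ∈ s, |u i| := sum_nonneg fun i _ => abs_nonneg _
    linarith
  have hM0 : 0 < M := by
    have : 0 ≤ ∑ i ∈ s, |W i| * u i ^ 2 := sum_nonneg fun i _ => by positivity
    linarith
  set θ := min (1 / U) (τ / (2 * M)) with hθ
  have hθ0 : 0 < θ := lt_min (by positivity) (by positivity)
  refine ⟨θ, hθ0, ?_⟩
  have h1 : ∀ i ∈ s, W i * Real.exp (-(θ * u i)) ≤
      W i - θ * (W i * u i) + θ ^ 2 * (|W i| * u i ^ 2) := by
    intro i hi
    have h2 : |-(θ * u i)| ≤ 1 := by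
      rw [abs_neg, abs_mul, abs_of_pos hθ0]
      have h3 : |u i| ≤ U := by
        have := single_le_sum (f := fun i => |u i|) (fun i _ => abs_nonneg _) hi
        linarith
      have h4 : θ ≤ 1 / U := min_le_left _ _
      calc θ * |u i| ≤ 1 / U * U := mul_le_mul h4 h3 (abs_nonneg _) (by positivity)
        _ = 1 := by field_simp
    have h3 := Real.abs_exp_sub_one_sub_id_le h2
    have h4 : W i * Real.exp (-(θ * u i)) - (W i - θ * (W i * u i)) =
        W i * (Real.exp (-(θ * u i)) - 1 - -(θ * u i)) := by ring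
    have h5 : W i * (Real.exp (-(θ * u i)) - 1 - -(θ * u i)) ≤ |W i| * (θ ^ 2 * u i ^ 2) := by
      refine (le_abs_self _).trans ?_
      rw [abs_mul]
      apply mul_le_mul_of_nonneg_left _ (abs_nonneg _)
      refine h3.trans (le_of_eq ?_)
      ring
    linarith
  have h2 := sum_le_sum h1
  rw [sum_add_distrib, sum_sub_distrib, ← mul_sum, ← mul_sum, ← hτ] at h2
  have h3 : ∑ i ∈ s, |W i| * u i ^ 2 ≤ M := by linarith
  have h4 : θ ^ 2 * ∑ i ∈ s, |W i| * u i ^ 2 ≤ θ ^ 2 * M :=
    mul_le_mul_of_nonneg_left h3 (by positivity)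
  have h5 : θ * M ≤ τ / 2 := by
    have : θ ≤ τ / (2 * M) := min_le_right _ _
    calc θ * M ≤ τ / (2 * M) * M := mul_le_mul_of_nonneg_right this hM0.le
      _ = τ / 2 := by field_simp
  have h6 : θ ^ 2 * M ≤ θ * (τ / 2) := by
    rw [pow_two, mul_assoc]
    exact mul_le_mul_of_nonneg_left h5 hθ0.le
  have h7 : 0 < θ * τ := by positivity
  linarith

/-- the tilt for a class -/
lemma exists_tilt (W a o W3 : ℝ) (hW : 0 ≤ W) (ha : 0 ≤ a) (hao : a < o) (hW3 : 0 ≤ W3) :
    ∃ lam θ : ℝ, 0 < lam ∧ lam < 1 ∧ 0 < θ ∧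
      lam ^ (-θ) * (W - a) + (lam / 2) ^ (-θ) * a + (2 * lam) ^ (-θ) * o + W3 < W + o + W3 := by
  have ho : 0 < o := lt_of_le_of_lt ha hao
  set η : ℝ := (o - a) * Real.log 2 / (2 * (W + o)) with hη
  have hl2 : 0 < Real.log 2 := Real.log_pos (by norm_num)
  have hη0 : 0 < η := by
    have : 0 < o - a := by linarith
    positivity
  obtain ⟨θ, hθ0, hθ⟩ := exp_tilt (univ : Finset (Fin 3)) ![W - a, a, o]
    ![-η, -η - Real.log 2, -η + Real.log 2] (by
      simp only [Fin.sum_univ_three, Matrix.cons_val_zero, Matrix.cons_val_one,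
        Matrix.cons_val]
      have h1 : (W - a) * -η + a * (-η - Real.log 2) + o * (-η + Real.log 2) =
          (o - a) * Real.log 2 - (W + o) * η := by ring
      have h2 : (W + o) * η = (o - a) * Real.log 2 / 2 := by
        rw [hη]
        have : W + o ≠ 0 := by linarith
        field_simp
      rw [h1, h2]
      have : 0 < (o - a) * Real.log 2 := mul_pos (by linarith) hl2
      linarith)
  refine ⟨Real.exp (-η), θ, Real.exp_pos _, ?_, hθ0, ?_⟩
  · rw [Real.exp_lt_one_iff]
    linarith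
  · simp only [Fin.sum_univ_three, Matrix.cons_val_zero, Matrix.cons_val_one,
      Matrix.cons_val] at hθ
    have e1 : Real.exp (-η) ^ (-θ) = Real.exp (-(θ * -η)) := by
      rw [← Real.exp_mul]
      congr 1
      ring
    have e2 : (Real.exp (-η) / 2) ^ (-θ) = Real.exp (-(θ * (-η - Real.log 2))) := by
      have : Real.exp (-η) / 2 = Real.exp (-η - Real.log 2) := by
        rw [Real.exp_sub, Real.exp_log (by norm_num)]
      rw [this, ← Real.exp_mul]
      congr 1
      ring
    have e3 : (2 * Real.exp (-η)) ^ (-θ) = Real.exp (-(θ * (-η + Real.log 2))) := by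
      have : 2 * Real.exp (-η) = Real.exp (-η + Real.log 2) := by
        rw [Real.exp_add, Real.exp_log (by norm_num)]
        ring
      rw [this, ← Real.exp_mul]
      congr 1
      ring
    rw [e1, e2, e3]
    linarith

end Pool.Agent.R421.UR
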