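import Mathlib
import Pool.Agent.R421.UR.Ml

/-!
# Project UR: sums of Jacobi symbols over the tuples whose set of nontrivial variables is restricted
(adapted from `TH841/TR/ATX`)
-/

set_option autoImplicit false
set_option linter.all false

namespace Pool.Agent.R421.UR

open Finset Polynomial Pool.Agent.W262.RK Pool.Agent.W262.RK.AT Pool.Agent.TH841.PT

open Pool.Agent.TH841.PT.ATS8 (HG exp_Sp_le gp_one triv)

open Pool.Agent.TH841.TR (SYMD Gd oc oc_sub sum_cells split_one split_two prod_two gd_all gd_two
  gd_all_set gd_two_set)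

variable {ι : Type} [Fintype ι] [DecidableEq ι]

/-- the bounds used -/
lemma bd_of (hf : FULLG) {a b : ι → ℕ → ℝ} {c z : ℕ}
    (hab : ∀ i p, |a i p| ≤ b i p) (hb : ∀ i p, b i p ≤ 1 / 2) (hz : 2 * c + 2 ≤ z) :
    ∃ C : ℝ, Bd a b c z C := by
  have hg : ∀ i p, 0 ≤ b i p ∧ b i p ≤ 1 / 2 := fun i p =>
    ⟨(abs_nonneg _).trans (hab i p), hb i p⟩
  obtain ⟨B, hB1, hBB⟩ := exp_Sp_le
  choose CF hCF1 hCF2 hCF3 using fun i => hf (b i) c z (hg i) hz
  set C' : ℝ := 1 + ∑ i, |CF i| with hC'
  have hC'1 : 1 ≤ C' := by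
    rw [hC']
    have : 0 ≤ ∑ i, |CF i| := sum_nonneg fun i _ => by positivity
    linarith
  set C : ℝ := C' * B with hC
  have hCC : C' ≤ C := by
    rw [hC]
    nlinarith
  have hCF0 : ∀ i, CF i ≤ C' := fun i => by
    have h1 : |CF i| ≤ ∑ i, |CF i| :=
      single_le_sum (f := fun i => |CF i|) (fun j _ => by positivity) (mem_univ i)
    have := le_abs_self (CF i)
    linarith
  have hCF' : ∀ i, CF i ≤ C := fun i => (hCF0 i).trans hCC
  exact ⟨C,
    { ab := hab
      w0 := fun i p => (hg i p).1
      w1 := hb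
      z2 := by omega
      zc := by omega
      C1 := hC'1.trans hCC
      F0 := fun i y hy => by
        refine (hCF1 i y hy).trans ?_
        have h1 := hBB (b i) (hg i) z y (by omega) hy
        have h3 : 0 ≤ Real.exp (Sp (b i) z y) := (Real.exp_pos _).le
        calc CF i * Real.exp (Sp (b i) z y) ≤ C' * Real.exp (Sp (b i) z y) :=
              mul_le_mul_of_nonneg_right (hCF0 i) h3
          _ ≤ C' * (B * Real.log y) := mul_le_mul_of_nonneg_left h1 (by linarith)
          _ = C * Real.log y := by rw [hC]; ring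
      F1 := fun i y hy => (hCF1 i y hy).trans (mul_le_mul_of_nonneg_right (hCF' i)
        (Real.exp_pos _).le)
      F2 := fun i y V hy hV => (hCF2 i y V hy hV).trans (mul_le_mul_of_nonneg_right (hCF' i)
        (Real.log_natCast_nonneg V))
      F3 := fun i y Y hy hY => (hCF3 i y Y hy hY).trans (by
        apply mul_le_mul_of_nonneg_right _ (by positivity)
        exact mul_le_mul_of_nonneg_right (hCF' i) (Real.exp_pos _).le) }⟩

section

variable {a b : ι → ℕ → ℝ} {L : ι → ι → Bool} {c z : ℕ} {C : ℝ} {M : ℕ → ℝ}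

/-- a huge variable -/
lemma gd_tail (hB : Bd a b c z C) (A : ℕ) (hM : ∀ y, z < y → 0 ≤ M y)
    (π : ι → Option (Fin 4)) {k : ι} (hk : π k = some 3) : Gd a L c z M A π := by
  have hcz : c ≤ z := by have := hB.zc; omega
  have hC0 : 0 ≤ C := zero_le_one.trans hB.C1
  refine ⟨C ^ (Fintype.card ι + 1) * (Fintype.card ι + 2).factorial, fun y hy => ?_⟩
  have hly := one_le_log hB.z2 hy
  have hly0 : 0 < Real.log y := by linarith
  set l := Real.log y with hl
  set V := VV A l with hV
  set Y := YY A l with hY
  refine (triv hB.ab hB.w0 hcz fun i => oc_sub _ _ _ _ _).trans ?_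
  have h1 : ∏ i, ∑ m ∈ oc z y V Y (π i), gp (b i) c m ≤
      ∏ i, ∑ m ∈ oc z y V Y (π i), gp (b i) c m * hh m := by
    apply prod_le_prod
    · intro i _
      exact sum_nonneg fun m hm => Pool.Agent.TH841.PT.ATS8.gp_nonneg (hB.w0 i) hcz (oc_sub _ _ _ _ _ hm)
    · intro i _
      exact sum_le_sum fun m hm => gp_le_hh hB i (oc_sub _ _ _ _ _ hm)
  refine h1.trans ?_
  rw [← mul_prod_erase univ _ (mem_univ k), hk]
  have h2 : ∑ m ∈ oc z y V Y (some 3), gp (b k) c m * hh m ≤ C * Real.exp (-l) * l ^ 2 := by
    have hV3 := three_le_VV A l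
    have hVY := VV_le_YY A l
    calc ∑ m ∈ cell z y V Y 3, gp (b k) c m * hh m
        ≤ ∑ m ∈ (PP z y).divisors.filter (fun d => Y < d), gp (b k) c m * hh m := by
          apply sum_le_sum_of_subset_of_nonneg
          · intro m hm
            rw [mem_filter]
            exact ⟨cell_sub _ _ _ _ _ hm, cell_three hm⟩
          · intro m hm _
            exact gh_nonneg hB k (mem_filter.1 hm).1
      _ ≤ C * Real.exp (-(Real.log Y / Real.log y)) * (Real.log y) ^ 2 :=
          hB.F3 k y Y hy (by omega)
      _ ≤ C * Real.exp (-l) * l ^ 2 := by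
          apply mul_le_mul_of_nonneg_right _ (by positivity)
          apply mul_le_mul_of_nonneg_left _ hC0
          apply Real.exp_le_exp.2
          rw [neg_le_neg_iff, le_div_iff₀ hly0]
          have := log_YY_ge A l
          nlinarith
  have h3 : ∏ b' ∈ univ.erase k, ∑ m ∈ oc z y V Y (π b'), gp (b b') c m * hh m ≤
      (C * l) ^ (Fintype.card ι) := by
    have hCl : 1 ≤ C * l := by nlinarith [hB.C1]
    calc _ ≤ ∏ b' ∈ univ.erase k, (C * l) := by
          apply prod_le_prod
          · intro b' _
            exact sum_nonneg fun m hm => gh_nonneg hB b' (oc_sub _ _ _ _ _ hm)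
          · intro b' _
            calc ∑ m ∈ oc z y V Y (π b'), gp (b b') c m * hh m
                ≤ ∑ m ∈ (PP z y).divisors, gp (b b') c m * hh m :=
                  sum_le_sum_of_subset_of_nonneg (oc_sub _ _ _ _ _) fun m hm _ =>
                    gh_nonneg hB b' hm
              _ ≤ C * Real.log y := hB.F0 b' y hy
      _ = (C * l) ^ (univ.erase k).card := by rw [prod_const]
      _ ≤ _ := by
          apply pow_le_pow_right₀ hCl
          exact (card_le_card (erase_subset _ _)).trans (le_of_eq card_univ)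
  have h4 : 1 ≤ Real.exp (M y) := Real.one_le_exp (hM y hy)
  have h5 := exp_neg_pow (Fintype.card ι + 2) hly
  calc _ ≤ C * Real.exp (-l) * l ^ 2 * (C * l) ^ (Fintype.card ι) := by
        apply mul_le_mul h2 h3 _ (by positivity)
        exact prod_nonneg fun b' _ => sum_nonneg fun m hm => gh_nonneg hB b' (oc_sub _ _ _ _ _ hm)
    _ = C ^ (Fintype.card ι + 1) * (Real.exp (-l) * l ^ (Fintype.card ι + 2)) := by ring
    _ ≤ C ^ (Fintype.card ι + 1) * (Fintype.card ι + 2).factorial :=
        mul_le_mul_of_nonneg_left h5 (by positivity)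
    _ ≤ _ := le_mul_of_one_le_right (by positivity) h4

/-- two linked large variables -/
lemma gd_pair (hB : Bd a b c z C) {C2 : ℝ} {E2 : ℕ} (hC2 : 0 ≤ C2) (h2 : BW C2 E2)
    (hL : ∀ i, L i i = false) {A : ℕ} (hA : 6 * (Fintype.card ι + 2 * E2) ≤ A)
    (hM : ∀ y, z < y → 0 ≤ M y)
    (π : ι → Option (Fin 4)) {i j : ι} (hi : π i = some 2) (hj : π j = some 2)
    (hij : L i j ≠ L j i) : Gd a L c z M A π := by
  have hC0 : 0 ≤ C := zero_le_one.trans hB.C1
  refine ⟨C ^ (Fintype.card ι) * C2 * (A + 3) ^ E2, fun y hy => ?_⟩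
  have hly := one_le_log hB.z2 hy
  have hly0 : 0 < Real.log y := by linarith
  set l := Real.log y with hl
  set V := VV A l with hV
  set Y := YY A l with hY
  have hV3 : 3 ≤ V := three_le_VV A l
  have hVY : V ≤ Y := VV_le_YY A l
  have hne : i ≠ j := by rintro rfl; exact hij rfl
  have hc2 : ∀ b', π b' = some 2 → oc z y V Y (π b') = lg z y V Y := fun b' hb => by
    rw [hb]; exact cell_two (by omega)
  have hmain : |∑ d ∈ Fintype.piFinset (fun b' => oc z y V Y (π b')), HG a L (fun _ => 1) c d| ≤
      (C * l) ^ (Fintype.card ι) * (C2 * (Real.log Y) ^ E2 * (V : ℝ) ^ (-(1 / 6 : ℝ))) := by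
    rcases h1 : L i j with _ | _
    · rcases h1' : L j i with _ | _
      · rw [h1, h1'] at hij; exact absurd rfl hij
      · exact pair_case hB hC2 h2 hne.symm (hL j) h1' h1 hy (by omega) hVY
          (fun b' => oc_sub _ _ _ _ _) (hc2 j hj) (hc2 i hi)
    · rcases h1' : L j i with _ | _
      · exact pair_case hB hC2 h2 hne (hL i) h1 h1' hy (by omega) hVY
          (fun b' => oc_sub _ _ _ _ _) (hc2 i hi) (hc2 j hj)
      · rw [h1, h1'] at hij; exact absurd rfl hij
  refine hmain.trans ?_
  have h3 : Real.log Y ≤ (A + 3) * l ^ 2 := log_YY_le hly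
  have h3' : 0 ≤ Real.log Y := Real.log_natCast_nonneg Y
  have h4 : (V : ℝ) ^ (-(1 / 6 : ℝ)) ≤ (l ^ (Fintype.card ι + 2 * E2))⁻¹ := by
    have h5 : l ^ (6 * (Fintype.card ι + 2 * E2)) ≤ V :=
      (pow_le_pow_right₀ hly hA).trans (VV_ge A l)
    have h6 : (0 : ℝ) < l ^ (6 * (Fintype.card ι + 2 * E2)) := by positivity
    have h7 : (V : ℝ) ^ (-(1 / 6 : ℝ)) ≤ (l ^ (6 * (Fintype.card ι + 2 * E2))) ^ (-(1 / 6 : ℝ)) :=
      Real.rpow_le_rpow_of_nonpos h6 h5 (by norm_num)
    refine h7.trans (le_of_eq ?_)
    rw [← Real.rpow_natCast l, ← Real.rpow_mul hly0.le, ← Real.rpow_natCast l,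
      ← Real.rpow_neg hly0.le]
    congr 1
    push_cast
    ring
  have h8 : (1 : ℝ) ≤ Real.exp (M y) := Real.one_le_exp (hM y hy)
  calc (C * l) ^ (Fintype.card ι) * (C2 * (Real.log Y) ^ E2 * (V : ℝ) ^ (-(1 / 6 : ℝ)))
      ≤ (C * l) ^ (Fintype.card ι) * (C2 * ((A + 3) * l ^ 2) ^ E2 *
          (l ^ (Fintype.card ι + 2 * E2))⁻¹) := by
        apply mul_le_mul_of_nonneg_left _ (by positivity)
        apply mul_le_mul _ h4 (by positivity) (by positivity)
        exact mul_le_mul_of_nonneg_left (pow_le_pow_left₀ h3' h3 _) hC2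
    _ = C ^ (Fintype.card ι) * C2 * (A + 3) ^ E2 := by
        rw [mul_pow, mul_pow, ← pow_mul, pow_add]
        field_simp
    _ ≤ _ := le_mul_of_one_le_right (by positivity) h8

variable {δ C0 E0 : ℝ}

/-- the final case -/
lemma gd_fin (hsy : SYMD) (hB : Bd a b c z C) (hb : ∀ i p, b i p ≤ 1 / 2)
    (h : Hp a b L c z C0 E0) (hδ : 0 < δ) (A : ℕ) (π : ι → Option (Fin 4))
    (hπ : ∀ i, π i = none ∨ π i = some 0 ∨ π i = some 1)
    (hF : ∀ i j, π i = none → π j = none → L i j = L j i)
    (hBB : (∀ y, z < y → BB b L z (univ.filter (fun i => π i = none))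
        (univ.filter (fun i => π i = some 1)) y ≤ M y + C0 - δ * Real.log (Real.log y)) ∨
      ((∀ i, π i ≠ some 1) ∧ ∀ y, z < y → ∑ i ∈ univ.filter (fun i => π i = none), Sp (b i) z y ≤
        M y)) (hM : ∀ y, z < y → 0 ≤ M y) : Gd a L c z M A π := by
  classical
  have hcz : c ≤ z := by have := hB.zc; omega
  have hC0 : 0 ≤ C := zero_le_one.trans hB.C1
  obtain ⟨C2, N, hC2, h2⟩ := ml_of hsy hb h
  set m := Fintype.card ι with hm
  obtain ⟨C1, hC1, h1⟩ := log_VV_pow_le A (m + N) hδ
  set F := univ.filter (fun i => π i = none) with hFd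
  set W := univ.filter (fun i => π i = some 1) with hWd
  have hFu : ∀ i ∈ F, ∀ j ∈ F, L i j = L j i := fun i hi j hj =>
    hF i j (mem_filter.1 hi).2 (mem_filter.1 hj).2
  have key : ∀ y, z < y → ∀ e ∈ Fintype.piFinset (fun i => if i ∈ F then {1} else
        oc z y (VV A (Real.log y)) (YY A (Real.log y)) (π i)),
      |∑ d ∈ Fintype.piFinset (fun i => if i ∈ F then
        oc z y (VV A (Real.log y)) (YY A (Real.log y)) (π i) else {e i}),
        HG a L (fun _ => 1) c d| ≤
      (∏ i ∈ Fᶜ, gp (b i) c (e i)) * (C2 * (if W = ∅ then 1 else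
        (1 + m * Real.log (VV A (Real.log y))) ^ N) * Real.exp (BB b L z F W y)) := by
    intro y hy e he
    set V := VV A (Real.log y) with hV
    set Y := YY A (Real.log y) with hY
    have hV3 : 3 ≤ V := three_le_VV _ _
    rw [Fintype.mem_piFinset] at he
    have hkind : ∀ i, i ∉ F → (π i = some 0 ∧ e i = 1) ∨ (π i = some 1 ∧ 1 < e i ∧ e i ≤ V) := by
      intro i hi
      have h3 := he i
      rw [if_neg hi] at h3
      rcases hπ i with h4 | h4 | h4
      · exact absurd (mem_filter.2 ⟨mem_univ i, h4⟩) hi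
      · left
        rw [h4] at h3
        exact ⟨h4, cell_zero h3⟩
      · right
        rw [h4] at h3
        exact ⟨h4, cell_one h3⟩
    have hdv : ∀ i, e i ∈ (PP z y).divisors := by
      intro i
      have h3 := he i
      by_cases hi : i ∈ F
      · rw [if_pos hi, mem_singleton] at h3
        rw [h3]
        exact one_mem_dv z y
      · rw [if_neg hi] at h3
        exact oc_sub _ _ _ _ _ h3
    have hW : Fᶜ.filter (fun w => e w ≠ 1) = W := by
      ext i
      constructor
      · intro h0
        obtain ⟨h3, h4⟩ := mem_filter.1 h0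
        rcases hkind i (mem_compl.1 h3) with h5 | h5
        · exact absurd h5.2 h4
        · exact mem_filter.2 ⟨mem_univ i, h5.1⟩
      · intro h0
        have h4 := (mem_filter.1 h0).2
        have h3 : i ∉ F := by
          intro h3
          have := (mem_filter.1 h3).2
          rw [h4] at this
          exact absurd this (by simp)
        refine mem_filter.2 ⟨mem_compl.2 h3, ?_⟩
        rcases hkind i h3 with h5 | h5
        · rw [h4] at h5
          exact absurd h5.1 (by decide)
        · omega
    have hs : (fun i => if i ∈ F then oc z y V Y (π i) else {e i}) =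
        (fun i => if i ∈ F then (PP z y).divisors else {e i}) := by
      funext i
      by_cases hi : i ∈ F
      · rw [if_pos hi, if_pos hi, (mem_filter.1 hi).2]
        rfl
      · rw [if_neg hi, if_neg hi]
    rw [hs]
    have h3 := h2 y hy F hFu e hdv
    have hP0 : 0 ≤ ∏ i ∈ Fᶜ, gp (b i) c (e i) :=
      prod_nonneg fun i _ => Pool.Agent.TH841.PT.ATS8.gp_nonneg (hB.w0 i) hcz (hdv i)
    refine h3.trans (mul_le_mul_of_nonneg_left ?_ hP0)
    rw [hW]
    unfold BB
    refine mul_le_mul_of_nonneg_right ?_ (Real.exp_pos _).le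
    refine mul_le_mul_of_nonneg_left ?_ hC2
    by_cases hWe : W = ∅
    · rw [if_pos hWe]
      have h4 : ∏ i ∈ Fᶜ, e i = 1 := by
        apply prod_eq_one
        intro i hi
        by_contra hne
        have : i ∈ W := by
          rw [← hW]
          exact mem_filter.2 ⟨hi, hne⟩
        rw [hWe] at this
        exact absurd this (notMem_empty i)
      rw [h4]
      simp
    · rw [if_neg hWe]
      have h4 : Real.log ((∏ i ∈ Fᶜ, e i : ℕ) : ℝ) ≤ m * Real.log V := by
        rw [← Real.log_pow]
        apply Real.log_le_log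
        · exact_mod_cast prod_pos fun i _ => dv_pos (hdv i)
        · have h5 : ∏ i ∈ Fᶜ, e i ≤ V ^ m := by
            calc ∏ i ∈ Fᶜ, e i ≤ ∏ i ∈ Fᶜ, V := by
                  apply prod_le_prod'
                  intro i hi
                  rcases hkind i (mem_compl.1 hi) with h5 | h5
                  · omega
                  · exact h5.2.2
              _ = V ^ Fᶜ.card := by rw [prod_const]
              _ ≤ V ^ m := Nat.pow_le_pow_right (by omega)
                  ((card_le_card (subset_univ _)).trans (le_of_eq card_univ))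
          exact_mod_cast h5
      apply pow_le_pow_left₀ (by
        have := Real.log_natCast_nonneg (∏ i ∈ Fᶜ, e i)
        linarith)
      linarith
  refine ⟨C2 * Real.exp C0 + C ^ m * C2 * (m + 1) ^ N * C1 * Real.exp C0, fun y hy => ?_⟩
  have hly := one_le_log hB.z2 hy
  have hly0 : 0 < Real.log y := by linarith
  have hkey := key y hy
  set l := Real.log y with hl
  set V := VV A l with hV
  set Y := YY A l with hY
  have hV3 : 3 ≤ V := three_le_VV A l
  have hlV : 1 ≤ Real.log V := one_le_log_VV A l
  rw [split_two F]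
  refine (abs_sum_le_sum_abs _ _).trans ((sum_le_sum hkey).trans ?_)
  rw [← sum_mul, prod_two F (fun i => oc z y V Y (π i)) (fun i m => gp (b i) c m)]
  have hm0 : (0 : ℝ) ≤ m := Nat.cast_nonneg m
  by_cases hWe : W = ∅
  · -- no small variables
    rw [if_pos hWe]
    have h3 : ∏ i ∈ Fᶜ, ∑ m ∈ oc z y V Y (π i), gp (b i) c m ≤ 1 := by
      apply prod_le_one
      · intro i _
        exact sum_nonneg fun m hm => Pool.Agent.TH841.PT.ATS8.gp_nonneg (hB.w0 i) hcz (oc_sub _ _ _ _ _ hm)
      · intro i hi
        have h4 : π i = some 0 := by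
          rcases hπ i with h4 | h4 | h4
          · exact absurd (mem_filter.2 ⟨mem_univ i, h4⟩) (mem_compl.1 hi)
          · exact h4
          · have : i ∈ W := mem_filter.2 ⟨mem_univ i, h4⟩
            rw [hWe] at this
            exact absurd this (notMem_empty i)
        rw [h4]
        calc ∑ m ∈ cell z y V Y 0, gp (b i) c m ≤ ∑ m ∈ ({1} : Finset ℕ), gp (b i) c m := by
              apply sum_le_sum_of_subset_of_nonneg
              · intro m hm
                rw [mem_singleton]
                exact cell_zero hm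
              · intro m hm _
                rw [mem_singleton] at hm
                rw [hm, gp_one]
                exact zero_le_one
          _ = 1 := by rw [sum_singleton, gp_one]
    have h4 : BB b L z F W y ≤ M y + C0 := by
      rcases hBB with h3 | h3
      · have h5 := h3 y hy
        have h6 : 0 ≤ δ * Real.log (Real.log y) := mul_nonneg hδ.le (Real.log_nonneg hly)
        linarith
      · have h5 := h3.2 y hy
        have h6 := h.hC
        unfold BB
        rw [hWe]
        simp only [notMem_empty, false_implies, implies_true, filter_true]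
        linarith
    have h5 := Real.exp_le_exp.2 h4
    have h6 : 0 ≤ C2 * 1 * Real.exp (BB b L z F W y) := by positivity
    calc _ ≤ 1 * (C2 * 1 * Real.exp (BB b L z F W y)) := mul_le_mul_of_nonneg_right h3 h6
      _ ≤ C2 * Real.exp C0 * Real.exp (M y) := by
          rw [one_mul, mul_one, mul_assoc, ← Real.exp_add, add_comm C0]
          exact mul_le_mul_of_nonneg_left h5 hC2
      _ ≤ _ := by
          apply mul_le_mul_of_nonneg_right _ (Real.exp_pos _).le
          have : 0 ≤ C ^ m * C2 * (m + 1) ^ N * C1 * Real.exp C0 := by positivity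
          linarith
  · rw [if_neg hWe]
    have hBB' : BB b L z F W y ≤ M y + C0 - δ * Real.log l := by
      rcases hBB with h3 | h3
      · exact h3 y hy
      · exfalso
        apply hWe
        rw [hWd, filter_eq_empty_iff]
        intro i _
        exact h3.1 i
    have hCl : 1 ≤ C * Real.log V := by nlinarith [hB.C1]
    have h3 : ∏ i ∈ Fᶜ, ∑ m ∈ oc z y V Y (π i), gp (b i) c m ≤ (C * Real.log V) ^ m := by
      calc ∏ i ∈ Fᶜ, ∑ m ∈ oc z y V Y (π i), gp (b i) c m ≤ ∏ i ∈ Fᶜ, (C * Real.log V) := by
            apply prod_le_prod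
            · intro i _
              exact sum_nonneg fun m hm => Pool.Agent.TH841.PT.ATS8.gp_nonneg (hB.w0 i) hcz (oc_sub _ _ _ _ _ hm)
            · intro i hi
              have h5 : ∀ r : Fin 4, r ≠ 3 → r ≠ 2 →
                  ∑ m ∈ oc z y V Y (some r), gp (b i) c m ≤ C * Real.log V := by
                intro r hr hr2
                calc ∑ m ∈ cell z y V Y r, gp (b i) c m
                    ≤ ∑ m ∈ cell z y V Y r, gp (b i) c m * hh m :=
                      sum_le_sum fun m hm => gp_le_hh hB i (cell_sub _ _ _ _ _ hm)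
                  _ ≤ C * (if r = 2 then Real.exp (Sp (b i) z y) else Real.log V) :=
                      cs_low hB hy hV3 i hr
                  _ = C * Real.log V := by rw [if_neg hr2]
              rcases hπ i with h4 | h4 | h4
              · exact absurd (mem_filter.2 ⟨mem_univ i, h4⟩) (mem_compl.1 hi)
              · rw [h4]
                exact h5 0 (by decide) (by decide)
              · rw [h4]
                exact h5 1 (by decide) (by decide)
        _ = (C * Real.log V) ^ Fᶜ.card := by rw [prod_const]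
        _ ≤ _ := pow_le_pow_right₀ hCl ((card_le_card (subset_univ _)).trans (le_of_eq card_univ))
    have h4 : (1 + m * Real.log V) ^ N ≤ ((m : ℝ) + 1) ^ N * (Real.log V) ^ N := by
      rw [← mul_pow]
      apply pow_le_pow_left₀ (by positivity)
      nlinarith
    have h5 : (Real.log V) ^ (m + N) ≤ C1 * l ^ δ := h1 l hly
    have h6 : Real.exp (BB b L z F W y) ≤ Real.exp (M y) * Real.exp C0 * (l ^ δ)⁻¹ := by
      have h7 : (l ^ δ)⁻¹ = Real.exp (-(δ * Real.log l)) := by
        rw [Real.rpow_def_of_pos hly0, ← Real.exp_neg, mul_comm]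
      rw [h7, ← Real.exp_add, ← Real.exp_add]
      apply Real.exp_le_exp.2
      linarith
    have hld : 0 < l ^ δ := Real.rpow_pos_of_pos hly0 _
    have hprod0 : 0 ≤ C2 * (1 + m * Real.log V) ^ N * Real.exp (BB b L z F W y) := by positivity
    calc _ ≤ (C * Real.log V) ^ m * (C2 * (1 + m * Real.log V) ^ N *
            Real.exp (BB b L z F W y)) := mul_le_mul_of_nonneg_right h3 hprod0
      _ ≤ (C * Real.log V) ^ m * (C2 * (((m : ℝ) + 1) ^ N * (Real.log V) ^ N) *
            (Real.exp (M y) * Real.exp C0 * (l ^ δ)⁻¹)) := by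
          apply mul_le_mul_of_nonneg_left _ (by positivity)
          apply mul_le_mul _ h6 (Real.exp_pos _).le (by positivity)
          exact mul_le_mul_of_nonneg_left h4 hC2
      _ = C ^ m * C2 * (m + 1) ^ N * Real.exp C0 * ((Real.log V) ^ (m + N) * (l ^ δ)⁻¹) *
            Real.exp (M y) := by
          rw [mul_pow, pow_add]
          ring
      _ ≤ C ^ m * C2 * (m + 1) ^ N * Real.exp C0 * C1 * Real.exp (M y) := by
          apply mul_le_mul_of_nonneg_right _ (Real.exp_pos _).le
          apply mul_le_mul_of_nonneg_left _ (by positivity)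
          rw [← div_eq_mul_inv, div_le_iff₀ hld]
          exact h5
      _ ≤ _ := by
          have e1 : C ^ m * C2 * ((m : ℝ) + 1) ^ N * Real.exp C0 * C1 * Real.exp (M y) =
              C ^ m * C2 * ((m : ℝ) + 1) ^ N * C1 * Real.exp C0 * Real.exp (M y) := by ring
          rw [e1, add_mul]
          have : 0 ≤ C2 * Real.exp C0 * Real.exp (M y) := by positivity
          linarith

end

/-- the nontrivial variables -/
def supp (d : ι → ℕ) : Finset ι := univ.filter (fun i => d i ≠ 1)

/-- the conditions for the sets of the variables -/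
structure Cn (L : ι → ι → Bool) (S : ι → ℕ → ℝ) (P : Finset ι → Prop) (z : ℕ) (δ C0 : ℝ)
    (M : ℕ → ℝ) : Prop where
  C1 : ∀ y, z < y → ∀ F : Finset ι, (∀ i ∈ F, ∀ j ∈ F, L i j = L j i) → P F →
    ∑ i ∈ F, S i y ≤ M y
  C2 : ∀ y, z < y → ∀ F W : Finset ι, Disjoint F W → (∀ i ∈ F, ∀ j ∈ F, L i j = L j i) →
    W.Nonempty → P (F ∪ W) →
    ∑ i ∈ F.filter (fun i => ∀ w ∈ W, L i w = L w i), S i y ≤ M y + C0 - δ * Real.log (Real.log y)
  C3 : ∀ y, z < y → ∀ F : Finset ι, (∀ i ∈ F, ∀ j ∈ F, L i j = L j i) → P F → ∀ w ∈ F,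
    ∑ i ∈ F.erase w, S i y ≤ M y + C0 - δ * Real.log (Real.log y)

open Classical in
/-- the restricted sum, decomposed into the patterns -/
lemma restr (a : ι → ℕ → ℝ) (L : ι → ι → Bool) (c z y V Y : ℕ) (P : Finset ι → Prop) :
    ∑ d ∈ (Tup ι z y).filter (fun d => P (supp d)), (∏ i, gp (a i) c (d i)) *
      Sym L (fun _ => 1) d =
    ∑ π ∈ univ.filter (fun π : ι → Fin 4 => P (univ.filter (fun i => π i ≠ 0))),
      ∑ d ∈ Fintype.piFinset (fun i => oc z y V Y (some (π i))), HG a L (fun _ => 1) c d := by
  have h1 : ∑ d ∈ (Tup ι z y).filter (fun d => P (supp d)), (∏ i, gp (a i) c (d i)) *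
      Sym L (fun _ => 1) d =
      ∑ d ∈ Fintype.piFinset (fun _ : ι => (PP z y).divisors),
        (if P (supp d) then HG a L (fun _ => 1) c d else 0) := by
    unfold Tup HG
    rw [sum_filter, sum_filter]
    apply sum_congr rfl
    intro d _
    split_ifs <;> rfl
  rw [h1, patterns z y V Y, sum_filter]
  apply sum_congr rfl
  intro π _
  have h2 : ∀ d ∈ Fintype.piFinset (fun k => cell z y V Y (π k)),
      supp d = univ.filter (fun i => π i ≠ 0) := by
    intro d hd
    rw [Fintype.mem_piFinset] at hd
    unfold supp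
    apply filter_congr
    intro i _
    have h3 := hd i
    constructor
    · intro h4 h5
      rw [h5] at h3
      exact h4 (cell_zero h3)
    · intro h4 h5
      apply h4
      have h6 := (mem_filter.1 h3).2
      rw [h5] at h6
      rw [← h6]
      unfold cl
      simp
  by_cases hP : P (univ.filter (fun i => π i ≠ 0))
  · rw [if_pos hP]
    apply sum_congr rfl
    intro d hd
    rw [h2 d hd, if_pos hP]
  · rw [if_neg hP]
    apply sum_eq_zero
    intro d hd
    rw [h2 d hd, if_neg hP]

open Classical in
/-- **The bound for the restricted sums** -/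
theorem atxp_of (hblw : BLW) (hf : FULLG) (hsy : SYMD) {a b : ι → ℕ → ℝ} {L : ι → ι → Bool}
    {c z : ℕ} {C0 E0 δ : ℝ} {M : ℕ → ℝ} {P : Finset ι → Prop} (hb : ∀ i p, b i p ≤ 1 / 2)
    (h : Hp a b L c z C0 E0) (hδ : 0 < δ) (hM : ∀ y, z < y → 0 ≤ M y)
    (hC : Cn L (fun i y => Sp (b i) z y) P z δ C0 M) :
    ∃ C : ℝ, ∀ y, z < y →
      |∑ d ∈ (Tup ι z y).filter (fun d => P (supp d)), (∏ i, gp (a i) c (d i)) *
        Sym L (fun _ => 1) d| ≤ C * Real.exp (M y) := by
  obtain ⟨C2, E2, h2⟩ := hblw
  have h2' : BW |C2| E2 := fun V Y hV hVY a b ha hb ha' hb' =>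
    (h2 V Y hV hVY a b ha hb ha' hb').trans (by
      apply mul_le_mul_of_nonneg_right _ (by positivity)
      exact mul_le_mul_of_nonneg_right (le_abs_self C2)
        (pow_nonneg (Real.log_natCast_nonneg Y) _))
  obtain ⟨C, hB⟩ := bd_of (c := c) (z := z) hf h.ab hb (by have := h.hz; omega)
  set A : ℕ := 6 * (Fintype.card ι + 2 * E2) with hA
  have hmain : ∀ π : ι → Fin 4, P (univ.filter (fun i => π i ≠ 0)) →
      Gd a L c z M A (fun i => some (π i)) := by
    intro π hP
    by_cases ht : ∃ i, π i = 3
    · obtain ⟨i, hi⟩ := ht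
      exact gd_tail hB A hM _ (k := i) (by rw [hi])
    push Not at ht
    by_cases hp : ∃ i j, π i = 2 ∧ π j = 2 ∧ L i j ≠ L j i
    · obtain ⟨i, j, hi, hj, hij⟩ := hp
      exact gd_pair hB (abs_nonneg C2) h2' h.LL (A := A) le_rfl hM _ (i := i) (j := j)
        (by rw [hi]) (by rw [hj]) hij
    push Not at hp
    set F0 := univ.filter (fun i => π i = 2) with hF0
    set W0 := univ.filter (fun i => π i = 1) with hW0
    have e3 : (fun i => some (π i)) = (fun i => if i ∈ F0 then some 2 else some (π i)) := by
      funext i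
      by_cases hi : i ∈ F0
      · rw [if_pos hi, (mem_filter.1 hi).2]
      · rw [if_neg hi]
    rw [e3]
    apply gd_two_set
    intro τ hτ
    by_cases ht'' : ∃ i ∈ F0, τ i = some 3
    · obtain ⟨i, hi, hi3⟩ := ht''
      exact gd_tail hB A hM _ (k := i) (by simp only [if_pos hi, hi3])
    push Not at ht''
    set π3 : ι → Option (Fin 4) := fun i => if i ∈ F0 then τ i else some (π i) with hπ3
    have k0 : ∀ i ∈ F0, π3 i = τ i := fun i hi => by simp only [hπ3, if_pos hi]
    have k1 : ∀ i, i ∉ F0 → π3 i = some (π i) := fun i hi => by simp only [hπ3, if_neg hi]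
    have hkinds : ∀ i, π3 i = none ∨ π3 i = some 0 ∨ π3 i = some 1 := by
      intro i
      by_cases hi0 : i ∈ F0
      · rw [k0 i hi0]
        have h1 := hτ i hi0
        have h3 := ht'' i hi0
        revert h1 h3
        generalize τ i = r
        revert r
        decide
      · rw [k1 i hi0]
        have h1 := ht i
        have h3 : π i ≠ 2 := fun h' => hi0 (mem_filter.2 ⟨mem_univ i, h'⟩)
        revert h1 h3
        generalize π i = r
        revert r
        decide
    have hnF : ∀ i, π3 i = none → i ∈ F0 := by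
      intro i hi
      by_contra hi0
      rw [k1 i hi0] at hi
      exact absurd hi (by simp)
    have hF0u : ∀ i ∈ F0, ∀ j ∈ F0, L i j = L j i := fun i hi j hj =>
      hp i j (mem_filter.1 hi).2 (mem_filter.1 hj).2
    have hFW : univ.filter (fun i => π i ≠ 0) = F0 ∪ W0 := by
      ext i
      rw [mem_union, hF0, hW0]
      simp only [mem_filter, mem_univ, true_and]
      have h1 := ht i
      revert h1
      generalize π i = r
      revert r
      decide
    rw [hFW] at hP
    have hSn : ∀ i y, 0 ≤ Sp (b i) z y := fun i y => Sp_nonneg hB i y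
    apply gd_fin hsy hB hb h hδ A π3 hkinds (fun i j hi hj => hF0u i (hnF i hi) j (hnF j hj)) _ hM
    by_cases hW : ∀ i, π3 i ≠ some 1
    · right
      refine ⟨hW, fun y hy => ?_⟩
      have hW0e : W0 = ∅ := by
        rw [hW0, filter_eq_empty_iff]
        intro i _ h1
        have hi0 : i ∉ F0 := fun h' => by
          have := (mem_filter.1 h').2
          rw [h1] at this
          exact absurd this (by decide)
        exact hW i (by rw [k1 i hi0, h1])
      rw [hW0e, union_empty] at hP
      refine le_trans ?_ (hC.C1 y hy F0 hF0u hP)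
      apply sum_le_sum_of_subset_of_nonneg
      · intro i hi
        exact hnF i (mem_filter.1 hi).2
      · intro i _ _
        exact hSn i y
    left
    push Not at hW
    obtain ⟨w, hw⟩ := hW
    intro y hy
    unfold BB
    by_cases hW0e : W0.Nonempty
    · refine le_trans ?_ (hC.C2 y hy F0 W0 ?_ hF0u hW0e hP)
      · apply sum_le_sum_of_subset_of_nonneg
        · intro i hi
          rw [mem_filter] at hi ⊢
          refine ⟨hnF i (mem_filter.1 hi.1).2, fun w hw => hi.2 w ?_⟩
          rw [mem_filter]
          refine ⟨mem_univ _, ?_⟩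
          have h1 := (mem_filter.1 hw).2
          have hw0 : w ∉ F0 := fun h' => by
            have := (mem_filter.1 h').2
            rw [h1] at this
            exact absurd this (by decide)
          rw [k1 w hw0, h1]
        · intro i _ _
          exact hSn i y
      · rw [Finset.disjoint_left]
        intro i hi hi'
        have h1 := (mem_filter.1 hi).2
        have h3 := (mem_filter.1 hi').2
        rw [h1] at h3
        exact absurd h3 (by decide)
    · rw [not_nonempty_iff_eq_empty] at hW0e
      rw [hW0e, union_empty] at hP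
      have hwF : w ∈ F0 := by
        by_contra hw0
        rw [k1 w hw0] at hw
        have : w ∈ W0 := mem_filter.2 ⟨mem_univ _, by simpa using hw⟩
        rw [hW0e] at this
        exact absurd this (notMem_empty _)
      refine le_trans ?_ (hC.C3 y hy F0 hF0u hP w hwF)
      apply sum_le_sum_of_subset_of_nonneg
      · intro i hi
        rw [mem_filter] at hi
        have hi1 := (mem_filter.1 hi.1).2
        rw [mem_erase]
        refine ⟨fun h' => ?_, hnF i hi1⟩
        rw [h', hw] at hi1
        exact absurd hi1 (by simp)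
      · intro i _ _
        exact hSn i y
  choose! Cf hCf using hmain
  refine ⟨∑ π ∈ univ.filter (fun π : ι → Fin 4 => P (univ.filter (fun i => π i ≠ 0))), Cf π,
    fun y hy => ?_⟩
  rw [restr a L c z y (VV A (Real.log y)) (YY A (Real.log y)) P, sum_mul]
  refine (abs_sum_le_sum_abs _ _).trans (sum_le_sum fun π hπ => ?_)
  exact hCf π (mem_filter.1 hπ).2 y hy

end Pool.Agent.R421.UR
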