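import Mathlib
import Pool.Agent.R421.UR.Atx

/-!
# Project UR: the restricted sums, larger weights (adapted from `TH841/TR/ATXR`)
-/

set_option autoImplicit false
set_option linter.all false

namespace Pool.Agent.R421.UR

open Finset Polynomial Pool.Agent.W262.RK Pool.Agent.W262.RK.AT Pool.Agent.TH841.PT

open Pool.Agent.TH841.TR.ATXRf (mem_lift sum_lift loglog_nonneg)

section core

variable {ι : Type} [Fintype ι] [DecidableEq ι] {R : ℕ}

theorem Cn_lift (L : ι → ι → Bool) (S : ι → ℕ → ℝ) (hS : ∀ i y, 0 ≤ S i y)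
    (P : Finset ι → Prop) (z : ℕ) (δ C0 : ℝ) (M : ℕ → ℝ) (hδ : 0 < δ) (hC0 : 0 ≤ C0)
    (hll : ∀ y, z < y → 0 ≤ Real.log (Real.log y)) (hR : 1 ≤ R) (h : Cn L S P z δ C0 M) :
    Cn (fun x y : ι × Fin R => L x.1 y.1) (fun x y => S x.1 y / R)
      (fun F => P (F.image Prod.fst)) z (δ / R) C0 M := by
  have hR0 : (0 : ℝ) < R := by exact_mod_cast hR
  have hR1 : (1 : ℝ) ≤ R := by exact_mod_cast hR
  have hSR : ∀ (x : ι × Fin R) y, 0 ≤ S x.1 y / R := fun x y => div_nonneg (hS _ _) hR0.le
  have hun : ∀ F : Finset (ι × Fin R), (∀ i ∈ F, ∀ j ∈ F, L i.1 j.1 = L j.1 i.1) →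
      ∀ i ∈ F.image Prod.fst, ∀ j ∈ F.image Prod.fst, L i j = L j i := by
    intro F hF i hi j hj
    obtain ⟨x, hx, rfl⟩ := mem_image.1 hi
    obtain ⟨y, hy, rfl⟩ := mem_image.1 hj
    exact hF x hx y hy
  have hsum : ∀ (F : Finset (ι × Fin R)) (y : ℕ), ∑ x ∈ F, S x.1 y / R ≤
      ∑ i ∈ F.image Prod.fst, S i y := by
    intro F y
    rw [← sum_lift (fun i => S i y) hR]
    refine sum_le_sum_of_subset_of_nonneg ?_ fun x _ _ => hSR x y
    intro x hx
    rw [mem_product]
    exact ⟨mem_image_of_mem _ hx, mem_univ _⟩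
  -- one variable of the same kind removed
  have key : ∀ y, z < y → ∀ F : Finset ι, (∀ i ∈ F, ∀ j ∈ F, L i j = L j i) → P F →
      ∀ (G : Finset (ι × Fin R)) (w : ι × Fin R), (∀ x ∈ G, x.1 ∈ F) → w ∉ G → w.1 ∈ F →
      ∑ x ∈ G, S x.1 y / R ≤ M y + C0 - δ / R * Real.log (Real.log y) := by
    intro y hy F hF hP G w hG hw hwF
    have h1 : ∑ x ∈ G, S x.1 y / R ≤ ∑ x ∈ (F ×ˢ (univ : Finset (Fin R))).erase w, S x.1 y / R := by
      refine sum_le_sum_of_subset_of_nonneg ?_ fun x _ _ => hSR x y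
      intro x hx
      rw [mem_erase, mem_product]
      exact ⟨fun h' => hw (h' ▸ hx), hG x hx, mem_univ _⟩
    have h2 : ∑ x ∈ (F ×ˢ (univ : Finset (Fin R))).erase w, S x.1 y / R + S w.1 y / R =
        ∑ i ∈ F, S i y := by
      rw [← sum_lift (fun i => S i y) hR]
      refine sum_erase_add (f := fun x : ι × Fin R => S x.1 y / R) _ ?_
      rw [mem_product]
      exact ⟨hwF, mem_univ _⟩
    have h3 := h.C1 y hy F hF hP
    have h4 := h.C3 y hy F hF hP w.1 hwF
    have h5 : ∑ i ∈ F.erase w.1, S i y + S w.1 y = ∑ i ∈ F, S i y :=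
      sum_erase_add (f := fun i => S i y) _ hwF
    set T := ∑ i ∈ F, S i y with hT
    set l := Real.log (Real.log y) with hl
    have h6 : T - S w.1 y ≤ M y + C0 - δ * l := by linarith
    have h7 : T - S w.1 y / R ≤ M y + C0 - δ / R * l := by
      have e1 : T - S w.1 y / R = (1 - 1 / R) * T + 1 / R * (T - S w.1 y) := by
        field_simp
        ring
      have e2 : 0 ≤ 1 - 1 / (R : ℝ) := by
        rw [sub_nonneg, div_le_one hR0]
        exact hR1
      have e3 : 0 ≤ 1 / (R : ℝ) := by positivity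
      have e4 := mul_le_mul_of_nonneg_left h3 e2
      have e5 := mul_le_mul_of_nonneg_left h6 e3
      have e6 : 1 / (R : ℝ) * C0 ≤ C0 := by
        rw [one_div, inv_mul_le_iff₀ hR0]
        nlinarith
      have e7 : 1 / (R : ℝ) * (M y + C0 - δ * l) = 1 / R * M y + 1 / R * C0 - δ / R * l := by
        ring
      rw [e1]
      nlinarith
    linarith
  constructor
  · intro y hy F hF hP
    exact (hsum F y).trans (h.C1 y hy _ (hun F hF) hP)
  · intro y hy F W hd hF hW hP
    rw [image_union] at hP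
    by_cases hc : (W.image Prod.fst \ F.image Prod.fst).Nonempty
    · have h1 := h.C2 y hy (F.image Prod.fst) (W.image Prod.fst \ F.image Prod.fst)
        disjoint_sdiff (hun F hF) hc (by rwa [union_sdiff_self_eq_union])
      have h2 : ∑ x ∈ F.filter (fun i => ∀ w ∈ W, L i.1 w.1 = L w.1 i.1), S x.1 y / R ≤
          ∑ i ∈ (F.image Prod.fst).filter (fun i => ∀ w ∈ W.image Prod.fst \ F.image Prod.fst,
            L i w = L w i), S i y := by
        refine (hsum _ y).trans ?_
        refine sum_le_sum_of_subset_of_nonneg ?_ fun i _ _ => hS i y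
        intro i hi
        obtain ⟨x, hx, rfl⟩ := mem_image.1 hi
        rw [mem_filter] at hx ⊢
        refine ⟨mem_image_of_mem _ hx.1, fun w hw => ?_⟩
        obtain ⟨x', hx', rfl⟩ := mem_image.1 (mem_sdiff.1 hw).1
        exact hx.2 x' hx'
      refine h2.trans (h1.trans ?_)
      have h3 : δ / R * Real.log (Real.log y) ≤ δ * Real.log (Real.log y) :=
        mul_le_mul_of_nonneg_right (div_le_self hδ.le hR1) (hll y hy)
      linarith
    · rw [not_nonempty_iff_eq_empty, sdiff_eq_empty_iff_subset] at hc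
      obtain ⟨w, hw⟩ := hW
      rw [union_eq_left.2 hc] at hP
      refine key y hy _ (hun F hF) hP _ w (fun x hx => mem_image_of_mem _ (mem_filter.1 hx).1) ?_
        (hc (mem_image_of_mem _ hw))
      intro h'
      exact (disjoint_left.1 hd (mem_filter.1 h').1) hw
  · intro y hy F hF hP w hw
    exact key y hy _ (hun F hF) hP _ w (fun x hx => mem_image_of_mem _ (mem_erase.1 hx).2)
      (fun h' => (mem_erase.1 h').1 rfl) (mem_image_of_mem _ hw)

end core

open Classical in
/-- **The bound for the restricted sums**, larger weights -/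
theorem atxpr {ι : Type} [Fintype ι] [DecidableEq ι] {R : ℕ} (hR : 1 ≤ R) {a b : ι → ℕ → ℝ}
    {L : ι → ι → Bool} {c z : ℕ} {C0 E0 δ : ℝ} {M : ℕ → ℝ} {P : Finset ι → Prop}
    (hb : ∀ i p, b i p ≤ R / 2) (H : Hp a b L c z C0 E0)
    (hz : 2 * c + 2 + Fintype.card ι * R ≤ z) (hδ : 0 < δ) (hM : ∀ y, z < y → 0 ≤ M y)
    (hC : Cn L (fun i y => Sp (b i) z y) P z δ C0 M) :
    ∃ C : ℝ, ∀ y, z < y →
      |∑ d ∈ (Tup ι z y).filter (fun d => P (supp d)), (∏ i, gp (a i) c (d i)) *
        Sym L (fun _ => 1) d| ≤ C * Real.exp (M y) := by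
  have hR0 : (0 : ℝ) < R := by exact_mod_cast hR
  have hR1 : (1 : ℝ) ≤ R := by exact_mod_cast hR
  have hb0 : ∀ i p, 0 ≤ b i p := fun i p => (abs_nonneg _).trans (H.ab i p)
  have hSp : ∀ i y, Sp (fun p => b i p / R) z y = Sp (b i) z y / R := by
    intro i y
    unfold Sp
    rw [sum_div]
    exact sum_congr rfl fun p _ => by ring
  have hS0 : ∀ i y, 0 ≤ Sp (b i) z y := fun i y => by
    unfold Sp
    exact sum_nonneg fun p _ => div_nonneg (hb0 i p) (Nat.cast_nonneg p)
  have hC0R : C0 / R ≤ C0 := div_le_self H.hC hR1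
  have hll : ∀ y, z < y → 0 ≤ Real.log (Real.log y) := by
    intro y hy
    apply Pool.Agent.TH841.TR.ATXRf.loglog_nonneg
    have := H.hz
    omega
  have hCn := Cn_lift L (fun i y => Sp (b i) z y) hS0 P z δ C0 M hδ H.hC hll hR hC
  obtain ⟨C, hC'⟩ := atxp_of Pool.Agent.TH841.PT.blw Pool.Agent.TH841.PT.EFG.fullg
    (Pool.Agent.TH841.TR.SYMDf.symd_of Pool.Agent.TH841.TR.EULf.eul)
    (a := fun (x : ι × Fin R) p => a x.1 p / R) (b := fun (x : ι × Fin R) p => b x.1 p / R)
    (L := fun x y => L x.1 y.1) (c := c) (z := z) (C0 := C0) (E0 := E0 / R) (δ := δ / R) (M := M)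
    (P := fun F => P (F.image Prod.fst))
    (by
      intro x p
      show b x.1 p / R ≤ 1 / 2
      rw [div_le_iff₀ hR0]
      have := hb x.1 p
      linarith)
    { ab := by
        intro x p
        show |a x.1 p / R| ≤ b x.1 p / R
        rw [abs_div, abs_of_pos hR0]
        exact div_le_div_of_nonneg_right (H.ab x.1 p) hR0.le
      LL := fun x => H.LL x.1
      hz := by
        rw [Fintype.card_prod, Fintype.card_fin]
        exact hz
      hE := div_nonneg H.hE hR0.le
      hC := H.hC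
      H2 := by
        intro x w hxw y n e hy hn hsq hpn
        have h4 := div_le_div_of_nonneg_right (H.H2 x.1 w.1 hxw y n e hy hn hsq hpn) hR0.le
        rw [sum_div, add_div] at h4
        have h5 : ∑ p ∈ PS z y, a x.1 p / R * (Jr p n * x4 e p) / (p : ℝ) =
            ∑ p ∈ PS z y, a x.1 p * (Jr p n * x4 e p) / (p : ℝ) / R :=
          sum_congr rfl fun p _ => by ring
        have h7 : E0 * Real.log (Real.log n) / R = E0 / R * Real.log (Real.log n) := by ring
        show ∑ p ∈ PS z y, a x.1 p / R * (Jr p n * x4 e p) / (p : ℝ) ≤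
          E0 / R * Real.log (Real.log n) + C0
        rw [h5]
        rw [h7] at h4
        linarith } (by positivity) hM (by
        have e : (fun (x : ι × Fin R) (y : ℕ) => Sp (fun p => b x.1 p / R) z y) =
            fun x y => Sp (b x.1) z y / R := by
          funext x y
          exact hSp x.1 y
        rw [e]
        exact hCn)
  refine ⟨C, fun y hy => ?_⟩
  have h4 := Pool.Agent.TH841.PT.MergeF.merge ι (Fin R) (fun x p => a x.1 p / R) c z y
    (fun d => if P (supp d) then Sym L (fun _ => 1) d else 0)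
  have h5 : ∀ i, (fun p => ∑ _θ : Fin R, a i p / (R : ℝ)) = a i := by
    intro i
    funext p
    rw [sum_const, card_univ, Fintype.card_fin, nsmul_eq_mul]
    field_simp
  simp only [h5] at h4
  have h6 : ∑ d ∈ (Tup ι z y).filter (fun d => P (supp d)), (∏ i, gp (a i) c (d i)) *
        Sym L (fun _ => 1) d = ∑ d ∈ Tup ι z y, (∏ i, gp (a i) c (d i)) *
        (if P (supp d) then Sym L (fun _ => 1) d else 0) := by
    rw [sum_filter]
    apply sum_congr rfl
    intro d _
    split_ifs
    · rfl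
    · ring
  rw [h6, ← h4]
  refine le_trans (le_of_eq ?_) (hC' y hy)
  congr 1
  rw [sum_filter]
  refine sum_congr rfl fun d hd => ?_
  have h7 : supp (fun i => ∏ θ : Fin R, d (i, θ)) = (supp d).image Prod.fst := by
    ext i
    unfold supp
    simp only [mem_filter, mem_univ, true_and, mem_image, Prod.exists, exists_and_right,
      exists_eq_right]
    rw [ne_eq, Finset.prod_eq_one_iff_of_one_le' (fun θ _ => ?_)]
    · push Not
      simp
    · exact Nat.one_le_iff_ne_zero.2 (Tup_ne hd (i, θ))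
  rw [h7]
  by_cases hP : P ((supp d).image Prod.fst)
  · rw [if_pos hP, if_pos hP]
    congr 1
    exact (Sym_merge L (fun _ => 1) d fun x => Tup_ne hd x).symm
  · rw [if_neg hP, if_neg hP, mul_zero]

end Pool.Agent.R421.UR
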