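import Mathlib
import Pool.Agent.R421.UR.Atxr

/-!
# Project UR: the largest unlinked sets (adapted from `TH841/TR/COMB`)
-/

set_option autoImplicit false
set_option linter.all false

namespace Pool.Agent.R421.UR

open Finset Pool.Agent.W262.RK Pool.Agent.TH841.TR.COMBf

open Pool.Agent.TH841.TR.COMBf (T Lt sing cap PD1 PD2 PD3 PS PU)

variable {J : Type} [Fintype J] [DecidableEq J] {cls : J → Fin 4}

/-- the sum over a set with allowed types -/
lemma sum_le_cap (d : J → ℝ) (hd : ∀ j, 0 ≤ d j) (C : Finset (I4 cls)) (P : J → T → Bool)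
    (h : ∀ i ∈ C, P i.1.1 i.1.2 = true) :
    ∑ i ∈ C, w4 cls i * d i.1.1 ≤ ∑ j, cap (cls j) (P j) * d j := by
  have h1 : ∑ i ∈ C, w4 cls i * d i.1.1 =
      ∑ j, ∑ i ∈ C.filter (fun i => i.1.1 = j), w4 cls i * d i.1.1 := by
    rw [Finset.sum_fiberwise]
  rw [h1]
  refine Finset.sum_le_sum fun j _ => ?_
  have h2 : ∑ i ∈ C.filter (fun i => i.1.1 = j), w4 cls i * d i.1.1 =
      (if cls j = 3 then 1 / 4 else 1 / 2) * ((C.filter (fun i => i.1.1 = j)).card : ℝ) * d j := by
    rw [Finset.sum_congr rfl (g := fun _ => (if cls j = 3 then (1 / 4 : ℝ) else 1 / 2) * d j),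
      Finset.sum_const, nsmul_eq_mul]
    · ring
    intro i hi
    rw [mem_filter] at hi
    unfold w4
    rw [hi.2]
  rw [h2]
  apply mul_le_mul_of_nonneg_right _ (hd j)
  unfold cap
  apply mul_le_mul_of_nonneg_left _ (by split_ifs <;> norm_num)
  rw [Nat.cast_le]
  apply Finset.card_le_card_of_injOn (fun i : I4 cls => i.1.2)
  · intro i hi
    rw [mem_coe, mem_filter] at hi
    rw [mem_coe, mem_filter]
    refine ⟨mem_univ _, ?_, ?_⟩
    · have := i.2
      rw [hi.2] at this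
      exact this
    · have := h i hi.1
      rw [hi.2] at this
      exact this
  · intro i hi i' hi' he
    rw [mem_coe, mem_filter] at hi hi'
    apply Subtype.ext
    exact Prod.ext (hi.2.trans hi'.2.symm) he

/-- the types of an unlinked set -/
lemma tri_types (F : Finset (I4 cls)) (hF : ∀ i ∈ F, ∀ j ∈ F, L4 cls i j = L4 cls j i) :
    (∀ i ∈ F, PD3 i.1.2 = true) ∨ (∀ i ∈ F, PD1 i.1.2 = true) ∨ (∀ i ∈ F, PD2 i.1.2 = true) ∨
      ∃ k : Fin 4, k ≠ 3 ∧ ∀ i ∈ F, PS k i.1.2 = true := by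
  by_cases hc : ∃ p ∈ F, ∃ r ∈ F, L4 cls p r = true
  · left
    obtain ⟨p, hp, r, hr, hpr⟩ := hc
    have hrp : L4 cls r p = true := by rw [← hF p hp r hr]; exact hpr
    intro i hi
    exact decide_eq_true (tl1 p.1.2 r.1.2 i.1.2 (sing_i p) (sing_i r) hpr hrp (hF i hi p hp)
      (hF i hi r hr))
  · push Not at hc
    have hc' : ∀ p ∈ F, ∀ r ∈ F, Lt p.1.2 r.1.2 = false := by
      intro p hp r hr
      have := hc p hp r hr
      rw [L4_eq] at this
      simpa using this
    by_cases h1 : ∀ t ∈ F, t.1.2.2 = (false, false)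
    · right; left
      intro i hi
      exact decide_eq_true (h1 i hi)
    by_cases h2 : ∀ t ∈ F, t.1.2.1 = (false, false)
    · right; right; left
      intro i hi
      exact decide_eq_true (h2 i hi)
    right; right; right
    push Not at h1 h2
    obtain ⟨u, hu, hu2⟩ := h1
    obtain ⟨t, ht, ht1⟩ := h2
    obtain ⟨k, hk3, hk⟩ := tl4 t.1.2 u.1.2 ht1 hu2 (hc' t ht u hu)
    refine ⟨k, hk3, fun i hi => ?_⟩
    have h3 := hk i.1.2 (hc' t ht i hi) (hc' i hi u hu)
    unfold Pool.Agent.TH841.TR.COMBf.PS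
    simp only [Bool.and_eq_true, Bool.or_eq_true, decide_eq_true_eq]
    exact h3

lemma capPS (c k : Fin 4) (hk : k ≠ 3) :
    cap c (PS k) = (if c = k then 2 else if c = 3 then 1 else 1 / 2) := by
  have h : ∀ c k : Fin 4, k ≠ 3 →
      (univ.filter (fun t : T => Al c t.1 t.2 = true ∧ PS k t = true)).card =
      if c = k then 4 else if c = 3 then 4 else 1 := by decide
  unfold cap
  rw [h c k hk]
  by_cases h4 : c = k
  · subst h4
    norm_num [hk]
  · by_cases h3 : c = 3
    · subst h3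
      norm_num [h4]
    · norm_num [h3, h4]

/-- the types of `PS k` that are not linked with a type outside -/
def PC (k : Fin 4) (u t : T) : Bool := PS k t && (Lt t u == Lt u t)

lemma capPC (c k : Fin 4) (hk : k ≠ 3) (u : T) (h1 : u.1 ≠ (false, false)) (h2 : u.1 ≠ ec k) :
    cap c (PC k u) = (if c = k then 1 else 1 / 2) := by
  have h : ∀ (c k : Fin 4) (u : T), k ≠ 3 → u.1 ≠ (false, false) → u.1 ≠ ec k →
      (univ.filter (fun t : T => Al c t.1 t.2 = true ∧ PC k u t = true)).card =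
      if c = 3 then 2 else if c = k then 2 else 1 := by decide
  unfold cap
  rw [h c k u hk h1 h2]
  by_cases h3 : c = 3
  · subst h3
    have : (3 : Fin 4) ≠ k := Ne.symm hk
    norm_num [this]
  · by_cases h4 : c = k
    · subst h4
      norm_num [h3]
    · norm_num [h3, h4]

section

variable (cls) (d : J → ℝ)

/-- the sum over a class -/
noncomputable def Wc (k : Fin 4) : ℝ := ∑ j ∈ univ.filter (fun j => cls j = k), d j

/-- the sum over the classes 0, 1, 2 -/
noncomputable def Wo : ℝ := ∑ j ∈ univ.filter (fun j => cls j ≠ 3), d j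

/-- the total -/
noncomputable def Wt : ℝ := ∑ j, d j

variable {cls d}

lemma Wt_eq : Wt d = Wo cls d + Wc cls d 3 := by
  unfold Wt Wo Wc
  rw [add_comm, ← sum_filter_add_sum_filter_not univ (fun j => cls j = 3)]

lemma Wc_nonneg (hd : ∀ j, 0 ≤ d j) (k : Fin 4) : 0 ≤ Wc cls d k := sum_nonneg fun j _ => hd j

lemma sum_ite_cls (k : Fin 4) (x y : ℝ) :
    ∑ j, (if cls j = k then x else y) * d j = x * Wc cls d k + y * (Wt d - Wc cls d k) := by
  have h1 : Wt d = Wc cls d k + ∑ j ∈ univ.filter (fun j => ¬ cls j = k), d j := by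
    unfold Wt Wc
    rw [sum_filter_add_sum_filter_not]
  rw [← sum_filter_add_sum_filter_not univ (fun j => cls j = k)]
  have e1 : ∑ j ∈ univ.filter (fun j => cls j = k), (if cls j = k then x else y) * d j =
      ∑ j ∈ univ.filter (fun j => cls j = k), x * d j :=
    sum_congr rfl fun j hj => by rw [if_pos (mem_filter.1 hj).2]
  have e2 : ∑ j ∈ univ.filter (fun j => ¬ cls j = k), (if cls j = k then x else y) * d j =
      ∑ j ∈ univ.filter (fun j => ¬ cls j = k), y * d j :=
    sum_congr rfl fun j hj => by rw [if_neg (mem_filter.1 hj).2]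
  rw [e1, e2, ← mul_sum, ← mul_sum, h1]
  unfold Wc
  ring

lemma sum_ite_cls3 (k : Fin 4) (hk : k ≠ 3) :
    ∑ j, (if cls j = k then 2 else if cls j = 3 then 1 else 1 / 2) * d j =
      2 * Wc cls d k + 1 / 2 * (Wo cls d - Wc cls d k) + Wc cls d 3 := by
  have h1 : ∀ j, (if cls j = k then (2 : ℝ) else if cls j = 3 then 1 else 1 / 2) * d j =
      (if cls j = k then 3 / 2 else 0) * d j + (if cls j = 3 then 1 / 2 else 0) * d j +
        1 / 2 * d j := by
    intro j
    by_cases h : cls j = k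
    · have h3 : cls j ≠ 3 := by rw [h]; exact hk
      rw [if_pos h, if_pos h, if_neg h3]
      ring
    · rw [if_neg h, if_neg h]
      split_ifs <;> ring
  rw [sum_congr rfl fun j _ => h1 j, sum_add_distrib, sum_add_distrib, sum_ite_cls, sum_ite_cls,
    ← mul_sum]
  have h2 := Wt_eq (cls := cls) (d := d)
  have h3 : ∑ j, d j = Wt d := rfl
  rw [h3]
  linarith

/-- the restricted sets: for the classes `k` of `B` there is a type outside the line of `k` -/
def PN (cls : J → Fin 4) (B : Finset (Fin 4)) (F : Finset (I4 cls)) : Prop :=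
  ∀ k ∈ B, ∃ i ∈ F, i.1.2.1 ≠ (false, false) ∧ i.1.2.1 ≠ ec k

variable {B : Finset (Fin 4)} {δ : ℝ}

/-- the hypotheses about the sums over the classes -/
structure HW (cls : J → Fin 4) (d : J → ℝ) (B : Finset (Fin 4)) (δ : ℝ) : Prop where
  d0 : ∀ j, 0 ≤ d j
  dl : ∀ j, 4 * δ ≤ d j
  B3 : ∀ k ∈ B, k ≠ 3
  oB : ∀ k, k ≠ 3 → k ∉ B → 3 * Wc cls d k + 2 * δ ≤ Wo cls d
  two : ∀ k, k ≠ 3 → Wc cls d k + 2 * δ ≤ Wo cls d
  δ0 : 0 < δ

lemma w4_ge' (i : I4 cls) : 1 / 4 ≤ w4 cls i := by unfold w4; split_ifs <;> norm_num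

lemma beta_ge (h : HW cls d B δ) (i : I4 cls) : δ ≤ w4 cls i * d i.1.1 := by
  have h1 := w4_ge' i
  have h2 := h.dl i.1.1
  have h3 := h.δ0
  nlinarith [h.d0 i.1.1]

lemma plane (h : HW cls d B δ) (F : Finset (I4 cls)) (P : T → Bool)
    (hP : P = PD1 ∨ P = PD2 ∨ P = PD3) (hF : ∀ i ∈ F, P i.1.2 = true) :
    ∑ i ∈ F, w4 cls i * d i.1.1 ≤ Wt d := by
  refine (sum_le_cap d h.d0 F (fun _ => P) hF).trans (le_of_eq ?_)
  unfold Wt
  apply sum_congr rfl
  intro j _
  have : cap (cls j) P = 1 := by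
    rcases hP with rfl | rfl | rfl
    · exact capD1 _
    · exact capD2 _
    · exact capD3 _
  rw [this, one_mul]

/-- the first condition -/
theorem cmb1 (h : HW cls d B δ) (F : Finset (I4 cls))
    (hF : ∀ i ∈ F, ∀ j ∈ F, L4 cls i j = L4 cls j i) (hP : PN cls B F) :
    ∑ i ∈ F, w4 cls i * d i.1.1 ≤ Wt d := by
  rcases tri_types F hF with h1 | h1 | h1 | ⟨k, hk3, h1⟩
  · exact plane h F PD3 (Or.inr (Or.inr rfl)) h1
  · exact plane h F PD1 (Or.inl rfl) h1
  · exact plane h F PD2 (Or.inr (Or.inl rfl)) h1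
  · have hkB : k ∉ B := by
      intro hk
      obtain ⟨i, hi, h2, h3⟩ := hP k hk
      have h4 := h1 i hi
      unfold Pool.Agent.TH841.TR.COMBf.PS at h4
      simp only [Bool.and_eq_true, Bool.or_eq_true, decide_eq_true_eq] at h4
      rcases h4.1 with h5 | h5
      · exact h2 h5
      · exact h3 h5
    refine (sum_le_cap d h.d0 F (fun _ => PS k) h1).trans ?_
    simp only [capPS _ k hk3]
    rw [sum_ite_cls3 k hk3]
    have h2 := h.oB k hk3 hkB
    have h3 := Wt_eq (cls := cls) (d := d)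
    have h4 := h.δ0
    linarith

/-- the third condition -/
theorem cmb3 (h : HW cls d B δ) (F : Finset (I4 cls))
    (hF : ∀ i ∈ F, ∀ j ∈ F, L4 cls i j = L4 cls j i) (hP : PN cls B F) (w : I4 cls) (hw : w ∈ F) :
    ∑ i ∈ F.erase w, w4 cls i * d i.1.1 ≤ Wt d - δ := by
  have h1 := cmb1 h F hF hP
  have h2 := sum_erase_add F (fun i : I4 cls => w4 cls i * d i.1.1) hw
  have h3 := beta_ge h w
  linarith

/-- the second condition -/
theorem cmb2 (h : HW cls d B δ) (F W : Finset (I4 cls)) (hd : Disjoint F W)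
    (hF : ∀ i ∈ F, ∀ j ∈ F, L4 cls i j = L4 cls j i) (hW : W.Nonempty) (hP : PN cls B (F ∪ W)) :
    ∑ i ∈ F.filter (fun i => ∀ w ∈ W, L4 cls i w = L4 cls w i), w4 cls i * d i.1.1 ≤
      Wt d - δ := by
  obtain ⟨w, hw⟩ := hW
  set F' := F.filter (fun i => ∀ w ∈ W, L4 cls i w = L4 cls w i) with hF'
  have hwF' : w ∉ F' := fun h => Finset.disjoint_left.1 hd (mem_filter.1 h).1 hw
  have hF's : ∀ i ∈ F', ∀ x ∈ F ∪ W, L4 cls i x = L4 cls x i := by
    intro i hi x hx
    rw [hF', mem_filter] at hi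
    rcases mem_union.1 hx with hx | hx
    · exact hF i hi.1 x hx
    · exact hi.2 x hx
  have hG : ∀ i ∈ insert w F', ∀ j ∈ insert w F', L4 cls i j = L4 cls j i := by
    intro i hi j hj
    rw [mem_insert] at hi hj
    rcases hi with rfl | hi
    · rcases hj with rfl | hj
      · rfl
      · exact (hF's j hj i (mem_union_right _ hw)).symm
    · rcases hj with rfl | hj
      · exact hF's i hi j (mem_union_right _ hw)
      · exact hF i (mem_filter.1 hi).1 j (mem_filter.1 hj).1
  have hpl : ∀ P : T → Bool, (P = PD1 ∨ P = PD2 ∨ P = PD3) →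
      (∀ i ∈ insert w F', P i.1.2 = true) →
      ∑ i ∈ F', w4 cls i * d i.1.1 ≤ Wt d - δ := by
    intro P hP hi
    have h1 := plane h _ P hP hi
    rw [sum_insert hwF'] at h1
    have h2 := beta_ge h w
    linarith
  rcases tri_types _ hG with h1 | h1 | h1 | ⟨k, hk3, h1⟩
  · exact hpl PD3 (Or.inr (Or.inr rfl)) h1
  · exact hpl PD1 (Or.inl rfl) h1
  · exact hpl PD2 (Or.inr (Or.inl rfl)) h1
  · have h1' : ∀ i ∈ F', PS k i.1.2 = true := fun i hi => h1 i (mem_insert_of_mem hi)
    have hδ := h.δ0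
    have h3 := Wt_eq (cls := cls) (d := d)
    by_cases hkB : k ∈ B
    · obtain ⟨x, hx, hx1, hx2⟩ := hP k hkB
      have h2 : ∀ i ∈ F', PC k x.1.2 i.1.2 = true := by
        intro i hi
        unfold PC
        rw [Bool.and_eq_true, beq_iff_eq]
        exact ⟨h1' i hi, hF's i hi x hx⟩
      refine (sum_le_cap d h.d0 F' (fun _ => PC k x.1.2) h2).trans ?_
      simp only [capPC _ k hk3 x.1.2 hx1 hx2]
      rw [sum_ite_cls]
      have h4 := h.two k hk3
      have h5 := Wc_nonneg (cls := cls) h.d0 3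
      linarith
    · refine (sum_le_cap d h.d0 F' (fun _ => PS k) h1').trans ?_
      simp only [capPS _ k hk3]
      rw [sum_ite_cls3 k hk3]
      have h2 := h.oB k hk3 hkB
      linarith

end

end Pool.Agent.R421.UR
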