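import Mathlib
import Pool.Agent.R421.UR.Atx
import Pool.Agent.TH841.PT.ExpT

/-!
# Project UR: expansion into symbols, general weights (adapted from `TH841/PT/ExpT`)
-/

set_option autoImplicit false
set_option linter.all false

namespace Pool.Agent.R421.UR

open Finset Polynomial Pool.Agent.W262.RK Pool.Agent.TH841.PT Pool.Agent.W762.RK2

open Pool.Agent.TH841.PT.ExpT (prod_gp)

variable {J : Type} [Fintype J] [DecidableEq J] {z y : ℕ}

/-- the character -/
noncomputable def chx (x : Bool × Bool) (h g : Bool) : ℝ :=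
  (if x.1 = true then sg h else 1) * (if x.2 = true then sg g else 1)

/-- the local factors are given by the coefficients -/
def LocId (cls : J → Fin 4) (Φ : J → Bool × Bool → Bool → Bool → ℕ → ℝ) (A : I4 cls → ℕ → ℝ) :
    Prop := ∀ (j : J) (v : Bool × Bool) (h g : Bool) (p : ℕ), p.Prime →
  Φ j v h g p = ∑ x : Bool × Bool, if hx : Al (cls j) v x = true then
    A ⟨(j, v, x), hx⟩ p * chx x h g else 0

/-- the local term -/
noncomputable def Ψ (Φ : J → Bool × Bool → Bool → Bool → ℕ → ℝ) (c : ℕ) (s : J → ℕ) (d : ℕ × ℕ)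
    (p : ℕ) : ℝ :=
  ∏ j, if p ∣ s j then Φ j (dv p d.1, dv p d.2) (sgn p d.1) (sgn p d.2) p / ((p : ℝ) - c) else 1

/-- the types of the primes -/
def vs (d : ℕ × ℕ) (m : ℕ) : Finset (Bool × Bool) :=
  m.primeFactors.image (fun p => (dv p d.1, dv p d.2))

/-- the types of the primes of a labelling -/
def vset (ξ : Pr z y → Option (J × (Bool × Bool))) : Finset (Bool × Bool) :=
  univ.filter (fun v => ∃ p j, ξ p = some (j, v))

lemma dvD (ξ : Pr z y → Option (J × (Bool × Bool))) (p : Pr z y) (a : J × (Bool × Bool))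
    (hx : ξ p = some a) : dv p (D1 ξ : ℤ) = a.2.1 ∧ dv p (D2 ξ : ℤ) = a.2.2 := by
  constructor
  · have : b1 (ξ p) = a.2.1 := by rw [hx]; rfl
    rw [← this]
    unfold dv
    rw [Bool.eq_iff_iff, decide_eq_true_iff, Int.natCast_dvd_natCast]
    exact dvd_nb _ p
  · have : b2 (ξ p) = a.2.2 := by rw [hx]; rfl
    rw [← this]
    unfold dv
    rw [Bool.eq_iff_iff, decide_eq_true_iff, Int.natCast_dvd_natCast]
    exact dvd_nb _ p

lemma dvd_SS (ξ : Pr z y → Option (J × (Bool × Bool))) (p : Pr z y) (a : J × (Bool × Bool))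
    (hx : ξ p = some a) (j : J) : (p : ℕ) ∣ SS ξ j ↔ j = a.1 := by
  unfold SS Dl
  rw [dvd_nb, decide_eq_true_iff]
  show (ξ p).map Prod.fst = some j ↔ j = a.1
  rw [hx]
  simp [eq_comm]

lemma vs_eq (ξ : Pr z y → Option (J × (Bool × Bool))) :
    vs (D1 ξ, D2 ξ) (∏ j, SS ξ j) = vset ξ := by
  have h3 : ∏ j, SS ξ j = nb fun p => ((ξ p).map Prod.fst).isSome := prod_Dl _
  ext v
  unfold vs vset
  rw [h3, nb_pf, mem_image, mem_filter]
  constructor
  · rintro ⟨p, hp, rfl⟩
    unfold Ts at hp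
    rw [mem_map] at hp
    obtain ⟨q, hq, rfl⟩ := hp
    rw [mem_filter] at hq
    refine ⟨mem_univ _, q, ?_⟩
    cases hx : ξ q with
    | none =>
      have hq2 := hq.2
      simp [hx] at hq2
    | some a =>
      obtain ⟨e1, e2⟩ := dvD ξ q a hx
      refine ⟨a.1, ?_⟩
      have e3 : (dv (q : ℕ) (D1 ξ : ℤ), dv (q : ℕ) (D2 ξ : ℤ)) = a.2 := by
        rw [e1, e2]
      show some a = some (a.1, _)
      congr 1
      rw [Prod.ext_iff]
      exact ⟨rfl, e3.symm⟩
  · rintro ⟨_, p, j, hx⟩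
    refine ⟨p, ?_, ?_⟩
    · rw [mem_Ts, hx]
      rfl
    · obtain ⟨e1, e2⟩ := dvD ξ p _ hx
      show (dv (p : ℕ) (D1 ξ : ℤ), dv (p : ℕ) (D2 ξ : ℤ)) = v
      rw [e1, e2]

/-- the local term -/
noncomputable def TmL (Φ : J → Bool × Bool → Bool → Bool → ℕ → ℝ) (c : ℕ)
    (ξ : Pr z y → Option (J × (Bool × Bool))) (p : Pr z y) : ℝ :=
  (ξ p).elim 1 fun a => Φ a.1 a.2 (sgn p (D1 ξ)) (sgn p (D2 ξ)) p / ((p : ℝ) - c)

lemma lhs_eqL (Φ : J → Bool × Bool → Bool → Bool → ℕ → ℝ) (c : ℕ)
    (G : Finset (Bool × Bool) → ℝ) :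
    ∑ s ∈ Tup J z y, ∑ d ∈ (∏ j, s j).divisors ×ˢ (∏ j, s j).divisors,
      (∏ p ∈ (∏ j, s j).primeFactors, Ψ Φ c s d p) * G (vs d (∏ j, s j)) =
      ∑ ξ : Pr z y → Option (J × (Bool × Bool)), (∏ p, TmL Φ c ξ p) * G (vset ξ) := by
  rw [sum_big fun s d => (∏ p ∈ (∏ j, s j).primeFactors, Ψ Φ c s d p) * G (vs d (∏ j, s j))]
  refine Finset.sum_congr rfl fun ξ _ => ?_
  rw [vs_eq]
  congr 1
  have h3 : ∏ j, SS ξ j = nb fun p => ((ξ p).map Prod.fst).isSome := prod_Dl _
  rw [h3, prod_pf _ fun p => Ψ Φ c (SS ξ) (D1 ξ, D2 ξ) p]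
  refine Finset.prod_congr rfl fun p _ => ?_
  unfold TmL
  cases hx : ξ p with
  | none => simp
  | some a =>
    simp only [Option.map_some, Option.isSome_some, if_true, Option.elim]
    unfold Ψ
    have e3 := dvd_SS ξ p a hx
    obtain ⟨e1, e2⟩ := dvD ξ p a hx
    rw [Finset.prod_eq_single a.1]
    · rw [if_pos ((e3 _).2 rfl)]
      simp only [e1, e2]
    · intro j _ hj
      rw [if_neg]
      intro h
      exact hj ((e3 j).1 h)
    · intro h
      exact absurd (Finset.mem_univ _) h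

/-- the local factor -/
noncomputable def Gm (cls : J → Fin 4) (A : I4 cls → ℕ → ℝ) (c : ℕ)
    (ξ : Pr z y → Option (J × (Bool × Bool))) (p : Pr z y) (x : Option (I4 cls)) : ℝ :=
  x.elim 1 fun i => A i p / ((p : ℝ) - c) * chx i.1.2.2 (sgn p (D1 ξ)) (sgn p (D2 ξ))

lemma sum_Gm (cls : J → Fin 4) {Φ : J → Bool × Bool → Bool → Bool → ℕ → ℝ}
    {A : I4 cls → ℕ → ℝ} (hid : LocId cls Φ A) (c : ℕ)
    (ξ : Pr z y → Option (J × (Bool × Bool))) (p : Pr z y) :
    ∑ x ∈ univ.filter (fun x : Option (I4 cls) => fg x = ξ p), Gm cls A c ξ p x =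
      TmL Φ c ξ p := by
  rw [Finset.sum_filter, Fintype.sum_option]
  unfold TmL
  cases hx : ξ p with
  | none => simp [fg, Gm]
  | some a =>
    obtain ⟨j, v⟩ := a
    have h0 : (if fg (none : Option (I4 cls)) = some (j, v) then Gm cls A c ξ p none else 0) =
        0 := by
      rw [if_neg]
      simp [fg]
    rw [h0, zero_add]
    set F : J × (Bool × Bool) × (Bool × Bool) → ℝ := fun r : J × (Bool × Bool) × (Bool × Bool) =>
          if r.1 = j ∧ r.2.1 = v then (if hr : Al (cls r.1) r.2.1 r.2.2 = true then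
            A ⟨r, hr⟩ p / ((p : ℝ) - c) * chx r.2.2 (sgn p (D1 ξ)) (sgn p (D2 ξ)) else 0) else 0
      with hF
    have h1 : ∀ i : I4 cls, (if fg (some i) = some (j, v) then Gm cls A c ξ p (some i) else 0) =
        F i.1 := by
      intro i
      have e : F i.1 = if i.1.1 = j ∧ i.1.2.1 = v then Gm cls A c ξ p (some i) else 0 := by
        rw [hF]
        simp only
        rw [dif_pos i.2]
        rfl
      rw [e]
      refine if_congr ?_ rfl rfl
      simp only [fg, Option.map_some, Option.some.injEq, Prod.mk.injEq]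
    refine (Finset.sum_congr rfl fun i _ => h1 i).trans ((sum_I4 cls F).trans ?_)
    rw [Fintype.sum_prod_type, Finset.sum_eq_single j]
    · rw [Fintype.sum_prod_type, Finset.sum_eq_single v]
      · show _ = Φ j v (sgn p (D1 ξ)) (sgn p (D2 ξ)) p / ((p : ℝ) - c)
        rw [hid j v _ _ _ (Pr_prime p), Finset.sum_div]
        refine Finset.sum_congr rfl fun x _ => ?_
        simp only [hF, and_self, if_true]
        by_cases hA : Al (cls j) v x = true
        · rw [if_pos hA, dif_pos hA, dif_pos hA]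
          ring
        · rw [if_neg hA, dif_neg hA, zero_div]
      · intro v' _ hv'
        refine Finset.sum_eq_zero fun x _ => ?_
        simp [hF, hv']
      · intro h
        exact absurd (Finset.mem_univ _) h
    · intro j' _ hj'
      refine Finset.sum_eq_zero fun x _ => ?_
      simp [hF, hj']
    · intro h
      exact absurd (Finset.mem_univ _) h

lemma rhs_termL (cls : J → Fin 4) (A : I4 cls → ℕ → ℝ) (c : ℕ)
    (ξ : Pr z y → Option (J × (Bool × Bool))) (l : Pr z y → Option (I4 cls))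
    (h : ∀ p, fg (l p) = ξ p) :
    (∏ i, gp (A i) c (Dl l i)) * Pool.Agent.W262.RK.Sym (L4 cls) (fun _ => 1) (Dl l) =
      ∏ p, Gm cls A c ξ p (l p) := by
  rw [prod_gp, Sym_Dl, ← Finset.prod_mul_distrib, ← Finset.prod_mul_distrib]
  refine Finset.prod_congr rfl fun p _ => ?_
  cases hl : l p with
  | none =>
    have h0 : ∀ q, lk (L4 cls) (l q) none = false := by
      intro q
      cases l q <;> rfl
    simp [h0, Gm]
  | some i =>
    have hAl := Al_orth _ _ _ i.2
    have h1 : ∀ q, lk (L4 cls) (l q) (some i) =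
        xor (i.1.2.2.1 && b1 (ξ q)) (i.1.2.2.2 && b2 (ξ q)) := by
      intro q
      rw [← h q]
      cases hq : l q with
      | none => simp [Pool.Agent.W762.RK2.lk, fg, b1, b2]
      | some i' => rfl
    have h2 : ∏ q : Pr z y, (if lk (L4 cls) (l q) (some i) = true then Jr (q : ℕ) p else 1) =
        ((if i.1.2.2.1 = true then sg (sgn p (D1 ξ)) else 1) *
      (if i.1.2.2.2 = true then sg (sgn p (D2 ξ)) else 1)) := by
      have h3 : ∀ a : Bool, ∀ b : Pr z y → Bool, (if a = true then sg (sgn p (nb b : ℤ)) else 1) =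
          ∏ q : Pr z y, if a = true then (if q ≠ p ∧ b q = true then Jr (q : ℕ) p else 1)
            else 1 := by
        intro a b
        cases a
        · simp
        · simp only [if_true]
          exact sgn_nb b p
      unfold D1 D2
      rw [h3, h3, ← Finset.prod_mul_distrib]
      refine Finset.prod_congr rfl fun q _ => ?_
      rw [h1]
      refine bits_eq q p _ _ _ _ fun hqp => ?_
      rw [hqp, ← h p, hl]
      exact hAl
    rw [h2]
    have e5 : Jr 1 (p : ℕ) = 1 := by
      unfold Jr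
      rw [jacobiSym.one_left]
      norm_num
    simp only [Gm, Option.elim, e5, chx]
    ring

lemma supp_Dl (cls : J → Fin 4) (ξ : Pr z y → Option (J × (Bool × Bool)))
    (l : Pr z y → Option (I4 cls)) (h : ∀ p, fg (l p) = ξ p) :
    (supp (Dl l)).image (fun i : I4 cls => i.1.2.1) = vset ξ := by
  have h1 : ∀ i, Dl l i ≠ 1 ↔ ∃ p, l p = some i := by
    intro i
    unfold Dl
    constructor
    · intro h1
      by_contra h2
      push Not at h2
      apply h1
      unfold nb
      refine Finset.prod_eq_one fun p _ => ?_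
      rw [if_neg]
      simpa using h2 p
    · rintro ⟨p, hp⟩ h1
      have h2 : (p : ℕ) ∣ nb (fun p => decide (l p = some i)) := by
        rw [dvd_nb, decide_eq_true_iff]
        exact hp
      rw [h1] at h2
      exact (Pr_prime p).one_lt.ne' (Nat.dvd_one.1 h2)
  ext v
  unfold vset supp
  simp only [mem_image, mem_filter, mem_univ, true_and]
  constructor
  · rintro ⟨i, hi, rfl⟩
    obtain ⟨p, hp⟩ := (h1 i).1 hi
    refine ⟨p, i.1.1, ?_⟩
    rw [← h p, hp]
    rfl
  · rintro ⟨p, j, hx⟩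
    rw [← h p] at hx
    cases hl : l p with
    | none => rw [hl] at hx; exact absurd hx (by simp [fg])
    | some i =>
      refine ⟨i, (h1 i).2 ⟨p, hl⟩, ?_⟩
      rw [hl] at hx
      simp only [fg, Option.map_some, Option.some.injEq, Prod.mk.injEq] at hx
      exact hx.2

/-- **The expansion** -/
theorem expl (cls : J → Fin 4) {Φ : J → Bool × Bool → Bool → Bool → ℕ → ℝ}
    {A : I4 cls → ℕ → ℝ} (hid : LocId cls Φ A) (c : ℕ) (G : Finset (Bool × Bool) → ℝ) :
    ∑ s ∈ Tup J z y, ∑ d ∈ (∏ j, s j).divisors ×ˢ (∏ j, s j).divisors,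
      (∏ p ∈ (∏ j, s j).primeFactors, Ψ Φ c s d p) * G (vs d (∏ j, s j)) =
    ∑ d ∈ Tup (I4 cls) z y, (∏ i, gp (A i) c (d i)) * Sym (L4 cls) (fun _ => 1) d *
      G ((supp d).image (fun i : I4 cls => i.1.2.1)) := by
  classical
  rw [lhs_eqL, sum_Tup, ← Finset.sum_fiberwise univ
    (fun (l : Pr z y → Option (I4 cls)) => fun p => fg (l p))]
  refine Finset.sum_congr rfl fun ξ _ => ?_
  have h1 : (univ.filter fun l : Pr z y → Option (I4 cls) => (fun p => fg (l p)) = ξ) =
      Fintype.piFinset (fun p => univ.filter (fun x : Option (I4 cls) => fg x = ξ p)) := by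
    ext l
    simp only [Finset.mem_filter, Finset.mem_univ, true_and, Fintype.mem_piFinset, funext_iff]
  rw [h1, Finset.prod_congr rfl fun p _ => (sum_Gm cls hid c ξ p).symm, Finset.prod_univ_sum,
    Finset.sum_mul]
  refine Finset.sum_congr rfl fun l hl => ?_
  rw [Fintype.mem_piFinset] at hl
  have h2 : ∀ p, fg (l p) = ξ p := fun p => (Finset.mem_filter.1 (hl p)).2
  rw [supp_Dl cls ξ l h2, ← rhs_termL cls A c ξ l h2]

end Pool.Agent.R421.UR
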