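import Mathlib
import Pool.Agent.R421.UR.Cmb
import Pool.Agent.R421.UR.Expl
import Pool.Agent.TH841.PT.Types
import Pool.Agent.TH841.PT.Merge
import Pool.Agent.TH841.TR.EUL
import Pool.Agent.W655.RK.Full

/-!
# Project UR: merged expansion, Euler products
-/

set_option autoImplicit false
set_option linter.all false

namespace Pool.Agent.R421.UR

open Finset Polynomial Pool.Agent.W262.RK Pool.Agent.TH841.PT Pool.Agent.W762.RK2

variable {J : Type} [Fintype J] [DecidableEq J] {z y : ℕ}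

/-- **The expansion**, with merged variables -/
theorem explm (cls : J → Fin 4) {Φ : J × Ty → Bool × Bool → Bool → Bool → ℕ → ℝ}
    {A : I4 (clsI cls) → ℕ → ℝ} (hid : LocId (clsI cls) Φ A) (c : ℕ)
    (G : Finset (Bool × Bool) → ℝ) :
    ∑ s ∈ Tup (J × Ty) z y, ∑ d ∈ (∏ j, s j).divisors ×ˢ (∏ j, s j).divisors,
      (∏ p ∈ (∏ j, s j).primeFactors, Ψ Φ c s d p) * G (vs d (∏ j, s j)) =
    ∑ d ∈ Tup (I4 cls) z y,
      (∏ i, gp (fun p => ∑ θ : Ty, A ((e4 cls).symm (i, θ)) p) c (d i)) *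
        Sym (L4 cls) (fun _ => 1) d * G ((supp d).image (fun i : I4 cls => i.1.2.1)) := by
  rw [expl (clsI cls) hid c G, sum_Tup_equiv (e4 cls)]
  have hm := Pool.Agent.TH841.PT.MergeF.merge (I4 cls) Ty (fun x p => A ((e4 cls).symm x) p) c z y
    (fun d => Sym (L4 cls) (fun _ => 1) d * G ((supp d).image (fun i : I4 cls => i.1.2.1)))
  have h1 : ∑ d ∈ Tup (I4 cls) z y,
      (∏ i, gp (fun p => ∑ θ : Ty, A ((e4 cls).symm (i, θ)) p) c (d i)) *
        Sym (L4 cls) (fun _ => 1) d * G ((supp d).image (fun i : I4 cls => i.1.2.1)) =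
      ∑ d ∈ Tup (I4 cls) z y,
      (∏ i, gp (fun p => ∑ θ : Ty, A ((e4 cls).symm (i, θ)) p) c (d i)) *
        (Sym (L4 cls) (fun _ => 1) d * G ((supp d).image (fun i : I4 cls => i.1.2.1))) :=
    sum_congr rfl fun d _ => by ring
  rw [h1, ← hm]
  refine sum_congr rfl fun d hd => ?_
  rw [← Sym_merge (L4 cls) (fun _ => 1) d fun x => Tup_ne hd x,
    ← Sym_equiv (e4 cls) (fun x y : I4 cls × Ty => L4 cls x.1 y.1) (fun _ => 1) d, ← mul_assoc]
  have h2 : (supp (fun i => d (e4 cls i))).image (fun i : I4 (clsI cls) => i.1.2.1) =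
      (supp (fun i => ∏ θ : Ty, d (i, θ))).image (fun i : I4 cls => i.1.2.1) := by
    ext v
    unfold supp
    simp only [mem_image, mem_filter, mem_univ, true_and]
    constructor
    · rintro ⟨i, hi, rfl⟩
      refine ⟨(e4 cls i).1, ?_, rfl⟩
      rw [ne_eq, Finset.prod_eq_one_iff_of_one_le' (fun θ _ =>
        Nat.one_le_iff_ne_zero.2 (Tup_ne hd _))]
      push Not
      exact ⟨(e4 cls i).2, mem_univ _, hi⟩
    · rintro ⟨i, hi, rfl⟩
      rw [ne_eq, Finset.prod_eq_one_iff_of_one_le' (fun θ _ =>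
        Nat.one_le_iff_ne_zero.2 (Tup_ne hd _))] at hi
      push Not at hi
      obtain ⟨θ, _, hθ⟩ := hi
      refine ⟨(e4 cls).symm (i, θ), ?_, rfl⟩
      rwa [Equiv.apply_symm_apply]
  rw [h2]
  congr 2
  rw [← (e4 cls).prod_comp]
  refine prod_congr rfl fun i _ => ?_
  rw [Equiv.symm_apply_apply]

/-- the product of the weights, prime by prime -/
lemma prod_gp_pf (g : J → ℕ → ℝ) (c : ℕ) {s : J → ℕ} (hs : s ∈ Tup J z y) :
    ∏ j, gp (g j) c (s j) = ∏ p ∈ (∏ j, s j).primeFactors,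
      ∏ j, if p ∣ s j then g j p / ((p : ℝ) - c) else 1 := by
  have hne : ∏ j, s j ≠ 0 := Finset.prod_ne_zero_iff.2 fun j _ => Tup_ne hs j
  rw [prod_comm]
  refine prod_congr rfl fun j _ => ?_
  unfold gp
  rw [← prod_filter]
  refine prod_congr ?_ fun _ _ => rfl
  ext p
  rw [mem_filter, Nat.mem_primeFactors, Nat.mem_primeFactors]
  constructor
  · rintro ⟨h1, h2, h3⟩
    exact ⟨⟨h1, h2.trans (dvd_prod_of_mem _ (mem_univ _)), hne⟩, h2⟩
  · rintro ⟨⟨h1, h2, h3⟩, h4⟩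
    exact ⟨h1, h4, Tup_ne hs j⟩

/-- a prime divides exactly one component -/
lemma exists_uniq {s : J → ℕ} (hs : s ∈ Tup J z y) {p : ℕ} (hp : p ∈ (∏ j, s j).primeFactors) :
    ∃ j, p ∣ s j ∧ ∀ i, p ∣ s i → i = j := by
  obtain ⟨h1, h2, h3⟩ := Nat.mem_primeFactors.1 hp
  obtain ⟨j, _, hj⟩ := (Prime.dvd_finset_prod_iff h1.prime _).1 h2
  refine ⟨j, hj, fun i hi => ?_⟩
  by_contra hij
  have h4 := (Pool.Agent.W405.RK2.mem_Tup.1 hs).2 i j hij
  have h5 := Nat.dvd_gcd hi hj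
  rw [h4] at h5
  exact h1.one_lt.ne' (Nat.dvd_one.1 h5)

/-- scaling of the weights -/
lemma gp_smul (r : ℝ) (a : ℕ → ℝ) (c d : ℕ) :
    gp (fun p => r * a p) c d = r ^ d.primeFactors.card * gp a c d := by
  unfold gp
  rw [← prod_const, ← prod_mul_distrib]
  exact prod_congr rfl fun p _ => by ring

lemma gp_nonneg' {a : ℕ → ℝ} {c : ℕ} (ha : ∀ p, 0 ≤ a p) {s : J → ℕ} (hs : s ∈ Tup J z y)
    (hz : c ≤ z) (j : J) : 0 ≤ gp a c (s j) := by
  unfold gp
  refine prod_nonneg fun p hp => div_nonneg (ha p) ?_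
  have h1 : p ∣ PP z y := (Nat.dvd_of_mem_primeFactors hp).trans
    ((Pool.Agent.W405.RK2.mem_Tup.1 hs).1 j)
  have h2 : p ∈ PS z y := by
    have h3 := Nat.prime_of_mem_primeFactors hp
    unfold PP at h1
    obtain ⟨q, hq, hpq⟩ := (Prime.dvd_finset_prod_iff h3.prime _).1 h1
    have h4 := (mem_filter.1 hq).2
    rw [(Nat.prime_dvd_prime_iff_eq h3 h4).1 hpq]
    exact hq
  have h3 : z < p := (mem_Ioc.1 (mem_filter.1 h2).1).1
  have h4 : (c : ℝ) ≤ p := by exact_mod_cast (by omega : c ≤ p)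
  linarith

/-- **The Euler product bound** -/
theorem eul_le (h : J → ℕ → ℝ) (c z : ℕ) (B : ℝ) (hB : ∀ j p, h j p ≤ B) (h0 : ∀ j p, 0 ≤ h j p)
    (hB0 : 0 ≤ B) (hz : 2 * c + 2 ≤ z) :
    ∃ C : ℝ, ∀ y, z < y → ∑ s ∈ Tup J z y, ∏ j, gp (h j) c (s j) ≤
      C * Real.exp (∑ j, Sp (h j) z y) := by
  classical
  obtain ⟨K, hK, hsq⟩ := Pool.Agent.W655.RK.sum_inv_sq
  refine ⟨Real.exp (Fintype.card J * (B * (2 * c)) * K), fun y hy => ?_⟩
  have h1 := Pool.Agent.TH841.TR.EULf.eul J univ (fun i p => h i p / ((p : ℝ) - c)) z y 1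
    one_ne_zero
  have h2 : (Fintype.piFinset (fun i : J => if i ∈ univ then (PP z y).divisors.filter
      (fun m => m.Coprime 1) else {1})).filter
      (fun d => ∀ i ∈ univ, ∀ j ∈ univ, i ≠ j → (d i).Coprime (d j)) = Tup J z y := by
    ext d
    unfold Tup
    simp [Fintype.mem_piFinset]
  rw [h2] at h1
  have h3 : ∑ s ∈ Tup J z y, ∏ j, gp (h j) c (s j) = ∏ p ∈ (PS z y).filter (fun p => ¬ p ∣ 1),
      (1 + ∑ i, h i p / ((p : ℝ) - c)) := by
    rw [← h1]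
    rfl
  rw [h3]
  have hpz : ∀ p ∈ PS z y, z < p ∧ p.Prime := fun p hp =>
    ⟨(mem_Ioc.1 (mem_filter.1 hp).1).1, (mem_filter.1 hp).2⟩
  have h4 : (PS z y).filter (fun p => ¬ p ∣ 1) = PS z y := by
    apply filter_true_of_mem
    intro p hp h
    exact (hpz p hp).2.one_lt.ne' (Nat.dvd_one.1 h)
  rw [h4]
  have hpos : ∀ p ∈ PS z y, (0 : ℝ) < p - c ∧ (2 * c : ℝ) ≤ p ∧ (0 : ℝ) < p := by
    intro p hp
    have h5 := (hpz p hp).1
    have h6 : (2 * c + 3 : ℝ) ≤ p := by exact_mod_cast (by omega : 2 * c + 3 ≤ p)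
    have h7 : (0 : ℝ) ≤ c := Nat.cast_nonneg c
    refine ⟨by linarith, by linarith, by linarith⟩
  have h5 : ∏ p ∈ PS z y, (1 + ∑ i, h i p / ((p : ℝ) - c)) ≤
      ∏ p ∈ PS z y, Real.exp (∑ i, h i p / ((p : ℝ) - c)) := by
    apply Finset.prod_le_prod
    · intro p hp
      have := (hpos p hp).1
      have : 0 ≤ ∑ i, h i p / ((p : ℝ) - c) := sum_nonneg fun i _ => div_nonneg (h0 i p) this.le
      linarith
    · intro p hp
      rw [add_comm]
      exact Real.add_one_le_exp _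
  refine h5.trans ?_
  rw [← Real.exp_sum, ← Real.exp_add]
  apply Real.exp_le_exp.2
  have h6 : ∀ p ∈ PS z y, ∑ i, h i p / ((p : ℝ) - c) ≤
      ∑ i, h i p / (p : ℝ) + Fintype.card J * (B * (2 * c)) * (1 / (p : ℝ) ^ 2) := by
    intro p hp
    obtain ⟨e1, e2, e3⟩ := hpos p hp
    have h7 : ∀ i, h i p / ((p : ℝ) - c) ≤ h i p / (p : ℝ) + (B * (2 * c)) * (1 / (p : ℝ) ^ 2) := by
      intro i
      have e4 : h i p / ((p : ℝ) - c) - h i p / (p : ℝ) = h i p * (c / (p * (p - c))) := by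
        field_simp
        ring
      have e5 : (c : ℝ) / (p * (p - c)) ≤ (2 * c) * (1 / (p : ℝ) ^ 2) := by
        have e7 : (0 : ℝ) ≤ c := Nat.cast_nonneg c
        rw [mul_one_div, div_le_div_iff₀ (by positivity) (by positivity)]
        have e6 : 0 ≤ (c : ℝ) * p * (p - 2 * c) := by
          have : (0 : ℝ) ≤ p - 2 * c := by linarith
          positivity
        nlinarith
      have e6 : 0 ≤ (c : ℝ) / (p * (p - c)) := by positivity
      have e7 : h i p * (c / (p * (p - c))) ≤ B * ((2 * c) * (1 / (p : ℝ) ^ 2)) :=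
        mul_le_mul (hB i p) e5 e6 hB0
      linarith
    refine (sum_le_sum fun i _ => h7 i).trans ?_
    rw [sum_add_distrib, sum_const, card_univ, nsmul_eq_mul]
    apply le_of_eq
    ring
  refine (sum_le_sum h6).trans ?_
  rw [sum_add_distrib, ← mul_sum]
  have h7 := hsq (PS z y)
  have h8 : ∑ p ∈ PS z y, ∑ i, h i p / (p : ℝ) = ∑ j, Sp (h j) z y := by
    rw [sum_comm]
    rfl
  have h9 : (0 : ℝ) ≤ Fintype.card J * (B * (2 * c)) := by positivity
  have h10 := mul_le_mul_of_nonneg_left h7 h9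
  rw [h8]
  linarith

end Pool.Agent.R421.UR
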