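import Mathlib
import Pool.Agent.R421.UR.Mg

/-!
# Project UR: the local conditions, restricted to sets of types
-/

set_option autoImplicit false
set_option linter.all false

namespace Pool.Agent.R421.UR

open Finset Polynomial Pool.Agent.W262.RK Pool.Agent.TH841.PT Pool.Agent.W762.RK2

open Pool.Agent.TH841.PT.ExpT (IlT LT_neg bitc kmc loc_idT)

variable {J : Type} [Fintype J] [DecidableEq J] {z y : ℕ}

open Classical in
/-- the number of the pairs with the local conditions and a condition for the set of the types -/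
noncomputable def NLc (m : ℕ) (L : ℕ → Bool → Bool → Bool → Bool → Prop)
    (cd : Finset (Bool × Bool) → Prop) : ℕ :=
  ((m.divisors ×ˢ m.divisors).filter (fun d : ℕ × ℕ => (∀ p ∈ m.primeFactors,
    L p (dv p d.1) (dv p d.2) (sgn p d.1) (sgn p d.2)) ∧ cd (vs d m))).card

/-- the average over the signs -/
noncomputable def NBc (cls : J → Fin 4) (e : J → Fin 3 → Bool) (cd : Finset (Bool × Bool) → Prop)
    (s : J → ℕ) : ℝ :=
  (1 / 2) ^ (P3 cls s).card *
    ∑ E ∈ (P3 cls s).powerset, (NLc (∏ j, s j) (LTs cls e s E) cd : ℝ)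

open Classical in
/-- the indicator of a condition -/
noncomputable def gi (cd : Finset (Bool × Bool) → Prop) (S : Finset (Bool × Bool)) : ℝ :=
  if cd S then 1 else 0

lemma NBc_eq (cls : J → Fin 4) (e : J → Fin 3 → Bool) (cd : Finset (Bool × Bool) → Prop)
    {s : J → ℕ} (hs : s ∈ Tup J z y) :
    NBc cls e cd s = ∑ d ∈ (∏ j, s j).divisors ×ˢ (∏ j, s j).divisors,
      (∏ p ∈ (∏ j, s j).primeFactors, (IlT cls e s d true p + IlT cls e s d false p) / 2) *
        gi cd (vs d (∏ j, s j)) := by
  classical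
  have hne : ∏ j, s j ≠ 0 := Finset.prod_ne_zero_iff.2 fun j _ => Tup_ne hs j
  have h1 : ∀ E : Finset ℕ, (NLc (∏ j, s j) (LTs cls e s E) cd : ℝ) =
      ∑ d ∈ (∏ j, s j).divisors ×ˢ (∏ j, s j).divisors,
        (∏ p ∈ (∏ j, s j).primeFactors, IlT cls e s d (decide (p ∈ E)) p) *
          gi cd (vs d (∏ j, s j)) := by
    intro E
    unfold NLc
    rw [Finset.card_filter]
    push_cast
    refine Finset.sum_congr rfl fun d _ => ?_
    unfold IlT gi
    rw [prod_ind]
    unfold ind LTs
    by_cases hc : cd (vs d (∏ j, s j))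
    · simp only [hc, and_true, if_true, mul_one]
      congr
    · simp [hc]
  unfold NBc
  rw [Finset.sum_congr rfl fun E _ => h1 E, Finset.sum_comm, Finset.mul_sum]
  refine Finset.sum_congr rfl fun d _ => ?_
  rw [← Finset.sum_mul, ← mul_assoc]
  congr 1
  refine avg (P3 cls s) (∏ j, s j).primeFactors ?_ (IlT cls e s d) ?_
  · unfold P3
    refine Nat.primeFactors_mono ?_ hne
    exact Finset.prod_dvd_prod_of_subset _ _ _ (Finset.filter_subset _ _)
  · intro p hp hpA
    unfold IlT
    congr 1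
    refine propext (forall_congr' fun j => ?_)
    refine forall_congr' fun hj => ?_
    rw [LT_neg]
    intro hc
    apply hpA
    unfold P3
    refine Nat.mem_primeFactors.2 ⟨Nat.prime_of_mem_primeFactors hp, ?_, ?_⟩
    · exact hj.trans (Finset.dvd_prod_of_mem _ (Finset.mem_filter.2 ⟨Finset.mem_univ _, hc⟩))
    · exact Finset.prod_ne_zero_iff.2 fun j _ => Tup_ne hs j

/-- the averaged local indicator -/
noncomputable def avLT (c : Fin 4) (e : Fin 3 → Bool) (v : Bool × Bool) (h g : Bool) (p : ℕ) : ℝ :=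
  (ind (LT c e (sg0 p (-1)) true v.1 v.2 h g) + ind (LT c e (sg0 p (-1)) false v.1 v.2 h g)) / 2

lemma NBc_gp (cls : J → Fin 4) (e : J → Fin 3 → Bool) (cd : Finset (Bool × Bool) → Prop)
    (g : J → ℕ → ℝ) (c : ℕ) (Φ : J → Bool × Bool → Bool → Bool → ℕ → ℝ)
    {s : J → ℕ} (hs : s ∈ Tup J z y)
    (hΦ : ∀ d ∈ (∏ j, s j).divisors ×ˢ (∏ j, s j).divisors, cd (vs d (∏ j, s j)) →
      ∀ p ∈ (∏ j, s j).primeFactors, ∀ j, Φ j (dv p d.1, dv p d.2) (sgn p d.1) (sgn p d.2) p =
        avLT (cls j) (e j) (dv p d.1, dv p d.2) (sgn p d.1) (sgn p d.2) p * g j p) :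
    NBc cls e cd s * ∏ j, gp (g j) c (s j) =
      ∑ d ∈ (∏ j, s j).divisors ×ˢ (∏ j, s j).divisors,
        (∏ p ∈ (∏ j, s j).primeFactors, Ψ Φ c s d p) * gi cd (vs d (∏ j, s j)) := by
  classical
  rw [NBc_eq cls e cd hs, sum_mul]
  refine sum_congr rfl fun d hd => ?_
  unfold gi
  by_cases hc : cd (vs d (∏ j, s j))
  · rw [if_pos hc, mul_one, mul_one, prod_gp_pf g c hs, ← prod_mul_distrib]
    refine prod_congr rfl fun p hp => ?_
    obtain ⟨j, hj, hu⟩ := exists_uniq hs hp
    unfold Ψ
    rw [Finset.prod_eq_single j (fun i _ hi => by rw [if_neg fun h => hi (hu i h)])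
      (fun h => absurd (mem_univ _) h),
      Finset.prod_eq_single j (fun i _ hi => by rw [if_neg fun h => hi (hu i h)])
      (fun h => absurd (mem_univ _) h), if_pos hj, if_pos hj, hΦ d hd hc p hp j]
    have h1 : ∀ neg, IlT cls e s d neg p = ind (LT (cls j) (e j) (sg0 p (-1)) neg (dv p d.1)
        (dv p d.2) (sgn p d.1) (sgn p d.2)) := by
      intro neg
      unfold IlT
      congr 1
      apply propext
      constructor
      · intro h
        exact h j hj
      · intro h i hi
        rw [hu i hi]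
        exact h
    rw [h1, h1]
    unfold avLT
    ring
  · rw [if_neg hc]
    ring

/-- the coefficients -/
noncomputable def A0 (cls : J → Fin 4) (e : J → Fin 3 → Bool) (g : J → ℕ → ℝ) (i : I4 cls)
    (p : ℕ) : ℝ :=
  w4 cls i * ((if bit4 cls e i = true then -1 else 1) * Jr (κm cls i) p) * g i.1.1 p

lemma avLT_eq (cls : J → Fin 4) (e : J → Fin 3 → Bool) (g : J → ℕ → ℝ) (j : J) (v : Bool × Bool)
    (h k : Bool) {p : ℕ} (hp : p.Prime) :
    avLT (cls j) (e j) v h k p * g j p = ∑ x : Bool × Bool, if hx : Al (cls j) v x = true then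
      A0 cls e g ⟨(j, v, x), hx⟩ p * chx x h k else 0 := by
  unfold avLT
  rw [loc_idT (cls j) (e j) hp v, sum_mul]
  refine sum_congr rfl fun x _ => ?_
  by_cases hx : Al (cls j) v x = true
  · rw [if_pos hx, dif_pos hx]
    unfold A0 chx
    have e1 : w4 cls (⟨(j, v, x), hx⟩ : I4 cls) = wc (cls j) := rfl
    have e2 : bit4 cls e (⟨(j, v, x), hx⟩ : I4 cls) = bitc (cls j) (e j) v x := rfl
    have e3 : κm cls (⟨(j, v, x), hx⟩ : I4 cls) = kmc (cls j) v x := rfl
    rw [e1, e2, e3]
    ring
  · rw [if_neg hx, dif_neg hx, zero_mul]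

/-- the first local identity -/
lemma locC (cls : J → Fin 4) (e : J → Fin 3 → Bool) (g : J → ℕ → ℝ) :
    LocId cls (fun j v h k p => avLT (cls j) (e j) v h k p * g j p) (A0 cls e g) := by
  intro j v h k p hp
  exact avLT_eq cls e g j v h k hp

/-- the coefficients for the line of the class `k` -/
noncomputable def A1 (cls : J → Fin 4) (e : J → Fin 3 → Bool) (k : Fin 4) (g : J → ℕ → ℝ)
    (i : I4 cls) (p : ℕ) : ℝ :=
  if cls i.1.1 = k then
    (if i.1.2.2 = (false, false) ∧ (i.1.2.1 = (false, false) ∨ e i.1.1 0 = false) then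
      g i.1.1 p else 0)
  else A0 cls e g i p

/-- the local factors for the line of the class `k` -/
noncomputable def Φ1 (cls : J → Fin 4) (e : J → Fin 3 → Bool) (k : Fin 4) (g : J → ℕ → ℝ)
    (j : J) (v : Bool × Bool) (h h' : Bool) (p : ℕ) : ℝ :=
  if cls j = k then
    (if v = (false, false) ∨ (v = ec k ∧ e j 0 = false) then g j p else 0)
  else avLT (cls j) (e j) v h h' p * g j p

/-- the second local identity -/
lemma locB (cls : J → Fin 4) (e : J → Fin 3 → Bool) (k : Fin 4) (hk : k ≠ 3) (g : J → ℕ → ℝ) :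
    LocId cls (Φ1 cls e k g) (A1 cls e k g) := by
  intro j v h h' p hp
  unfold Φ1
  by_cases hj : cls j = k
  · rw [if_pos hj]
    rw [Finset.sum_eq_single (false, false)]
    · have h1 : Al (cls j) v (false, false) = true ↔ (v = (false, false) ∨ v = ec k) := by
        rw [hj]
        unfold Al
        rw [if_neg hk]
        simp
      by_cases hv : v = (false, false) ∨ v = ec k
      · rw [dif_pos (h1.2 hv)]
        unfold A1 chx
        simp only [hj, if_true, true_and]
        by_cases h0 : v = (false, false)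
        · simp [h0]
        · have h2 : v = ec k := hv.resolve_left h0
          simp [h0, h2]
      · rw [dif_neg (fun h => hv (h1.1 h)), if_neg]
        rintro (h0 | h0)
        · exact hv (Or.inl h0)
        · exact hv (Or.inr h0.1)
    · intro x _ hx
      by_cases hA : Al (cls j) v x = true
      · rw [dif_pos hA]
        unfold A1
        rw [if_pos hj, if_neg (fun h0 => hx h0.1), zero_mul]
      · rw [dif_neg hA]
    · intro h
      exact absurd (mem_univ _) h
  · rw [if_neg hj, avLT_eq cls e g j v h h' hp]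
    refine sum_congr rfl fun x _ => ?_
    by_cases hA : Al (cls j) v x = true
    · rw [dif_pos hA, dif_pos hA]
      unfold A1
      rw [if_neg hj]
    · rw [dif_neg hA, dif_neg hA]

/-- the line of the class `k` -/
def Ln (k : Fin 4) (S : Finset (Bool × Bool)) : Prop :=
  (∀ v ∈ S, v = (false, false) ∨ v = ec k) ∧ ∃ v ∈ S, v ≠ (false, false)

/-- outside of the lines -/
def Nl (S : Finset (Bool × Bool)) : Prop :=
  ∀ k : Fin 4, k ≠ 3 → ∃ v ∈ S, v ≠ (false, false) ∧ v ≠ ec k

/-- the divisors are determined by the types -/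
lemma line_div {m : ℕ} (hm : Squarefree m) {d : ℕ × ℕ} (hd : d ∈ m.divisors ×ˢ m.divisors)
    {k : Fin 4} (hk : k ≠ 3) (h : ∀ v ∈ vs d m, v = (false, false) ∨ v = ec k) :
    (k = 0 → d.1 = d.2) ∧ (k = 1 → d.2 = 1) ∧ (k = 2 → d.1 = 1) := by
  obtain ⟨h1, h2⟩ := mem_product.1 hd
  have h1' := Nat.dvd_of_mem_divisors h1
  have h2' := Nat.dvd_of_mem_divisors h2
  have s1 := hm.squarefree_of_dvd h1'
  have s2 := hm.squarefree_of_dvd h2'
  have hv : ∀ p, p.Prime → p ∣ m → (dv p d.1, dv p d.2) = (false, false) ∨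
      (dv p d.1, dv p d.2) = ec k := by
    intro p hp hpm
    apply h
    unfold vs
    exact mem_image_of_mem _ (Nat.mem_primeFactors.2 ⟨hp, hpm, hm.ne_zero⟩)
  have hdv : ∀ (p n : ℕ), dv p (n : ℤ) = true ↔ p ∣ n := by
    intro p n
    unfold dv
    rw [decide_eq_true_iff, Int.natCast_dvd_natCast]
  refine ⟨?_, ?_, ?_⟩
  · rintro rfl
    rw [← Nat.prod_primeFactors_of_squarefree s1, ← Nat.prod_primeFactors_of_squarefree s2]
    congr 1
    ext p
    rw [Nat.mem_primeFactors, Nat.mem_primeFactors]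
    constructor
    · rintro ⟨a, b, _⟩
      refine ⟨a, ?_, s2.ne_zero⟩
      have := hv p a (b.trans h1')
      have hb := (hdv p d.1).2 b
      rw [hb] at this
      rw [← hdv]
      simpa [ec] using this
    · rintro ⟨a, b, _⟩
      refine ⟨a, ?_, s1.ne_zero⟩
      have := hv p a (b.trans h2')
      have hb := (hdv p d.2).2 b
      rw [hb] at this
      rw [← hdv]
      simpa [ec] using this
  · rintro rfl
    by_contra hne
    obtain ⟨p, hp, hpd⟩ := Nat.exists_prime_and_dvd hne
    have := hv p hp (hpd.trans h2')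
    have hb := (hdv p d.2).2 hpd
    rw [hb] at this
    simp [ec] at this
  · rintro rfl
    by_contra hne
    obtain ⟨p, hp, hpd⟩ := Nat.exists_prime_and_dvd hne
    have := hv p hp (hpd.trans h1')
    have hb := (hdv p d.1).2 hpd
    rw [hb] at this
    simp [ec] at this

lemma sgn_one' (p : ℕ) : sgn p (1 : ℤ) = false := by
  unfold sgn sg0
  simp

/-- on the line the local factors are simple -/
lemma PhiLn (cls : J → Fin 4) (e : J → Fin 3 → Bool) (k : Fin 4) (hk : k ≠ 3) (g : J → ℕ → ℝ)
    {s : J → ℕ} (hs : s ∈ Tup J z y) :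
    ∀ d ∈ (∏ j, s j).divisors ×ˢ (∏ j, s j).divisors, Ln k (vs d (∏ j, s j)) →
      ∀ p ∈ (∏ j, s j).primeFactors, ∀ j,
        Φ1 cls e k g j (dv p d.1, dv p d.2) (sgn p d.1) (sgn p d.2) p =
        avLT (cls j) (e j) (dv p d.1, dv p d.2) (sgn p d.1) (sgn p d.2) p * g j p := by
  intro d hd hc p hp j
  have hm : Squarefree (∏ j, s j) := by
    refine Finset.squarefree_prod_of_pairwise_isCoprime ?_ ?_
    · intro i _ j _ hij
      exact Nat.coprime_iff_isRelPrime.1 ((Pool.Agent.W405.RK2.mem_Tup.1 hs).2 i j hij)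
    · intro i _
      exact (Pool.Agent.W262.RK.PP_squarefree z y).squarefree_of_dvd
        ((Pool.Agent.W405.RK2.mem_Tup.1 hs).1 i)
  obtain ⟨k0, k1, k2⟩ := line_div hm hd hk hc.1
  have hv : (dv p d.1, dv p d.2) = (false, false) ∨ (dv p d.1, dv p d.2) = ec k := by
    apply hc.1
    unfold vs
    exact mem_image_of_mem _ hp
  unfold Φ1
  by_cases hj : cls j = k
  · rw [if_pos hj, hj]
    unfold avLT Pool.Agent.TH841.PT.LT
    have hk4 : k = 0 ∨ k = 1 ∨ k = 2 := by
      fin_cases k
      · left; rfl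
      · right; left; rfl
      · right; right; rfl
      · exact absurd rfl hk
    rcases hk4 with rfl | rfl | rfl
    · have h1 := k0 rfl
      rw [h1] at hv ⊢
      simp only [ec, if_true] at hv ⊢
      rcases hv with hv | hv
      · rw [Prod.ext_iff] at hv
        simp at hv
        simp [hv, ind]
      · rw [Prod.ext_iff] at hv
        simp at hv
        simp [hv, ind]
        try (cases e j 0 <;> simp)
    · have h1 := k1 rfl
      rw [h1] at hv ⊢
      simp only [ec] at hv ⊢
      have h2 : sgn p ((1 : ℕ) : ℤ) = false := sgn_one' p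
      rw [h2]
      rcases hv with hv | hv
      · rw [Prod.ext_iff] at hv
        simp at hv
        simp [hv.1, hv.2, ind]
      · rw [Prod.ext_iff] at hv
        simp at hv
        simp [hv.1, hv.2, ind]
        try (cases e j 0 <;> simp)
    · have h1 := k2 rfl
      rw [h1] at hv ⊢
      simp only [ec] at hv ⊢
      have h2 : sgn p ((1 : ℕ) : ℤ) = false := sgn_one' p
      rw [h2]
      rcases hv with hv | hv
      · rw [Prod.ext_iff] at hv
        simp at hv
        simp [hv.1, hv.2, ind]
      · rw [Prod.ext_iff] at hv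
        simp at hv
        simp [hv.1, hv.2, ind]
        try (cases e j 0 <;> simp)
  · rw [if_neg hj]

end Pool.Agent.R421.UR
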