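import Mathlib
import Pool.Agent.R421.UR.Lcl

/-!
# Project UR: the sums over the tuples
-/

set_option autoImplicit false
set_option linter.all false

namespace Pool.Agent.R421.UR

open Finset Polynomial Pool.Agent.W262.RK Pool.Agent.TH841.PT Pool.Agent.W762.RK2

variable {J : Type} [Fintype J] [DecidableEq J] {z y : ℕ}

/-- the coefficients of the merged expansion -/
noncomputable def acf (cls : J → Fin 4) (g : J × Ty → ℕ → ℝ) (i : I4 cls) (p : ℕ) : ℝ :=
  Jr (κm cls i) p * ∑ θ : Ty, w4 cls i * ((if bit4 cls (fun _ => θ) i then -1 else 1) *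
    g (i.1.1, θ) p)

/-- the sum of the weights over the types -/
noncomputable def rs (g : J × Ty → ℕ → ℝ) (j : J) (p : ℕ) : ℝ := ∑ θ : Ty, g (j, θ) p

/-- the sum of the weights of the split primes -/
noncomputable def rsp (g : J × Ty → ℕ → ℝ) (j : J) (p : ℕ) : ℝ :=
  ∑ θ : Ty, if θ 0 = false then g (j, θ) p else 0

/-- the hypotheses of the model -/
structure Mdl (cls : J → Fin 4) (g : J × Ty → ℕ → ℝ) (d σ : J → ℝ) (c z : ℕ) (C0 E0 : ℝ) :
    Prop where
  g0 : ∀ i p, 0 ≤ g i p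
  gc : ∀ j p, rs g j p ≤ c
  c1 : 1 ≤ c
  hz : 2 * c + 2 + Fintype.card (I4 cls) * (8 * c) ≤ z
  hE : 0 ≤ E0
  hC : 0 ≤ C0
  lo : ∀ j y, z < y → d j * Real.log (Real.log y) - C0 ≤ Sp (rs g j) z y
  up : ∀ j y, z < y → Sp (rs g j) z y ≤ d j * Real.log (Real.log y) + C0
  spl : ∀ j y, cls j ≠ 3 → z < y → Sp (rsp g j) z y ≤ σ j * Real.log (Real.log y) + C0
  H2 : ∀ (i : I4 cls) (y r : ℕ) (e : Bool), z < y → 1 < r → Squarefree r →
    (∀ p : ℕ, p.Prime → p ∣ r → z < p) →
    ∑ p ∈ PS z y, acf cls g i p * (Jr p r * x4 e p) / (p : ℝ) ≤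
      E0 * Real.log (Real.log r) + C0

variable {cls : J → Fin 4} {g : J × Ty → ℕ → ℝ} {d σ : J → ℝ} {c : ℕ} {C0 E0 : ℝ}

lemma Mdl.rs0 (h : Mdl cls g d σ c z C0 E0) (j : J) (p : ℕ) : 0 ≤ rs g j p :=
  sum_nonneg fun _ _ => h.g0 _ _

lemma Mdl.T0 (h : Mdl cls g d σ c z C0 E0) {y : ℕ} (hy : z < y) :
    0 ≤ Real.log (Real.log y) := by
  apply Pool.Agent.TH841.TR.ATXRf.loglog_nonneg
  have := h.hz
  have := h.c1
  omega

lemma Mdl.J0 (h : Mdl cls g d σ c z C0 E0) {y : ℕ} (hy : z < y) :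
    Wt d * Real.log (Real.log y) - Fintype.card J * C0 ≤ ∑ j, Sp (rs g j) z y := by
  have h1 : ∑ j, (d j * Real.log (Real.log y) - C0) ≤ ∑ j, Sp (rs g j) z y :=
    sum_le_sum fun j _ => h.lo j y hy
  rw [sum_sub_distrib, ← sum_mul, sum_const, nsmul_eq_mul, card_univ] at h1
  exact h1

lemma Sp_sum {ι : Type} (s : Finset ι) (f : ι → ℕ → ℝ) (z y : ℕ) :
    Sp (fun p => ∑ i ∈ s, f i p) z y = ∑ i ∈ s, Sp (f i) z y := by
  unfold Sp
  rw [sum_comm]
  exact sum_congr rfl fun p _ => by rw [sum_div]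

lemma Sp_smul (r : ℝ) (f : ℕ → ℝ) (z y : ℕ) : Sp (fun p => r * f p) z y = r * Sp f z y := by
  unfold Sp
  rw [mul_sum]
  exact sum_congr rfl fun p _ => by ring

lemma Sp_mono {f g : ℕ → ℝ} (h : ∀ p, f p ≤ g p) (z y : ℕ) : Sp f z y ≤ Sp g z y := by
  unfold Sp
  exact sum_le_sum fun p _ => div_le_div_of_nonneg_right (h p) (Nat.cast_nonneg p)

/-- the merged coefficients are the `acf` -/
lemma merge_A0 (cls : J → Fin 4) (g : J × Ty → ℕ → ℝ) (i : I4 cls) (p : ℕ) :
    ∑ θ : Ty, A0 (clsI cls) eI g ((e4 cls).symm (i, θ)) p = acf cls g i p := by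
  unfold acf
  rw [mul_sum]
  refine sum_congr rfl fun θ _ => ?_
  unfold A0
  have e1 : w4 (clsI cls) ((e4 cls).symm (i, θ)) = w4 cls i := rfl
  have e2 : bit4 (clsI cls) eI ((e4 cls).symm (i, θ)) = bit4 cls (fun _ => θ) i := rfl
  have e3 : κm (clsI cls) ((e4 cls).symm (i, θ)) = κm cls i := rfl
  have e4 : ((e4 cls).symm (i, θ)).1.1 = (i.1.1, θ) := rfl
  rw [e1, e2, e3, e4]
  ring

lemma Jr_abs_le (a : ℤ) (p : ℕ) : |Jr a p| ≤ 1 := by
  unfold Jr
  rcases jacobiSym.trichotomy a p with h | h | h <;> rw [h] <;> norm_num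

lemma acf_abs (h : Mdl cls g d σ c z C0 E0) (i : I4 cls) (p : ℕ) :
    |acf cls g i p| ≤ w4 cls i * rs g i.1.1 p := by
  have hw : 0 ≤ w4 cls i := by
    have := w4_ge' i
    linarith
  unfold acf
  rw [abs_mul]
  have h1 : |∑ θ : Ty, w4 cls i * ((if bit4 cls (fun _ => θ) i then -1 else 1) *
      g (i.1.1, θ) p)| ≤ w4 cls i * rs g i.1.1 p := by
    unfold rs
    rw [mul_sum]
    refine (abs_sum_le_sum_abs _ _).trans (sum_le_sum fun θ _ => ?_)
    rw [abs_mul, abs_mul, abs_of_nonneg hw, abs_of_nonneg (h.g0 _ _)]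
    apply mul_le_mul_of_nonneg_left _ hw
    have h2 := h.g0 (i.1.1, θ) p
    split_ifs <;> simp
  calc |Jr (κm cls i) p| * _ ≤ 1 * _ := mul_le_mul_of_nonneg_right (Jr_abs_le _ _) (abs_nonneg _)
    _ ≤ _ := by rw [one_mul]; exact h1

lemma w4_le1 (i : I4 cls) : w4 cls i ≤ 1 / 2 := by unfold w4; split_ifs <;> norm_num

lemma L4_self' (cls : J → Fin 4) (i : I4 cls) : L4 cls i i = false := by
  have h := i.2
  unfold L4
  revert h
  unfold Al ec
  generalize i.1.2.1 = v
  generalize i.1.2.2 = x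
  generalize cls i.1.1 = q
  revert q v x
  decide

lemma PN_iff (F : Finset (I4 cls)) :
    Nl (F.image (fun i : I4 cls => i.1.2.1)) ↔ PN cls {0, 1, 2} F := by
  unfold Nl PN
  constructor
  · intro h k hk
    have hk3 : k ≠ 3 := by
      rintro rfl
      revert hk
      decide
    obtain ⟨v, hv, h1⟩ := h k hk3
    obtain ⟨i, hi, rfl⟩ := mem_image.1 hv
    exact ⟨i, hi, h1⟩
  · intro h k hk
    have hk3 : k ∈ ({0, 1, 2} : Finset (Fin 4)) := by
      revert hk
      revert k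
      decide
    obtain ⟨i, hi, h1⟩ := h k hk3
    exact ⟨_, mem_image_of_mem _ hi, h1⟩

/-- the restricted sum -/
lemma to_filter (cd : Finset (Bool × Bool) → Prop) (a : I4 cls → ℕ → ℝ) (c z y : ℕ)
    (P : Finset (I4 cls) → Prop)
    (hP : ∀ F, cd (F.image (fun i : I4 cls => i.1.2.1)) ↔ P F) :
    ∑ d ∈ Tup (I4 cls) z y, (∏ i, gp (a i) c (d i)) * Sym (L4 cls) (fun _ => 1) d *
      gi cd ((supp d).image (fun i : I4 cls => i.1.2.1)) =
    open Classical in ∑ d ∈ (Tup (I4 cls) z y).filter (fun d => P (supp d)),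
      (∏ i, gp (a i) c (d i)) * Sym (L4 cls) (fun _ => 1) d := by
  classical
  rw [sum_filter]
  refine sum_congr rfl fun d _ => ?_
  unfold gi
  by_cases h : P (supp d)
  · rw [if_pos ((hP _).2 h), if_pos h, mul_one]
  · rw [if_neg (fun h' => h ((hP _).1 h')), if_neg h, mul_zero]

/-- **the sum over the pairs outside of the lines** -/
theorem sumC {δ : ℝ} (h : Mdl cls g d σ c z C0 E0) (hW : HW cls d {0, 1, 2} δ) :
    ∃ C : ℝ, ∀ y, z < y → ∑ s ∈ Tup (J × Ty) z y,
      NBc (clsI cls) eI Nl s * ∏ i, gp (g i) c (s i) ≤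
        C * Real.exp (∑ j, Sp (rs g j) z y) := by
  classical
  have hC := h.hC
  have hc := h.c1
  have hδ := hW.δ0
  set C1 : ℝ := Fintype.card J * C0 + Fintype.card (I4 cls) * C0 with hC1
  have hC10 : 0 ≤ C1 := by positivity
  have hsum : ∀ y, z < y → ∀ F : Finset (I4 cls),
      ∑ i ∈ F, Sp (fun p => w4 cls i * rs g i.1.1 p) z y ≤
      (∑ i ∈ F, w4 cls i * d i.1.1) * Real.log (Real.log y) + Fintype.card (I4 cls) * C0 := by
    intro y hy F
    have h1 : ∀ i ∈ F, Sp (fun p => w4 cls i * rs g i.1.1 p) z y ≤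
        w4 cls i * d i.1.1 * Real.log (Real.log y) + C0 := by
      intro i _
      rw [Sp_smul]
      have h2 := h.up i.1.1 y hy
      have h3 := w4_ge' i
      have h4 := w4_le1 i
      have h5 := mul_le_mul_of_nonneg_left h2 (by linarith : 0 ≤ w4 cls i)
      nlinarith
    refine (sum_le_sum h1).trans ?_
    rw [sum_add_distrib, ← sum_mul, sum_const, nsmul_eq_mul]
    have h2 : (F.card : ℝ) ≤ Fintype.card (I4 cls) := by exact_mod_cast card_le_univ F
    have := mul_le_mul_of_nonneg_right h2 hC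
    linarith
  obtain ⟨C, hC'⟩ := atxpr (R := 8 * c) (by omega) (ι := I4 cls)
    (a := acf cls g) (b := fun i p => w4 cls i * rs g i.1.1 p) (L := L4 cls) (c := c) (z := z)
    (C0 := C0) (E0 := E0) (δ := δ) (M := fun y => ∑ j, Sp (rs g j) z y + C1)
    (P := PN cls {0, 1, 2})
    (by
      intro i p
      have h1 := h.gc i.1.1 p
      have h2 := h.rs0 i.1.1 p
      have h3 := w4_le1 i
      have h4 := w4_ge' i
      push_cast
      nlinarith)
    { ab := acf_abs h
      LL := L4_self' cls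
      hz := by
        have h1 := h.hz
        have : Fintype.card (I4 cls) ≤ Fintype.card (I4 cls) * (8 * c) :=
          Nat.le_mul_of_pos_right _ (by omega)
        omega
      hE := h.hE
      hC := h.hC
      H2 := fun i w _ => h.H2 i }
    h.hz hδ
    (by
      intro y hy
      have h1 : 0 ≤ ∑ j, Sp (rs g j) z y := sum_nonneg fun j _ =>
        Pool.Agent.TH841.PT.Sp_nonneg (h.rs0 j) z y
      linarith)
    { C1 := by
        intro y hy F hF hP
        have h1 := hsum y hy F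
        have h2 := cmb1 hW F hF hP
        have h3 := h.J0 hy
        have h4 := mul_le_mul_of_nonneg_right h2 (h.T0 hy)
        show _ ≤ ∑ j, Sp (rs g j) z y + C1
        linarith
      C2 := by
        intro y hy F W hd hF hW' hP
        have h1 := hsum y hy (F.filter (fun i => ∀ w ∈ W, L4 cls i w = L4 cls w i))
        have h2 := cmb2 hW F W hd hF hW' hP
        have h3 := h.J0 hy
        have h4 := mul_le_mul_of_nonneg_right h2 (h.T0 hy)
        show _ ≤ ∑ j, Sp (rs g j) z y + C1 + C0 - δ * Real.log (Real.log y)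
        linarith
      C3 := by
        intro y hy F hF hP w hw
        have h1 := hsum y hy (F.erase w)
        have h2 := cmb3 hW F hF hP w hw
        have h3 := h.J0 hy
        have h4 := mul_le_mul_of_nonneg_right h2 (h.T0 hy)
        show _ ≤ ∑ j, Sp (rs g j) z y + C1 + C0 - δ * Real.log (Real.log y)
        linarith }
  refine ⟨C * Real.exp C1, fun y hy => ?_⟩
  have h1 : ∑ s ∈ Tup (J × Ty) z y, NBc (clsI cls) eI Nl s * ∏ i, gp (g i) c (s i) =
      ∑ d ∈ (Tup (I4 cls) z y).filter (fun d => PN cls {0, 1, 2} (supp d)),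
        (∏ i, gp (acf cls g i) c (d i)) * Sym (L4 cls) (fun _ => 1) d := by
    rw [← to_filter Nl (acf cls g) c z y (PN cls {0, 1, 2}) PN_iff]
    have h2 := explm (z := z) (y := y) cls (locC (clsI cls) eI g) c (gi Nl)
    simp only [merge_A0] at h2
    rw [← h2]
    refine sum_congr rfl fun s hs => ?_
    exact NBc_gp (clsI cls) eI Nl g c _ hs fun _ _ _ _ _ _ => rfl
  rw [h1]
  refine (le_abs_self _).trans ((hC' y hy).trans ?_)
  beta_reduce
  rw [Real.exp_add]
  apply le_of_eq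
  ring

end Pool.Agent.R421.UR
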