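import Mathlib
import Pool.Agent.R421.UR.Sums

/-!
# Project UR: the sums over the pairs in a line, tilted
-/

set_option autoImplicit false
set_option linter.all false

namespace Pool.Agent.R421.UR

open Finset Polynomial Pool.Agent.W262.RK Pool.Agent.TH841.PT Pool.Agent.W762.RK2

open Pool.Agent.TH841.TR.COMBf (T Lt sing cap PD1 PD2 PD3 PS PU)

variable {J : Type} [Fintype J] [DecidableEq J] {z y : ℕ}

/-- the tilt -/
noncomputable def tl (cls : J → Fin 4) (k : Fin 4) (lam : ℝ) (i : J × Ty) : ℝ :=
  if cls i.1 = 3 then 1 else if cls i.1 = k then (if i.2 0 = false then lam / 2 else lam)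
    else 2 * lam

/-- the tilted weights -/
noncomputable def gt (cls : J → Fin 4) (k : Fin 4) (lam κ : ℝ) (g : J × Ty → ℕ → ℝ) (i : J × Ty)
    (p : ℕ) : ℝ := κ * tl cls k lam i * g i p

/-- the letters outside of the line -/
def PnL (k : Fin 4) (F : Finset (Bool × Bool)) : Prop := Ln k F

variable {cls : J → Fin 4} {g : J × Ty → ℕ → ℝ} {d σ : J → ℝ} {c : ℕ} {C0 E0 lam κ : ℝ}
  {k : Fin 4}

/-- the weights of the merged letters -/
noncomputable def bf (cls : J → Fin 4) (k : Fin 4) (lam κ : ℝ) (g : J × Ty → ℕ → ℝ) (j : J)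
    (t : T) (p : ℕ) : ℝ :=
  if cls j = k then (if t.2 = (false, false) then
    (if t.1 = (false, false) then κ * (lam * rs g j p - lam / 2 * rsp g j p)
      else κ * (lam / 2 * rsp g j p)) else 0)
  else (if cls j = 3 then 1 / 4 * (κ * rs g j p) else 1 / 2 * (κ * (2 * lam) * rs g j p))

/-- the coefficients of the merged letters -/
noncomputable def af (cls : J → Fin 4) (k : Fin 4) (lam κ : ℝ) (g : J × Ty → ℕ → ℝ)
    (i : I4 cls) (p : ℕ) : ℝ :=
  ∑ θ : Ty, A1 (clsI cls) eI k (gt cls k lam κ g) ((e4 cls).symm (i, θ)) p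

lemma sum_bit (f : Ty → ℝ) (a b : ℝ) :
    ∑ θ : Ty, (if θ 0 = false then a else b) * f θ =
      b * ∑ θ : Ty, f θ + (a - b) * ∑ θ : Ty, if θ 0 = false then f θ else 0 := by
  rw [mul_sum, mul_sum, ← sum_add_distrib]
  refine sum_congr rfl fun θ _ => ?_
  split_ifs <;> ring

lemma af_in {i : I4 cls} (hk : k ≠ 3) (hi : cls i.1.1 = k) (hx : i.1.2.2 = (false, false))
    (hv : i.1.2.1 = (false, false)) (p : ℕ) :
    af cls k lam κ g i p = κ * (lam * rs g i.1.1 p - lam / 2 * rsp g i.1.1 p) := by
  unfold af
  have h3 : cls i.1.1 ≠ 3 := by rw [hi]; exact hk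
  have h1 : ∀ θ : Ty, A1 (clsI cls) eI k (gt cls k lam κ g) ((e4 cls).symm (i, θ)) p =
      (if θ 0 = false then κ * (lam / 2) else κ * lam) * g (i.1.1, θ) p := by
    intro θ
    have e1 : clsI cls ((e4 cls).symm (i, θ)).1.1 = cls i.1.1 := rfl
    have e2 : ((e4 cls).symm (i, θ)).1.2.2 = i.1.2.2 := rfl
    have e3 : ((e4 cls).symm (i, θ)).1.2.1 = i.1.2.1 := rfl
    have e4' : ((e4 cls).symm (i, θ)).1.1 = (i.1.1, θ) := rfl
    unfold A1
    rw [e1, if_pos hi, e2, e3, if_pos ⟨hx, Or.inl hv⟩, e4']
    unfold gt tl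
    rw [if_neg h3, if_pos hi]
    split_ifs <;> ring
  rw [sum_congr rfl fun θ _ => h1 θ, sum_bit]
  unfold rs rsp
  ring

lemma af_sp {i : I4 cls} (hk : k ≠ 3) (hi : cls i.1.1 = k) (hx : i.1.2.2 = (false, false))
    (hv : i.1.2.1 ≠ (false, false)) (p : ℕ) :
    af cls k lam κ g i p = κ * (lam / 2 * rsp g i.1.1 p) := by
  unfold af
  have h3 : cls i.1.1 ≠ 3 := by rw [hi]; exact hk
  have h1 : ∀ θ : Ty, A1 (clsI cls) eI k (gt cls k lam κ g) ((e4 cls).symm (i, θ)) p =
      (κ * (lam / 2)) * (if θ 0 = false then g (i.1.1, θ) p else 0) := by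
    intro θ
    have e1 : clsI cls ((e4 cls).symm (i, θ)).1.1 = cls i.1.1 := rfl
    have e2 : ((e4 cls).symm (i, θ)).1.2.2 = i.1.2.2 := rfl
    have e3 : ((e4 cls).symm (i, θ)).1.2.1 = i.1.2.1 := rfl
    have e4' : ((e4 cls).symm (i, θ)).1.1 = (i.1.1, θ) := rfl
    unfold A1
    rw [e1, if_pos hi, e2, e3, e4']
    unfold gt tl eI
    simp only [hx, hv, true_and, false_or]
    rw [if_neg h3, if_pos hi]
    split_ifs <;> ring
  rw [sum_congr rfl fun θ _ => h1 θ, ← mul_sum]
  unfold rsp
  ring

lemma af_z {i : I4 cls} (hi : cls i.1.1 = k) (hx : i.1.2.2 ≠ (false, false)) (p : ℕ) :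
    af cls k lam κ g i p = 0 := by
  unfold af
  refine sum_eq_zero fun θ _ => ?_
  have e1 : clsI cls ((e4 cls).symm (i, θ)).1.1 = cls i.1.1 := rfl
  have e2 : ((e4 cls).symm (i, θ)).1.2.2 = i.1.2.2 := rfl
  unfold A1
  rw [e1, if_pos hi, e2, if_neg]
  exact fun h => hx h.1

lemma af_out {i : I4 cls} (hi : cls i.1.1 ≠ k) (p : ℕ) :
    af cls k lam κ g i p = κ * (if cls i.1.1 = 3 then 1 else 2 * lam) * acf cls g i p := by
  unfold af acf
  rw [mul_sum, mul_sum]
  refine sum_congr rfl fun θ _ => ?_
  have e1 : clsI cls ((e4 cls).symm (i, θ)).1.1 = cls i.1.1 := rfl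
  unfold A1
  rw [e1, if_neg hi]
  unfold A0
  have e1 : w4 (clsI cls) ((e4 cls).symm (i, θ)) = w4 cls i := rfl
  have e2 : bit4 (clsI cls) eI ((e4 cls).symm (i, θ)) = bit4 cls (fun _ => θ) i := rfl
  have e3 : κm (clsI cls) ((e4 cls).symm (i, θ)) = κm cls i := rfl
  have e4' : ((e4 cls).symm (i, θ)).1.1 = (i.1.1, θ) := rfl
  rw [e1, e2, e3, e4']
  unfold gt tl
  simp only [hi, if_false]
  ring

lemma rsp_le (h : Mdl cls g d σ c z C0 E0) (j : J) (p : ℕ) :
    0 ≤ rsp g j p ∧ rsp g j p ≤ rs g j p := by
  unfold rsp rs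
  refine ⟨sum_nonneg fun θ _ => ?_, sum_le_sum fun θ _ => ?_⟩
  · have := h.g0 (j, θ) p
    split_ifs
    · exact this
    · exact le_rfl
  · have := h.g0 (j, θ) p
    split_ifs
    · exact le_rfl
    · exact this

lemma af_abs (h : Mdl cls g d σ c z C0 E0) (hk : k ≠ 3) (hκ : 0 ≤ κ) (hl : 0 ≤ lam)
    (i : I4 cls) (p : ℕ) : |af cls k lam κ g i p| ≤ bf cls k lam κ g i.1.1 i.1.2 p := by
  have h1 := rsp_le h i.1.1 p
  have h0 := h.rs0 i.1.1 p
  unfold bf
  by_cases hi : cls i.1.1 = k
  · rw [if_pos hi]
    by_cases hx : i.1.2.2 = (false, false)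
    · rw [if_pos hx]
      by_cases hv : i.1.2.1 = (false, false)
      · rw [if_pos hv, af_in hk hi hx hv, abs_of_nonneg]
        apply mul_nonneg hκ
        nlinarith [mul_nonneg hl h0, mul_le_mul_of_nonneg_left h1.2 hl]
      · rw [if_neg hv, af_sp hk hi hx hv, abs_of_nonneg]
        have := h1.1
        positivity
    · rw [if_neg hx, af_z hi hx, abs_zero]
  · rw [if_neg hi, af_out hi, abs_mul]
    have h2 := acf_abs h i p
    by_cases h3 : cls i.1.1 = 3
    · rw [if_pos h3, if_pos h3, mul_one, abs_of_nonneg hκ]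
      have hw : w4 cls i = 1 / 4 := by unfold w4; rw [if_pos h3]
      rw [hw] at h2
      have := mul_le_mul_of_nonneg_left h2 hκ
      linarith
    · rw [if_neg h3, if_neg h3, abs_of_nonneg (by positivity)]
      have hw : w4 cls i = 1 / 2 := by unfold w4; rw [if_neg h3]
      rw [hw] at h2
      have h5 : 0 ≤ κ * (2 * lam) := by positivity
      have := mul_le_mul_of_nonneg_left h2 h5
      linarith

lemma bf_nonneg (h : Mdl cls g d σ c z C0 E0) (hκ : 0 ≤ κ) (hl : 0 ≤ lam) (j : J) (t : T)
    (p : ℕ) : 0 ≤ bf cls k lam κ g j t p := by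
  have h1 := rsp_le h j p
  have h0 := h.rs0 j p
  have h2 := h1.1
  unfold bf
  split_ifs
  · apply mul_nonneg hκ
    nlinarith [mul_nonneg hl h0, mul_le_mul_of_nonneg_left h1.2 hl]
  · positivity
  · exact le_rfl
  · positivity
  · positivity

lemma bf_le (h : Mdl cls g d σ c z C0 E0) (hκ : 0 ≤ κ) (hκ2 : κ ≤ 2) (hl : 0 ≤ lam)
    (hl1 : lam ≤ 1) (j : J) (t : T) (p : ℕ) : bf cls k lam κ g j t p ≤ 4 * c := by
  have h1 := rsp_le h j p
  have h0 := h.rs0 j p
  have h3 := h.gc j p
  have h4 : (0 : ℝ) ≤ c := Nat.cast_nonneg c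
  have h5 : κ * lam ≤ 2 := by nlinarith
  have h6 : 0 ≤ κ * lam := by positivity
  have h7 : κ * lam * rs g j p ≤ 2 * c := mul_le_mul h5 h3 h0 (by norm_num)
  have h8 : κ * lam * rsp g j p ≤ κ * lam * rs g j p := mul_le_mul_of_nonneg_left h1.2 h6
  have h9 : 0 ≤ κ * lam * rsp g j p := mul_nonneg h6 h1.1
  have h10 : κ * rs g j p ≤ 2 * c := mul_le_mul hκ2 h3 h0 (by norm_num)
  unfold bf
  split_ifs
  · nlinarith
  · nlinarith
  · positivity
  · nlinarith
  · nlinarith

lemma ec_ne : ∀ k : Fin 4, ec k ≠ (false, false) := by decide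

/-- the types unlinked with `u` in the line of `k` -/
def PL (k : Fin 4) (u t : T) : Bool :=
  (decide (t.1 = (false, false)) || decide (t.1 = ec k)) && (Lt u t == Lt t u)

lemma PL3 (k : Fin 4) (hk : k ≠ 3) (u : T) (h1 : u.1 = ec k) (h2 : sing u = true) :
    (univ.filter (fun t : T => Al 3 t.1 t.2 = true ∧ PL k u t = true)).card ≤ 4 := by
  have h : ∀ (k : Fin 4) (u : T), k ≠ 3 → u.1 = ec k → sing u = true →
      (univ.filter (fun t : T => Al 3 t.1 t.2 = true ∧ PL k u t = true)).card ≤ 4 := by decide
  exact h k u hk h1 h2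

lemma PLo (c k : Fin 4) (hc : c ≠ 3) (hck : c ≠ k) (hk : k ≠ 3) (u : T) (h1 : u.1 = ec k)
    (h2 : sing u = true) :
    (univ.filter (fun t : T => Al c t.1 t.2 = true ∧ PL k u t = true)).card ≤ 1 := by
  have h : ∀ (c k : Fin 4) (u : T), c ≠ 3 → c ≠ k → k ≠ 3 → u.1 = ec k → sing u = true →
      (univ.filter (fun t : T => Al c t.1 t.2 = true ∧ PL k u t = true)).card ≤ 1 := by decide
  exact h c k u hc hck hk h1 h2

/-- the capacity of a set of unlinked letters in the line -/
lemma capB (h : Mdl cls g d σ c z C0 E0) (hk : k ≠ 3) (hκ : 0 ≤ κ) (hl : 0 ≤ lam)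
    (S : Finset (I4 cls)) (u : I4 cls) (hu : u.1.2.1 = ec k)
    (hS : ∀ t ∈ S, PL k u.1.2 t.1.2 = true) (p : ℕ) :
    ∑ t ∈ S, bf cls k lam κ g t.1.1 t.1.2 p ≤
      ∑ j, κ * (if cls j = 3 then 1 else lam) * rs g j p := by
  have h1 : ∑ t ∈ S, bf cls k lam κ g t.1.1 t.1.2 p =
      ∑ j, ∑ t ∈ S.filter (fun i => i.1.1 = j), bf cls k lam κ g t.1.1 t.1.2 p := by
    rw [Finset.sum_fiberwise]
  rw [h1]
  refine sum_le_sum fun j _ => ?_
  have hsu := Pool.Agent.TH841.TR.COMBf.sing_i u
  -- to the types
  have h2 : ∑ t ∈ S.filter (fun i => i.1.1 = j), bf cls k lam κ g t.1.1 t.1.2 p ≤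
      ∑ t ∈ univ.filter (fun t : T => Al (cls j) t.1 t.2 = true ∧ PL k u.1.2 t = true),
        bf cls k lam κ g j t p := by
    have h3 : ∑ t ∈ S.filter (fun i => i.1.1 = j), bf cls k lam κ g t.1.1 t.1.2 p =
        ∑ t ∈ (S.filter (fun i => i.1.1 = j)).image (fun i : I4 cls => i.1.2),
          bf cls k lam κ g j t p := by
      rw [sum_image]
      · refine sum_congr rfl fun i hi => ?_
        rw [(mem_filter.1 hi).2]
      · intro i hi i' hi' he
        rw [mem_coe, mem_filter] at hi hi'
        apply Subtype.ext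
        exact Prod.ext (hi.2.trans hi'.2.symm) he
    rw [h3]
    refine sum_le_sum_of_subset_of_nonneg ?_ fun t _ _ => bf_nonneg h hκ hl j t p
    intro t ht
    obtain ⟨i, hi, rfl⟩ := mem_image.1 ht
    rw [mem_filter] at hi ⊢
    refine ⟨mem_univ _, ?_, hS i hi.1⟩
    have := i.2
    rw [hi.2] at this
    exact this
  refine h2.trans ?_
  have h0 := h.rs0 j p
  by_cases hj : cls j = k
  · have h3 : cls j ≠ 3 := by rw [hj]; exact hk
    rw [if_neg h3]
    have h4 : ∑ t ∈ univ.filter (fun t : T => Al (cls j) t.1 t.2 = true ∧ PL k u.1.2 t = true),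
        bf cls k lam κ g j t p ≤
        ∑ t ∈ ({((false, false), (false, false)), (ec k, (false, false))} : Finset T),
          bf cls k lam κ g j t p := by
      rw [← sum_filter_add_sum_filter_not _ (fun t : T => t.2 = (false, false))]
      have h5 : ∑ t ∈ (univ.filter (fun t : T => Al (cls j) t.1 t.2 = true ∧
          PL k u.1.2 t = true)).filter (fun t => ¬ t.2 = (false, false)),
          bf cls k lam κ g j t p = 0 := by
        refine sum_eq_zero fun t ht => ?_
        unfold bf
        rw [if_pos hj, if_neg (mem_filter.1 ht).2]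
      rw [h5, add_zero]
      refine sum_le_sum_of_subset_of_nonneg ?_ fun t _ _ => bf_nonneg h hκ hl j t p
      intro t ht
      rw [mem_filter, mem_filter] at ht
      have h6 := ht.1.2.2
      unfold PL at h6
      simp only [Bool.and_eq_true, Bool.or_eq_true, decide_eq_true_eq] at h6
      rw [mem_insert, mem_singleton]
      rcases h6.1 with h7 | h7
      · left
        exact Prod.ext h7 ht.2
      · right
        exact Prod.ext h7 ht.2
    refine h4.trans ?_
    have hne : ec k ≠ (false, false) := ec_ne k
    rw [sum_pair]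
    · unfold bf
      rw [if_pos hj, if_pos hj]
      simp only [if_true, hne, if_false]
      apply le_of_eq
      ring
    · intro h
      exact hne (Prod.ext_iff.1 h).1.symm
  · have h3 : ∀ t : T, bf cls k lam κ g j t p =
        if cls j = 3 then 1 / 4 * (κ * rs g j p) else 1 / 2 * (κ * (2 * lam) * rs g j p) := by
      intro t
      unfold bf
      rw [if_neg hj]
    rw [sum_congr rfl fun t _ => h3 t, sum_const, nsmul_eq_mul]
    by_cases h4 : cls j = 3
    · rw [if_pos h4, if_pos h4, h4]
      have h5 : ((univ.filter (fun t : T => Al 3 t.1 t.2 = true ∧ PL k u.1.2 t = true)).card : ℝ)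
          ≤ 4 := by exact_mod_cast PL3 k hk u.1.2 hu hsu
      have h6 : 0 ≤ 1 / 4 * (κ * rs g j p) := by positivity
      nlinarith [mul_le_mul_of_nonneg_right h5 h6]
    · rw [if_neg h4, if_neg h4]
      have h5 : ((univ.filter (fun t : T => Al (cls j) t.1 t.2 = true ∧
          PL k u.1.2 t = true)).card : ℝ) ≤ 1 := by
        exact_mod_cast PLo (cls j) k h4 hj hk u.1.2 hu hsu
      have h6 : 0 ≤ 1 / 2 * (κ * (2 * lam) * rs g j p) := by positivity
      nlinarith [mul_le_mul_of_nonneg_right h5 h6]

/-- the restricted sets for the line -/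
def PB (cls : J → Fin 4) (k : Fin 4) (F : Finset (I4 cls)) : Prop :=
  (∀ i ∈ F, i.1.2.1 = (false, false) ∨ i.1.2.1 = ec k) ∧ ∃ i ∈ F, i.1.2.1 ≠ (false, false)

lemma PB_iff (F : Finset (I4 cls)) :
    Ln k (F.image (fun i : I4 cls => i.1.2.1)) ↔ PB cls k F := by
  unfold Ln PB
  constructor
  · rintro ⟨h1, v, hv, h2⟩
    obtain ⟨i, hi, rfl⟩ := mem_image.1 hv
    exact ⟨fun i hi => h1 _ (mem_image_of_mem _ hi), i, hi, h2⟩
  · rintro ⟨h1, i, hi, h2⟩
    refine ⟨fun v hv => ?_, _, mem_image_of_mem _ hi, h2⟩
    obtain ⟨i, hi, rfl⟩ := mem_image.1 hv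
    exact h1 i hi

/-- **the tilted sum over the pairs in a line** -/
theorem sumB {δ : ℝ} (h : Mdl cls g d σ c z C0 E0) (hk : k ≠ 3) (hκ : 0 ≤ κ) (hκ2 : κ ≤ 2)
    (hl : 0 ≤ lam) (hl1 : lam ≤ 1) (hδ : 0 < δ)
    (hcap : κ * (lam * Wo cls d + Wc cls d 3) ≤ Wt d - δ) :
    ∃ C : ℝ, ∀ y, z < y → ∑ s ∈ Tup (J × Ty) z y,
      NBc (clsI cls) eI (Ln k) s * ∏ i, gp (gt cls k lam κ g i) c (s i) ≤
        C * Real.exp (∑ j, Sp (rs g j) z y) := by
  classical
  have hC := h.hC
  have hc := h.c1
  have hE := h.hE
  set C1 : ℝ := Fintype.card J * C0 + 2 * (Fintype.card J * C0) with hC1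
  have hC10 : 0 ≤ C1 := by positivity
  -- the sums over unlinked letters
  have hsum : ∀ y, z < y → ∀ (S : Finset (I4 cls)) (u : I4 cls), u.1.2.1 = ec k →
      (∀ t ∈ S, PL k u.1.2 t.1.2 = true) →
      ∑ t ∈ S, Sp (bf cls k lam κ g t.1.1 t.1.2) z y ≤
      (Wt d - δ) * Real.log (Real.log y) + 2 * (Fintype.card J * C0) := by
    intro y hy S u hu hS
    rw [← Sp_sum]
    have h1 := Sp_mono (capB h hk hκ hl S u hu hS) z y
    refine h1.trans ?_
    rw [Sp_sum]
    have h2 : ∀ j, Sp (fun p => κ * (if cls j = 3 then 1 else lam) * rs g j p) z y ≤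
        (if cls j = 3 then κ else κ * lam) * d j * Real.log (Real.log y) + 2 * C0 := by
      intro j
      rw [Sp_smul]
      have h3 := h.up j y hy
      have h4 : 0 ≤ κ * (if cls j = 3 then 1 else lam) := by
        split_ifs <;> positivity
      have h5 := mul_le_mul_of_nonneg_left h3 h4
      have h6 : κ * (if cls j = 3 then 1 else lam) ≤ 2 := by
        split_ifs
        · linarith
        · nlinarith
      have h7 := mul_le_mul_of_nonneg_right h6 hC
      have h8 : (if cls j = 3 then κ else κ * lam) = κ * (if cls j = 3 then 1 else lam) := by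
        split_ifs <;> ring
      rw [h8]
      linarith
    refine (sum_le_sum fun j _ => h2 j).trans ?_
    rw [sum_add_distrib, ← sum_mul, sum_ite_cls, sum_const, nsmul_eq_mul, card_univ]
    have h9 := Wt_eq (cls := cls) (d := d)
    have h10 : κ * Wc cls d 3 + κ * lam * (Wt d - Wc cls d 3) ≤ Wt d - δ := by
      have : Wt d - Wc cls d 3 = Wo cls d := by linarith
      rw [this]
      linarith
    have h11 := mul_le_mul_of_nonneg_right h10 (h.T0 hy)
    linarith
  obtain ⟨C, hC'⟩ := atxpr (R := 8 * c) (by omega) (ι := I4 cls)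
    (a := af cls k lam κ g) (b := fun i p => bf cls k lam κ g i.1.1 i.1.2 p) (L := L4 cls)
    (c := c) (z := z) (C0 := 4 * C0) (E0 := 4 * E0) (δ := δ)
    (M := fun y => ∑ j, Sp (rs g j) z y + C1) (P := PB cls k)
    (by
      intro i p
      have h1 := bf_le (k := k) h hκ hκ2 hl hl1 i.1.1 i.1.2 p
      push_cast
      linarith)
    { ab := af_abs h hk hκ hl
      LL := L4_self' cls
      hz := by
        have h1 := h.hz
        have : Fintype.card (I4 cls) ≤ Fintype.card (I4 cls) * (8 * c) :=
          Nat.le_mul_of_pos_right _ (by omega)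
        omega
      hE := by positivity
      hC := by positivity
      H2 := by
        intro i w hiw y r e hy hr hsq hpr
        have hz2 : 2 ≤ z := by have := h.hz; omega
        have hLr : 0 ≤ Real.log (Real.log r) :=
          Pool.Agent.TH841.PT.loglog_nonneg hz2 hr hpr
        have hE0 : 0 ≤ E0 * Real.log (Real.log r) + C0 := by positivity
        by_cases hi : cls i.1.1 = k
        · by_cases hx : i.1.2.2 = (false, false)
          · by_cases hv : i.1.2.1 = (false, false)
            · exfalso
              apply hiw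
              unfold L4
              rw [hx, hv]
              simp
            · -- the split letters
              have hAl := i.2
              have hve : i.1.2.1 = ec k := by
                rw [hi] at hAl
                unfold Al at hAl
                rw [if_neg hk] at hAl
                simp only [Bool.and_eq_true, Bool.or_eq_true, decide_eq_true_eq] at hAl
                exact hAl.1.resolve_left hv
              have hx' : Al (cls i.1.1) (ec k) (ec k).swap = true := by
                rw [hi]
                unfold Al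
                rw [if_neg hk]
                simp
              have hx0 : Al (cls i.1.1) (ec k) (false, false) = true := by
                rw [hi]
                unfold Al
                rw [if_neg hk]
                simp
              have hne : ec k ≠ (false, false) := by rw [← hve]; exact hv
              have hne' : (ec k).swap ≠ (false, false) := by
                intro h
                apply hne
                have := congrArg Prod.swap h
                simpa using this
              have h3 : cls i.1.1 ≠ 3 := by rw [hi]; exact hk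
              set i1 : I4 cls := ⟨(i.1.1, ec k, (false, false)), hx0⟩ with hi1
              set i2 : I4 cls := ⟨(i.1.1, ec k, (ec k).swap), hx'⟩ with hi2
              have hJ1 : ∀ p : ℕ, Jr 1 p = 1 := by
                intro p
                unfold Jr
                rw [jacobiSym.one_left]
                norm_num
              have e1 : ∀ p, acf cls g i1 p = 1 / 2 * rs g i.1.1 p := by
                intro p
                unfold acf
                have k1 : κm cls i1 = 1 := by
                  unfold κm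
                  simp [hi1]
                have k2 : w4 cls i1 = 1 / 2 := by
                  unfold w4
                  rw [hi1]
                  simp [h3]
                have k3 : ∀ θ : Ty, bit4 cls (fun _ => θ) i1 = false := by
                  intro θ
                  unfold bit4
                  simp [hi1]
                simp only [k1, hJ1, k2, k3]
                unfold rs
                rw [one_mul, mul_sum]
                refine sum_congr rfl fun θ _ => ?_
                simp [hi1]
              have e2 : ∀ p, acf cls g i2 p = rsp g i.1.1 p - 1 / 2 * rs g i.1.1 p := by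
                intro p
                unfold acf
                have k1 : κm cls i2 = 1 := by
                  unfold κm
                  simp [hi2, hne, hne', h3]
                have k2 : w4 cls i2 = 1 / 2 := by
                  unfold w4
                  rw [hi2]
                  simp [h3]
                have k3 : ∀ θ : Ty, bit4 cls (fun _ => θ) i2 = θ 0 := by
                  intro θ
                  unfold bit4
                  simp [hi2, hne, hne', h3]
                simp only [k1, hJ1, k2, k3]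
                unfold rs rsp
                rw [one_mul, mul_sum, ← sum_sub_distrib]
                refine sum_congr rfl fun θ _ => ?_
                cases h : θ 0 <;> simp [hi2]
                ring
              have hA : ∑ p ∈ PS z y, af cls k lam κ g i p * (Jr p r * x4 e p) / (p : ℝ) =
                  κ * (lam / 2) * (∑ p ∈ PS z y, acf cls g i1 p * (Jr p r * x4 e p) / (p : ℝ) +
                    ∑ p ∈ PS z y, acf cls g i2 p * (Jr p r * x4 e p) / (p : ℝ)) := by
                rw [← sum_add_distrib, mul_sum]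
                refine sum_congr rfl fun p _ => ?_
                rw [af_sp hk hi hx hv, e1, e2]
                ring
              rw [hA]
              have b1 := h.H2 i1 y r e hy hr hsq hpr
              have b2 := h.H2 i2 y r e hy hr hsq hpr
              have b3 : 0 ≤ κ * (lam / 2) := by positivity
              have b4 : κ * (lam / 2) ≤ 1 := by nlinarith
              have b5 := mul_le_mul_of_nonneg_left (add_le_add b1 b2) b3
              have b6 := mul_le_mul_of_nonneg_right b4
                (by linarith : 0 ≤ E0 * Real.log (Real.log r) + C0 +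
                  (E0 * Real.log (Real.log r) + C0))
              linarith
          · have hA : ∑ p ∈ PS z y, af cls k lam κ g i p * (Jr p r * x4 e p) / (p : ℝ) = 0 := by
              refine sum_eq_zero fun p _ => ?_
              rw [af_z hi hx]
              ring
            rw [hA]
            linarith
        · set τ : ℝ := (if cls i.1.1 = 3 then 1 else 2 * lam) with hτ
          have hτ0 : 0 ≤ τ := by rw [hτ]; split_ifs <;> positivity
          have hτ2 : τ ≤ 2 := by rw [hτ]; split_ifs <;> linarith
          have hA : ∑ p ∈ PS z y, af cls k lam κ g i p * (Jr p r * x4 e p) / (p : ℝ) =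
              κ * τ * ∑ p ∈ PS z y, acf cls g i p * (Jr p r * x4 e p) / (p : ℝ) := by
            rw [mul_sum]
            refine sum_congr rfl fun p _ => ?_
            rw [af_out hi]
            ring
          rw [hA]
          have b1 := h.H2 i y r e hy hr hsq hpr
          have b3 : 0 ≤ κ * τ := by positivity
          have b4 : κ * τ ≤ 4 := by nlinarith
          have b5 := mul_le_mul_of_nonneg_left b1 b3
          have b6 := mul_le_mul_of_nonneg_right b4 hE0
          linarith }
    h.hz hδ
    (by
      intro y hy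
      have h1 : 0 ≤ ∑ j, Sp (rs g j) z y := sum_nonneg fun j _ =>
        Pool.Agent.TH841.PT.Sp_nonneg (h.rs0 j) z y
      linarith)
    { C1 := by
        intro y hy F hF hP
        obtain ⟨hP1, u, hu, hu2⟩ := hP
        have hue : u.1.2.1 = ec k := (hP1 u hu).resolve_left hu2
        have h1 := hsum y hy F u hue (by
          intro t ht
          unfold PL
          have a1 := hP1 t ht
          have a2 : Lt u.1.2 t.1.2 = Lt t.1.2 u.1.2 := hF u hu t ht
          simp only [Bool.and_eq_true, Bool.or_eq_true, decide_eq_true_eq, beq_iff_eq]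
          exact ⟨a1, a2⟩)
        have h3 := h.J0 hy
        have h4 := mul_nonneg hδ.le (h.T0 hy)
        show _ ≤ ∑ j, Sp (rs g j) z y + C1
        linarith
      C2 := by
        intro y hy F W hd hF hW' hP
        obtain ⟨hP1, u, hu, hu2⟩ := hP
        have hue : u.1.2.1 = ec k := (hP1 u hu).resolve_left hu2
        have h1 := hsum y hy (F.filter (fun i => ∀ w ∈ W, L4 cls i w = L4 cls w i)) u hue (by
          intro t ht
          rw [mem_filter] at ht
          unfold PL
          have a1 := hP1 t (mem_union_left _ ht.1)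
          have a2 : Lt u.1.2 t.1.2 = Lt t.1.2 u.1.2 := by
            rcases mem_union.1 hu with h2 | h2
            · exact hF u h2 t ht.1
            · exact (ht.2 u h2).symm
          simp only [Bool.and_eq_true, Bool.or_eq_true, decide_eq_true_eq, beq_iff_eq]
          exact ⟨a1, a2⟩)
        have h3 := h.J0 hy
        have h4 := mul_nonneg hδ.le (h.T0 hy)
        show _ ≤ ∑ j, Sp (rs g j) z y + C1 + 4 * C0 - δ * Real.log (Real.log y)
        linarith
      C3 := by
        intro y hy F hF hP w hw
        obtain ⟨hP1, u, hu, hu2⟩ := hP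
        have hue : u.1.2.1 = ec k := (hP1 u hu).resolve_left hu2
        have h1 := hsum y hy (F.erase w) u hue (by
          intro t ht
          have ht' := mem_of_mem_erase ht
          unfold PL
          have a1 := hP1 t ht'
          have a2 : Lt u.1.2 t.1.2 = Lt t.1.2 u.1.2 := hF u hu t ht'
          simp only [Bool.and_eq_true, Bool.or_eq_true, decide_eq_true_eq, beq_iff_eq]
          exact ⟨a1, a2⟩)
        have h3 := h.J0 hy
        show _ ≤ ∑ j, Sp (rs g j) z y + C1 + 4 * C0 - δ * Real.log (Real.log y)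
        linarith }
  refine ⟨C * Real.exp C1, fun y hy => ?_⟩
  have h1 : ∑ s ∈ Tup (J × Ty) z y, NBc (clsI cls) eI (Ln k) s *
        ∏ i, gp (gt cls k lam κ g i) c (s i) =
      ∑ d ∈ (Tup (I4 cls) z y).filter (fun d => PB cls k (supp d)),
        (∏ i, gp (af cls k lam κ g i) c (d i)) * Sym (L4 cls) (fun _ => 1) d := by
    rw [← to_filter (Ln k) (af cls k lam κ g) c z y (PB cls k) PB_iff]
    have h2 := explm (z := z) (y := y) cls (locB (clsI cls) eI k hk (gt cls k lam κ g)) c
      (gi (Ln k))
    refine Eq.trans ?_ h2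
    refine sum_congr rfl fun s hs => ?_
    exact NBc_gp (clsI cls) eI (Ln k) (gt cls k lam κ g) c _ hs
      (PhiLn (clsI cls) eI k hk (gt cls k lam κ g) hs)
  rw [h1]
  refine (le_abs_self _).trans ((hC' y hy).trans ?_)
  beta_reduce
  rw [Real.exp_add]
  apply le_of_eq
  ring

end Pool.Agent.R421.UR
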