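import Mathlib
import Pool.Agent.R421.UR.SumB
import Pool.Agent.R421.UR.Par
import Pool.Agent.TH841.PT.SubT

/-!
# Project UR: the average of a small power of the local count
-/

set_option autoImplicit false
set_option linter.all false

namespace Pool.Agent.R421.UR

open Finset Polynomial Pool.Agent.W262.RK Pool.Agent.TH841.PT Pool.Agent.W762.RK2

variable {J : Type} [Fintype J] [DecidableEq J] {z y : ℕ}

/-- the average over the signs of a power of the local count -/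
noncomputable def NBA (α : ℝ) (cls : J → Fin 4) (e : J → Fin 3 → Bool) (s : J → ℕ) : ℝ :=
  (1 / 2) ^ (P3 cls s).card *
    ∑ E ∈ (P3 cls s).powerset, (NL (∏ j, s j) (LTs cls e s E) : ℝ) ^ α

/-- the number of prime factors -/
def om (s : J → ℕ) : ℕ := ∑ j, (s j).primeFactors.card

lemma pf_prod_card {s : J → ℕ} (hs : s ∈ Tup J z y) :
    (∏ j, s j).primeFactors.card ≤ om s := by
  classical
  unfold om
  refine le_trans (card_le_card ?_) card_biUnion_le
  intro p hp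
  obtain ⟨h1, h2, h3⟩ := Nat.mem_primeFactors.1 hp
  obtain ⟨j, _, hj⟩ := (Prime.dvd_finset_prod_iff h1.prime _).1 h2
  exact mem_biUnion.2 ⟨j, mem_univ _, Nat.mem_primeFactors.2 ⟨h1, hj, Tup_ne hs j⟩⟩

lemma sqf_prod {s : J → ℕ} (hs : s ∈ Tup J z y) : Squarefree (∏ j, s j) := by
  refine Finset.squarefree_prod_of_pairwise_isCoprime ?_ ?_
  · intro i _ j _ hij
    exact Nat.coprime_iff_isRelPrime.1 ((Pool.Agent.W405.RK2.mem_Tup.1 hs).2 i j hij)
  · intro i _
    exact (Pool.Agent.W262.RK.PP_squarefree z y).squarefree_of_dvd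
      ((Pool.Agent.W405.RK2.mem_Tup.1 hs).1 i)

/-- the trivial bound -/
lemma NL_le {s : J → ℕ} (hs : s ∈ Tup J z y) (L : ℕ → Bool → Bool → Bool → Bool → Prop) :
    NL (∏ j, s j) L ≤ 4 ^ om s := by
  classical
  unfold NL
  refine (card_filter_le _ _).trans ?_
  rw [card_product, Pool.Agent.W125.RK2.card_div (sqf_prod hs), ← mul_pow]
  exact Nat.pow_le_pow_right (by norm_num) (pf_prod_card hs)

/-- the decomposition -/
lemma NL_dec {m : ℕ} (hm : m ≠ 0) (L : ℕ → Bool → Bool → Bool → Bool → Prop) :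
    NL m L ≤ NLc m L Nl + 1 + ∑ k ∈ ({0, 1, 2} : Finset (Fin 4)), NLc m L (Ln k) := by
  classical
  have h1 : ((m.divisors ×ˢ m.divisors).filter (fun d : ℕ × ℕ => ∀ p ∈ m.primeFactors,
      L p (dv p d.1) (dv p d.2) (sgn p d.1) (sgn p d.2))) ⊆
      ((m.divisors ×ˢ m.divisors).filter (fun d : ℕ × ℕ => (∀ p ∈ m.primeFactors,
        L p (dv p d.1) (dv p d.2) (sgn p d.1) (sgn p d.2)) ∧ Nl (vs d m))) ∪
      ({(1, 1)} ∪ ({0, 1, 2} : Finset (Fin 4)).biUnion (fun k =>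
        ((m.divisors ×ˢ m.divisors).filter (fun d : ℕ × ℕ => (∀ p ∈ m.primeFactors,
        L p (dv p d.1) (dv p d.2) (sgn p d.1) (sgn p d.2)) ∧ Ln k (vs d m))))) := by
    intro d hd
    rw [mem_filter] at hd
    rw [mem_union, mem_filter]
    by_cases h : Nl (vs d m)
    · exact Or.inl ⟨hd.1, hd.2, h⟩
    · right
      unfold Nl at h
      push Not at h
      obtain ⟨k, hk, h⟩ := h
      rw [mem_union]
      by_cases h0 : ∃ v ∈ vs d m, v ≠ (false, false)
      · right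
        rw [mem_biUnion]
        refine ⟨k, ?_, ?_⟩
        · revert hk
          clear h h0 hd
          revert k
          decide
        · rw [mem_filter]
          refine ⟨hd.1, hd.2, fun v hv => ?_, h0⟩
          by_cases hv0 : v = (false, false)
          · exact Or.inl hv0
          · exact Or.inr (h v hv hv0)
      · left
        push Not at h0
        obtain ⟨m1, m2⟩ := mem_product.1 hd.1
        have hdv : ∀ (p n : ℕ), dv p (n : ℤ) = true ↔ p ∣ n := by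
          intro p n
          unfold dv
          rw [decide_eq_true_iff, Int.natCast_dvd_natCast]
        have h2 : ∀ p, p.Prime → p ∣ m → ¬ p ∣ d.1 ∧ ¬ p ∣ d.2 := by
          intro p hp hpm
          have h3 := h0 (dv p d.1, dv p d.2) (mem_image_of_mem _
            (Nat.mem_primeFactors.2 ⟨hp, hpm, hm⟩))
          rw [Prod.ext_iff] at h3
          refine ⟨fun h => ?_, fun h => ?_⟩
          · rw [← hdv] at h
            rw [h] at h3
            simp at h3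
          · rw [← hdv] at h
            rw [h] at h3
            simp at h3
        rw [mem_singleton, Prod.ext_iff]
        constructor
        · by_contra hne
          obtain ⟨p, hp, hpd⟩ := Nat.exists_prime_and_dvd hne
          exact (h2 p hp (hpd.trans (Nat.dvd_of_mem_divisors m1))).1 hpd
        · by_contra hne
          obtain ⟨p, hp, hpd⟩ := Nat.exists_prime_and_dvd hne
          exact (h2 p hp (hpd.trans (Nat.dvd_of_mem_divisors m2))).2 hpd
  have h2 := card_le_card h1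
  have h3 := card_union_le ((m.divisors ×ˢ m.divisors).filter (fun d : ℕ × ℕ =>
    (∀ p ∈ m.primeFactors,
        L p (dv p d.1) (dv p d.2) (sgn p d.1) (sgn p d.2)) ∧ Nl (vs d m)))
      ({(1, 1)} ∪ ({0, 1, 2} : Finset (Fin 4)).biUnion (fun k =>
        ((m.divisors ×ˢ m.divisors).filter (fun d : ℕ × ℕ => (∀ p ∈ m.primeFactors,
        L p (dv p d.1) (dv p d.2) (sgn p d.1) (sgn p d.2)) ∧ Ln k (vs d m)))))
  have h4 := card_union_le ({(1, 1)} : Finset (ℕ × ℕ))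
    (({0, 1, 2} : Finset (Fin 4)).biUnion (fun k =>
        ((m.divisors ×ˢ m.divisors).filter (fun d : ℕ × ℕ => (∀ p ∈ m.primeFactors,
        L p (dv p d.1) (dv p d.2) (sgn p d.1) (sgn p d.2)) ∧ Ln k (vs d m)))))
  have h5 : (({0, 1, 2} : Finset (Fin 4)).biUnion (fun k =>
        ((m.divisors ×ˢ m.divisors).filter (fun d : ℕ × ℕ => (∀ p ∈ m.primeFactors,
        L p (dv p d.1) (dv p d.2) (sgn p d.1) (sgn p d.2)) ∧ Ln k (vs d m))))).card ≤
      ∑ k ∈ ({0, 1, 2} : Finset (Fin 4)), NLc m L (Ln k) := card_biUnion_le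
  rw [card_singleton] at h4
  have e1 : NL m L = ((m.divisors ×ˢ m.divisors).filter (fun d : ℕ × ℕ => ∀ p ∈ m.primeFactors,
      L p (dv p d.1) (dv p d.2) (sgn p d.1) (sgn p d.2))).card := rfl
  have e2 : NLc m L Nl = ((m.divisors ×ˢ m.divisors).filter (fun d : ℕ × ℕ =>
    (∀ p ∈ m.primeFactors,
        L p (dv p d.1) (dv p d.2) (sgn p d.1) (sgn p d.2)) ∧ Nl (vs d m))).card := rfl
  rw [e1, e2]
  omega

variable {cls : J → Fin 4} {g : J × Ty → ℕ → ℝ} {d σ : J → ℝ} {c : ℕ} {C0 E0 lam κ : ℝ}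
  {k : Fin 4}

/-- the weight of the tilt -/
noncomputable def tw (cls : J → Fin 4) (k : Fin 4) (lam : ℝ) (s : J × Ty → ℕ) : ℝ :=
  ∏ i, tl cls k lam i ^ (s i).primeFactors.card

lemma tl_pos (hl : 0 < lam) (i : J × Ty) : 0 < tl cls k lam i := by
  unfold tl
  split_ifs <;> positivity

lemma tw_pos (hl : 0 < lam) (s : J × Ty → ℕ) : 0 < tw cls k lam s :=
  prod_pos fun i _ => pow_pos (tl_pos hl i) _

/-- the pointwise bound for one set of signs -/
lemma pow_bound {α : ℝ} (hα : 0 ≤ α) (hα1 : α ≤ 1) (N N' ω : ℕ) (Q : Fin 4 → ℕ) (w : Fin 4 → ℝ)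
    (θ : Fin 4 → ℝ) (hw : ∀ k, 0 < w k) (hθ : ∀ k, k ≠ 3 → 0 ≤ θ k) (hN : N ≤ 4 ^ ω)
    (hdec : N ≤ N' + 1 + ∑ k ∈ ({0, 1, 2} : Finset (Fin 4)), Q k) :
    (N : ℝ) ^ α ≤ (N' + 1 : ℝ) + ∑ k ∈ ({0, 1, 2} : Finset (Fin 4)),
      (((4 : ℝ) ^ α) ^ ω * (w k) ^ (-θ k) + ((4 : ℝ) ^ α) ^ ω * w k * Q k) := by
  have h4 : (0 : ℝ) < (4 : ℝ) ^ α := by positivity
  have hnn : ∀ k, 0 ≤ (((4 : ℝ) ^ α) ^ ω * (w k) ^ (-θ k) + ((4 : ℝ) ^ α) ^ ω * w k * Q k) := by
    intro k
    have := hw k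
    positivity
  by_cases h : ∀ k ∈ ({0, 1, 2} : Finset (Fin 4)), Q k = 0
  · rw [sum_eq_zero h] at hdec
    have h1 : (N : ℝ) ≤ N' + 1 := by exact_mod_cast hdec
    have h2 : (N : ℝ) ^ α ≤ (N' + 1 : ℝ) ^ α := Real.rpow_le_rpow (Nat.cast_nonneg _) h1 hα
    have h3 : (N' + 1 : ℝ) ^ α ≤ (N' + 1 : ℝ) := by
      have h5 : (1 : ℝ) ≤ N' + 1 := by
        have : (0 : ℝ) ≤ N' := Nat.cast_nonneg _
        linarith
      calc (N' + 1 : ℝ) ^ α ≤ (N' + 1 : ℝ) ^ (1 : ℝ) := Real.rpow_le_rpow_of_exponent_le h5 hα1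
        _ = _ := Real.rpow_one _
    have h6 : 0 ≤ ∑ k ∈ ({0, 1, 2} : Finset (Fin 4)),
      (((4 : ℝ) ^ α) ^ ω * (w k) ^ (-θ k) + ((4 : ℝ) ^ α) ^ ω * w k * Q k) :=
      sum_nonneg fun k _ => hnn k
    linarith
  · push Not at h
    obtain ⟨k, hk, hQ⟩ := h
    have hk3 : k ≠ 3 := by
      rintro rfl
      revert hk
      decide
    have h1 : (N : ℝ) ^ α ≤ ((4 : ℝ) ^ α) ^ ω := by
      have h2 : (N : ℝ) ≤ (4 : ℝ) ^ ω := by exact_mod_cast hN
      refine (Real.rpow_le_rpow (Nat.cast_nonneg _) h2 hα).trans (le_of_eq ?_)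
      rw [← Real.rpow_natCast, ← Real.rpow_natCast, ← Real.rpow_mul (by norm_num),
        ← Real.rpow_mul (by norm_num), mul_comm]
    have h2 : (1 : ℝ) ≤ (w k) ^ (-θ k) + w k * Q k := by
      have hQ1 : (1 : ℝ) ≤ Q k := by exact_mod_cast Nat.one_le_iff_ne_zero.2 hQ
      have hwk := hw k
      by_cases hw1 : w k ≤ 1
      · have h3 : 1 ≤ (w k) ^ (-θ k) := by
          rw [Real.rpow_neg hwk.le]
          rw [one_le_inv₀ (Real.rpow_pos_of_pos hwk _)]
          exact Real.rpow_le_one hwk.le hw1 (hθ k hk3)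
        have : 0 ≤ w k * Q k := by positivity
        linarith
      · push Not at hw1
        have : 0 ≤ (w k) ^ (-θ k) := by positivity
        nlinarith
    have h3 : ((4 : ℝ) ^ α) ^ ω ≤ (((4 : ℝ) ^ α) ^ ω * (w k) ^ (-θ k) +
        ((4 : ℝ) ^ α) ^ ω * w k * Q k) := by
      have h5 : 0 ≤ ((4 : ℝ) ^ α) ^ ω := by positivity
      have := mul_le_mul_of_nonneg_left h2 h5
      linarith
    have h6 := single_le_sum (f := fun k => (((4 : ℝ) ^ α) ^ ω * (w k) ^ (-θ k) +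
        ((4 : ℝ) ^ α) ^ ω * w k * Q k)) (fun k _ => hnn k) hk
    have h7 : (0 : ℝ) ≤ N' := Nat.cast_nonneg _
    linarith

/-- the average over the signs -/
lemma NBA_le {α : ℝ} (hα : 0 ≤ α) (hα1 : α ≤ 1) (e : J → Fin 3 → Bool) {s : J → ℕ}
    (hs : s ∈ Tup J z y) (w : Fin 4 → ℝ) (θ : Fin 4 → ℝ) (hw : ∀ k, 0 < w k)
    (hθ : ∀ k, k ≠ 3 → 0 ≤ θ k) :
    NBA α cls e s ≤ (NBc cls e Nl s + 1) + ∑ k ∈ ({0, 1, 2} : Finset (Fin 4)),
      (((4 : ℝ) ^ α) ^ om s * (w k) ^ (-θ k) +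
        ((4 : ℝ) ^ α) ^ om s * w k * NBc cls e (Ln k) s) := by
  unfold NBA
  have hne : ∏ j, s j ≠ 0 := Finset.prod_ne_zero_iff.2 fun j _ => Tup_ne hs j
  have h1 : ∀ E ∈ (P3 cls s).powerset, (NL (∏ j, s j) (LTs cls e s E) : ℝ) ^ α ≤ _ :=
    fun E _ => pow_bound hα hα1 _ _ (om s) (fun k => NLc (∏ j, s j) (LTs cls e s E) (Ln k)) w θ
      hw hθ (NL_le hs _) (NL_dec hne _)
  have h2 := mul_le_mul_of_nonneg_left (sum_le_sum h1)
    (by positivity : (0 : ℝ) ≤ (1 / 2) ^ (P3 cls s).card)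
  refine h2.trans (le_of_eq ?_)
  have hc : ∀ x : ℝ, (1 / 2 : ℝ) ^ (P3 cls s).card * ∑ _E ∈ (P3 cls s).powerset, x = x := by
    intro x
    rw [sum_const, card_powerset, nsmul_eq_mul]
    push_cast
    rw [← mul_assoc, ← mul_pow]
    norm_num
  unfold NBc
  simp only [sum_add_distrib, mul_add]
  rw [hc 1]
  congr 1
  rw [sum_comm, mul_sum, sum_comm (s := (P3 cls s).powerset), mul_sum]
  congr 1
  · refine sum_congr rfl fun k _ => ?_
    rw [hc]
  · refine sum_congr rfl fun k _ => ?_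
    rw [← mul_sum]
    ring

end Pool.Agent.R421.UR
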