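import Mathlib
import Pool.Agent.R421.UR.MdlT

/-!
# Project UR: the average of a small power of the local count, final
-/

set_option autoImplicit false
set_option linter.all false

namespace Pool.Agent.R421.UR

open Finset Polynomial Pool.Agent.W262.RK Pool.Agent.TH841.PT Pool.Agent.W762.RK2

variable {J : Type} [Fintype J] [DecidableEq J] {z y : ℕ}

variable {cls : J → Fin 4} {g : J × Ty → ℕ → ℝ} {d σ : J → ℝ} {c : ℕ} {C0 E0 lam κ : ℝ}
  {k : Fin 4}

/-- weights that depend on the class and the splitting -/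
noncomputable def wt (cls : J → Fin 4) (k : Fin 4) (Xn Xs Xo X3 : ℝ) (i : J × Ty) : ℝ :=
  if cls i.1 = 3 then X3 else if cls i.1 = k then (if i.2 0 = false then Xs else Xn) else Xo

/-- **the sum of multiplicative functions** -/
theorem sumA (h : Mdl cls g d σ c z C0 E0) (hk : k ≠ 3) {Xn Xs Xo X3 : ℝ} (hn : 0 ≤ Xn)
    (hns : Xn ≤ Xs) (ho : 0 ≤ Xo) (h3 : 0 ≤ X3)
    (hcap : Xn * (Wc cls d k - Wc cls σ k) + Xs * Wc cls σ k + Xo * (Wo cls d - Wc cls d k) +
      X3 * Wc cls d 3 ≤ Wt d) :
    ∃ C : ℝ, ∀ y, z < y → ∑ s ∈ Tup (J × Ty) z y,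
      ∏ i, gp (fun p => wt cls k Xn Xs Xo X3 i * g i p) c (s i) ≤
        C * Real.exp (∑ j, Sp (rs g j) z y) := by
  classical
  have hs0 : 0 ≤ Xs := hn.trans hns
  set X : ℝ := Xs + Xo + X3 with hX
  have hX0 : 0 ≤ X := by positivity
  have hwt0 : ∀ i, 0 ≤ wt cls k Xn Xs Xo X3 i := by
    intro i
    unfold wt
    split_ifs <;> assumption
  have hwtX : ∀ i, wt cls k Xn Xs Xo X3 i ≤ X := by
    intro i
    unfold wt
    split_ifs <;> linarith
  have hgc : ∀ i p, g i p ≤ c := by
    intro i p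
    have h1 := h.gc i.1 p
    have h2 : g i p ≤ rs g i.1 p := by
      unfold rs
      exact single_le_sum (f := fun θ : Ty => g (i.1, θ) p) (fun θ _ => h.g0 _ _)
        (mem_univ i.2)
    linarith
  have hz2 : 2 * c + 2 ≤ z := by have := h.hz; omega
  obtain ⟨C, hC⟩ := eul_le (J := J × Ty) (fun i p => wt cls k Xn Xs Xo X3 i * g i p) c z (X * c)
    (fun i p => mul_le_mul (hwtX i) (hgc i p) (h.g0 _ _) hX0)
    (fun i p => mul_nonneg (hwt0 i) (h.g0 _ _)) (by positivity) hz2
  have hC0 := h.hC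
  refine ⟨|C| * Real.exp (Fintype.card J * (X * C0) + Fintype.card J * C0), fun y hy => ?_⟩
  refine (hC y hy).trans ?_
  have e1 : ∑ i : J × Ty, Sp (fun p => wt cls k Xn Xs Xo X3 i * g i p) z y ≤
      ∑ j, Sp (rs g j) z y + (Fintype.card J * (X * C0) + Fintype.card J * C0) := by
    rw [Fintype.sum_prod_type]
    have h1 : ∀ j, ∑ θ : Ty, Sp (fun p => wt cls k Xn Xs Xo X3 (j, θ) * g (j, θ) p) z y ≤
        (if cls j = 3 then X3 * d j else if cls j = k then Xn * (d j - σ j) + Xs * σ j
          else Xo * d j) * Real.log (Real.log y) + X * C0 := by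
      intro j
      rw [← Sp_sum]
      have hup := h.up j y hy
      have hT := h.T0 hy
      by_cases hj3 : cls j = 3
      · rw [if_pos hj3]
        have e2 : (fun p => ∑ θ : Ty, wt cls k Xn Xs Xo X3 (j, θ) * g (j, θ) p) =
            fun p => X3 * rs g j p := by
          funext p
          unfold rs wt
          rw [mul_sum]
          simp only [hj3, if_true]
        rw [e2, Sp_smul]
        have h5 := mul_le_mul_of_nonneg_left hup h3
        have h6 : X3 * C0 ≤ X * C0 := mul_le_mul_of_nonneg_right (by linarith) hC0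
        linarith
      · rw [if_neg hj3]
        by_cases hjk : cls j = k
        · rw [if_pos hjk]
          have e2 : (fun p => ∑ θ : Ty, wt cls k Xn Xs Xo X3 (j, θ) * g (j, θ) p) =
              fun p => Xn * rs g j p + (Xs - Xn) * rsp g j p := by
            funext p
            have e3 : ∀ θ : Ty, wt cls k Xn Xs Xo X3 (j, θ) = if θ 0 = false then Xs else Xn := by
              intro θ
              unfold wt
              rw [if_neg hj3, if_pos hjk]
            rw [sum_congr rfl fun θ _ => by rw [e3 θ], sum_bit]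
            rfl
          have e3 : Sp (fun p => Xn * rs g j p + (Xs - Xn) * rsp g j p) z y =
              Xn * Sp (rs g j) z y + (Xs - Xn) * Sp (rsp g j) z y := by
            rw [← Sp_smul, ← Sp_smul]
            unfold Sp
            rw [← sum_add_distrib]
            exact sum_congr rfl fun p _ => by ring
          rw [e2, e3]
          have h5 := mul_le_mul_of_nonneg_left hup hn
          have h6 := mul_le_mul_of_nonneg_left (h.spl j y hj3 hy) (sub_nonneg.2 hns)
          have h7 : Xs * C0 ≤ X * C0 := mul_le_mul_of_nonneg_right (by linarith) hC0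
          linarith
        · rw [if_neg hjk]
          have e2 : (fun p => ∑ θ : Ty, wt cls k Xn Xs Xo X3 (j, θ) * g (j, θ) p) =
              fun p => Xo * rs g j p := by
            funext p
            unfold rs wt
            rw [mul_sum]
            simp only [hj3, hjk, if_false]
          rw [e2, Sp_smul]
          have h5 := mul_le_mul_of_nonneg_left hup ho
          have h6 : Xo * C0 ≤ X * C0 := mul_le_mul_of_nonneg_right (by linarith) hC0
          linarith
    refine (sum_le_sum fun j _ => h1 j).trans ?_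
    rw [sum_add_distrib, ← sum_mul, sum_const, nsmul_eq_mul, card_univ]
    have e4 : ∑ j, (if cls j = 3 then X3 * d j else if cls j = k then Xn * (d j - σ j) + Xs * σ j
          else Xo * d j) = Xn * (Wc cls d k - Wc cls σ k) + Xs * Wc cls σ k +
          Xo * (Wo cls d - Wc cls d k) + X3 * Wc cls d 3 := by
      unfold Wc Wo
      rw [sum_filter, sum_filter, sum_filter, sum_filter, ← sum_sub_distrib, ← sum_sub_distrib,
        mul_sum, mul_sum, mul_sum, mul_sum, ← sum_add_distrib, ← sum_add_distrib,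
        ← sum_add_distrib]
      refine sum_congr rfl fun j _ => ?_
      by_cases hj3 : cls j = 3
      · have hjk : cls j ≠ k := by rw [hj3]; exact hk.symm
        simp [hj3, hk.symm]
      · by_cases hjk : cls j = k
        · simp [hj3, hjk, hk]
        · simp [hj3, hjk]
    rw [e4]
    have h5 := mul_le_mul_of_nonneg_right hcap (h.T0 hy)
    have h6 := h.J0 hy
    linarith
  calc C * Real.exp (∑ i : J × Ty, Sp (fun p => wt cls k Xn Xs Xo X3 i * g i p) z y)
      ≤ |C| * Real.exp (∑ j, Sp (rs g j) z y +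
        (Fintype.card J * (X * C0) + Fintype.card J * C0)) :=
        mul_le_mul (le_abs_self _) (Real.exp_le_exp.2 e1) (Real.exp_pos _).le (abs_nonneg _)
    _ = _ := by
        rw [Real.exp_add]
        ring

/-- **The average of a small power of the local count** -/
theorem mdl_alpha (cls : J → Fin 4) (d σ : J → ℝ) (hd : ∀ j, 0 < d j) (hσ0 : ∀ j, 0 ≤ σ j)
    (hσ : ∀ k : Fin 4, k ≠ 3 → Wc cls σ k < Wo cls d - Wc cls d k) :
    ∃ α : ℝ, 0 < α ∧ α ≤ 1 ∧ ∀ (g : J × Ty → ℕ → ℝ) (c z : ℕ) (C0 E0 : ℝ),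
      Mdl cls g d σ c z C0 E0 → ∃ C : ℝ, ∀ y, z < y →
        ∑ s ∈ Tup (J × Ty) z y, NBA α (clsI cls) eI s * ∏ i, gp (g i) c (s i) ≤
          C * Real.exp (∑ j, Sp (rs g j) z y) := by
  classical
  have hWc0 : ∀ k, 0 ≤ Wc cls d k := fun k => Wc_nonneg (fun j => (hd j).le) k
  have hWσ0 : ∀ k, 0 ≤ Wc cls σ k := fun k => Wc_nonneg hσ0 k
  have hWt := Wt_eq (cls := cls) (d := d)
  -- the tilts
  have htilt : ∀ k : Fin 4, ∃ lam θ : ℝ, k ≠ 3 → 0 < lam ∧ lam < 1 ∧ 0 < θ ∧
      lam ^ (-θ) * (Wc cls d k - Wc cls σ k) + (lam / 2) ^ (-θ) * Wc cls σ k +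
        (2 * lam) ^ (-θ) * (Wo cls d - Wc cls d k) + Wc cls d 3 < Wt d := by
    intro k
    by_cases hk : k = 3
    · exact ⟨1, 1, fun h => absurd hk h⟩
    · obtain ⟨lam, θ, h1, h2, h3, h4⟩ := exists_tilt (Wc cls d k) (Wc cls σ k)
        (Wo cls d - Wc cls d k) (Wc cls d 3) (hWc0 k) (hWσ0 k) (hσ k hk) (hWc0 3)
      exact ⟨lam, θ, fun _ => ⟨h1, h2, h3, by linarith⟩⟩
  choose lam θ htl using htilt
  -- the maximum of the masses
  have hWo : 0 < Wo cls d := by
    have h1 := hσ 0 (by decide)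
    have h2 := hWσ0 0
    have h3 := hWc0 0
    linarith
  have hWt0 : 0 < Wt d := by have := hWc0 3; linarith
  set φ : Fin 4 → ℝ := fun k => lam k ^ (-θ k) * (Wc cls d k - Wc cls σ k) +
    (lam k / 2) ^ (-θ k) * Wc cls σ k + (2 * lam k) ^ (-θ k) * (Wo cls d - Wc cls d k) +
      Wc cls d 3 with hφ
  set ψ : Fin 4 → ℝ := fun k => lam k * Wo cls d + Wc cls d 3 with hψ
  obtain ⟨m, hm1, hm2, hm3⟩ : ∃ m : ℝ, m < Wt d ∧ 0 ≤ m ∧
      ∀ k : Fin 4, k ≠ 3 → φ k ≤ m ∧ ψ k ≤ m := by
    set m := max (max (max (φ 0) (ψ 0)) (max (φ 1) (ψ 1))) (max (max (φ 2) (ψ 2)) 0) with hm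
    refine ⟨m, ?_, ?_, ?_⟩
    · have h0 := htl 0 (by decide)
      have h1 := htl 1 (by decide)
      have h2 := htl 2 (by decide)
      have hp : ∀ k : Fin 4, k ≠ 3 → ψ k < Wt d := by
        intro k hk
        obtain ⟨a1, a2, a3, a4⟩ := htl k hk
        rw [hψ]
        beta_reduce
        nlinarith
      rw [hm]
      exact max_lt (max_lt (max_lt h0.2.2.2 (hp 0 (by decide)))
        (max_lt h1.2.2.2 (hp 1 (by decide))))
        (max_lt (max_lt h2.2.2.2 (hp 2 (by decide))) hWt0)
    · rw [hm]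
      exact le_trans (le_max_right _ _) (le_max_right _ _)
    · intro k hk
      have hk4 : k = 0 ∨ k = 1 ∨ k = 2 := by
        revert hk
        clear hm
        revert k
        decide
      rw [hm]
      rcases hk4 with rfl | rfl | rfl
      · exact ⟨le_trans (le_trans (le_max_left _ _) (le_max_left _ _)) (le_max_left _ _),
          le_trans (le_trans (le_max_right _ _) (le_max_left _ _)) (le_max_left _ _)⟩
      · exact ⟨le_trans (le_trans (le_max_left _ _) (le_max_right _ _)) (le_max_left _ _),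
          le_trans (le_trans (le_max_right _ _) (le_max_right _ _)) (le_max_left _ _)⟩
      · exact ⟨le_trans (le_trans (le_max_left _ _) (le_max_left _ _)) (le_max_right _ _),
          le_trans (le_trans (le_max_right _ _) (le_max_left _ _)) (le_max_right _ _)⟩
  -- the growth factor
  set δ : ℝ := (Wt d - m) / 2 with hδ
  have hδ0 : 0 < δ := by rw [hδ]; linarith
  set κ : ℝ := 1 + (Wt d - m) / (2 * Wt d) with hκ
  have hκ1 : 1 < κ := by
    have : 0 < (Wt d - m) / (2 * Wt d) := div_pos (by linarith) (by linarith)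
    linarith
  have hκ2 : κ ≤ 2 := by
    have : (Wt d - m) / (2 * Wt d) ≤ 1 := by
      rw [div_le_one (by linarith)]
      linarith
    linarith
  have hκm : ∀ x : ℝ, x ≤ m → κ * x ≤ Wt d - δ := by
    intro x hx
    have h1 : κ * x ≤ κ * m := mul_le_mul_of_nonneg_left hx (by linarith)
    have h2 : κ * m = m + (Wt d - m) / 2 * (m / Wt d) := by
      rw [hκ]
      field_simp
    have h3 : m / Wt d ≤ 1 := by
      rw [div_le_one hWt0]
      linarith
    have h4 : (Wt d - m) / 2 * (m / Wt d) ≤ (Wt d - m) / 2 * 1 :=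
      mul_le_mul_of_nonneg_left h3 (by linarith)
    rw [hδ]
    linarith
  set α : ℝ := Real.log κ / Real.log 4 with hα
  have hlog4 : 0 < Real.log 4 := Real.log_pos (by norm_num)
  have hα0 : 0 < α := div_pos (Real.log_pos hκ1) hlog4
  have hα1 : α ≤ 1 := by
    rw [hα, div_le_one hlog4]
    exact Real.log_le_log (by linarith) (by linarith)
  have h4α : (4 : ℝ) ^ α = κ := by
    rw [Real.rpow_def_of_pos (by norm_num), hα, mul_div_cancel₀ _ hlog4.ne',
      Real.exp_log (by linarith)]
  refine ⟨α, hα0, hα1, fun g c z C0 E0 h => ?_⟩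
  -- the condition for the sets
  obtain ⟨δ1, hδ1⟩ : ∃ δ1 : ℝ, HW cls d {0, 1, 2} δ1 := by
    have hpos : ∀ k : Fin 4, k ≠ 3 → 0 < Wo cls d - Wc cls d k := by
      intro k hk
      have := hσ k hk
      have := hWσ0 k
      linarith
    obtain ⟨e1, he1, he1'⟩ : ∃ e1 : ℝ, 0 < e1 ∧ ∀ j, e1 ≤ d j := by
      by_cases hJ : Nonempty J
      · obtain ⟨j0, _, hj0⟩ := exists_min_image univ d univ_nonempty
        exact ⟨d j0, hd j0, fun j => hj0 j (mem_univ _)⟩
      · exact ⟨1, one_pos, fun j => absurd ⟨j⟩ hJ⟩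
    set e2 : ℝ := min (Wo cls d - Wc cls d 0) (min (Wo cls d - Wc cls d 1)
      (Wo cls d - Wc cls d 2)) with he2
    have he20 : 0 < e2 := lt_min (hpos 0 (by decide)) (lt_min (hpos 1 (by decide))
      (hpos 2 (by decide)))
    refine ⟨min (e1 / 4) (e2 / 2), ?_⟩
    have m1 : min (e1 / 4) (e2 / 2) ≤ e1 / 4 := min_le_left _ _
    have m2 : min (e1 / 4) (e2 / 2) ≤ e2 / 2 := min_le_right _ _
    refine ⟨fun j => (hd j).le, fun j => ?_, ?_, ?_, ?_, ?_⟩
    · have := he1' j
      linarith
    · decide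
    · intro k hk hkB
      exfalso
      revert hk hkB
      clear m1 m2
      revert k
      decide
    · intro k hk
      have hk4 : k = 0 ∨ k = 1 ∨ k = 2 := by
        revert hk
        clear m1 m2
        revert k
        decide
      have hk5 : e2 ≤ Wo cls d - Wc cls d k := by
        rw [he2]
        rcases hk4 with rfl | rfl | rfl
        · exact min_le_left _ _
        · exact (min_le_right _ _).trans (min_le_left _ _)
        · exact (min_le_right _ _).trans (min_le_right _ _)
      linarith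
    · exact lt_min (by positivity) (by positivity)
  -- the sums
  obtain ⟨C1, hC1⟩ := sumC h hδ1
  obtain ⟨C2, hC2⟩ := sumA (k := 0) h (by decide) (Xn := 1) (Xs := 1) (Xo := 1) (X3 := 1)
    zero_le_one le_rfl zero_le_one zero_le_one (by linarith)
  have hB : ∀ k : Fin 4, ∃ C : ℝ, k ≠ 3 → ∀ y, z < y → ∑ s ∈ Tup (J × Ty) z y,
      NBc (clsI cls) eI (Ln k) s * ∏ i, gp (gt cls k (lam k) κ g i) c (s i) ≤
        C * Real.exp (∑ j, Sp (rs g j) z y) := by
    intro k
    by_cases hk : k = 3
    · exact ⟨0, fun h => absurd hk h⟩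
    · obtain ⟨a1, a2, a3, a4⟩ := htl k hk
      obtain ⟨C, hC⟩ := sumB (k := k) (lam := lam k) (κ := κ) (δ := δ) h hk (by linarith) hκ2
        a1.le a2.le hδ0 (hκm _ (hm3 k hk).2)
      exact ⟨C, fun _ => hC⟩
  choose CB hCB using hB
  have hA : ∀ k : Fin 4, ∃ C : ℝ, k ≠ 3 → ∀ y, z < y → ∑ s ∈ Tup (J × Ty) z y,
      ∏ i, gp (fun p => (κ * tl cls k (lam k) i ^ (-θ k)) * g i p) c (s i) ≤
        C * Real.exp (∑ j, Sp (rs g j) z y) := by
    intro k
    by_cases hk : k = 3
    · exact ⟨0, fun h => absurd hk h⟩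
    · obtain ⟨a1, a2, a3, a4⟩ := htl k hk
      have hmono : lam k ^ (-θ k) ≤ (lam k / 2) ^ (-θ k) :=
        Real.rpow_le_rpow_of_nonpos (by linarith) (by linarith) (by linarith)
      obtain ⟨C, hC⟩ := sumA (k := k) (Xn := κ * lam k ^ (-θ k)) (Xs := κ * (lam k / 2) ^ (-θ k))
        (Xo := κ * (2 * lam k) ^ (-θ k)) (X3 := κ) h hk (by positivity)
        (mul_le_mul_of_nonneg_left hmono (by linarith)) (by positivity) (by linarith)
        (by
          have := hκm _ (hm3 k hk).1
          rw [hφ] at this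
          beta_reduce at this
          linarith)
      refine ⟨C, fun _ y hy => ?_⟩
      refine le_trans (le_of_eq ?_) (hC y hy)
      refine sum_congr rfl fun s _ => prod_congr rfl fun i _ => ?_
      have e1 : κ * tl cls k (lam k) i ^ (-θ k) = wt cls k (κ * lam k ^ (-θ k))
          (κ * (lam k / 2) ^ (-θ k)) (κ * (2 * lam k) ^ (-θ k)) κ i := by
        unfold tl wt
        split_ifs
        · rw [Real.one_rpow, mul_one]
        · rfl
        · rfl
        · rfl
      rw [e1]
  choose CA hCA using hA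
  refine ⟨C1 + C2 + ∑ k ∈ ({0, 1, 2} : Finset (Fin 4)), (CA k + CB k), fun y hy => ?_⟩
  have hcz : c ≤ z := by have := h.hz; omega
  have hgp : ∀ s ∈ Tup (J × Ty) z y, 0 ≤ ∏ i, gp (g i) c (s i) := fun s hs =>
    prod_nonneg fun i _ => gp_nonneg' (h.g0 i) hs hcz i
  have h1 : ∀ s ∈ Tup (J × Ty) z y, NBA α (clsI cls) eI s * ∏ i, gp (g i) c (s i) ≤
      (NBc (clsI cls) eI Nl s * ∏ i, gp (g i) c (s i) + ∏ i, gp (g i) c (s i)) +
      ∑ k ∈ ({0, 1, 2} : Finset (Fin 4)),
        (∏ i, gp (fun p => (κ * tl cls k (lam k) i ^ (-θ k)) * g i p) c (s i) +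
          NBc (clsI cls) eI (Ln k) s * ∏ i, gp (gt cls k (lam k) κ g i) c (s i)) := by
    intro s hs
    set w : Fin 4 → ℝ := fun k => if k = 3 then 1 else tw cls k (lam k) s with hw
    have hw0 : ∀ k, 0 < w k := by
      intro k
      rw [hw]
      beta_reduce
      split_ifs with hk
      · exact one_pos
      · exact tw_pos (htl k hk).1 s
    have h2 := mul_le_mul_of_nonneg_right (NBA_le (cls := clsI cls) hα0.le hα1 eI hs w θ hw0
      (fun k hk => (htl k hk).2.2.1.le)) (hgp s hs)
    refine h2.trans (le_of_eq ?_)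
    rw [add_mul, add_mul, one_mul, sum_mul]
    congr 1
    refine sum_congr rfl fun k hk => ?_
    have hk3 : k ≠ 3 := by
      rintro rfl
      revert hk
      decide
    have hl := (htl k hk3).1
    have hwk : w k = tw cls k (lam k) s := by
      rw [hw]
      beta_reduce
      rw [if_neg hk3]
    rw [hwk, h4α, add_mul]
    congr 1
    · -- the multiplicative term
      have e1 : ∏ i, gp (fun p => (κ * tl cls k (lam k) i ^ (-θ k)) * g i p) c (s i) =
          ∏ i, ((κ * tl cls k (lam k) i ^ (-θ k)) ^ (s i).primeFactors.card *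
            gp (g i) c (s i)) := prod_congr rfl fun i _ => gp_smul _ _ _ _
      rw [e1, prod_mul_distrib]
      congr 1
      simp only [mul_pow]
      rw [prod_mul_distrib, prod_pow_eq_pow_sum]
      congr 1
      unfold tw
      rw [← Real.finset_prod_rpow _ _ (fun i _ => by have := tl_pos (cls := cls) (k := k) hl i; positivity)]
      refine prod_congr rfl fun i _ => ?_
      have ht := tl_pos (cls := cls) (k := k) hl i
      rw [← Real.rpow_natCast, ← Real.rpow_natCast, ← Real.rpow_mul ht.le, ← Real.rpow_mul ht.le,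
        mul_comm]
    · have e1 : ∏ i, gp (gt cls k (lam k) κ g i) c (s i) =
          ∏ i, ((κ * tl cls k (lam k) i) ^ (s i).primeFactors.card *
            gp (g i) c (s i)) := prod_congr rfl fun i _ => by
              unfold gt
              exact gp_smul _ _ _ _
      rw [e1, prod_mul_distrib]
      simp only [mul_pow]
      rw [prod_mul_distrib, prod_pow_eq_pow_sum]
      unfold tw om
      ring
  refine (sum_le_sum h1).trans ?_
  rw [sum_add_distrib, sum_add_distrib, sum_comm]
  have h2 := hC1 y hy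
  have h3 : ∑ s ∈ Tup (J × Ty) z y, ∏ i, gp (g i) c (s i) ≤
      C2 * Real.exp (∑ j, Sp (rs g j) z y) := by
    refine le_trans (le_of_eq ?_) (hC2 y hy)
    refine sum_congr rfl fun s _ => prod_congr rfl fun i _ => ?_
    congr 1
    funext p
    unfold wt
    split_ifs <;> ring
  have h4 : ∑ k ∈ ({0, 1, 2} : Finset (Fin 4)), ∑ s ∈ Tup (J × Ty) z y,
        (∏ i, gp (fun p => (κ * tl cls k (lam k) i ^ (-θ k)) * g i p) c (s i) +
          NBc (clsI cls) eI (Ln k) s * ∏ i, gp (gt cls k (lam k) κ g i) c (s i)) ≤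
      (∑ k ∈ ({0, 1, 2} : Finset (Fin 4)), (CA k + CB k)) *
        Real.exp (∑ j, Sp (rs g j) z y) := by
    rw [sum_mul]
    refine sum_le_sum fun k hk => ?_
    have hk3 : k ≠ 3 := by
      rintro rfl
      revert hk
      decide
    rw [sum_add_distrib, add_mul]
    exact add_le_add (hCA k hk3 y hy) (hCB k hk3 y hy)
  rw [add_mul, add_mul]
  exact add_le_add (add_le_add h2 h3) h4

end Pool.Agent.R421.UR
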