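import Mathlib
import Pool.Agent.R421.UR.AvgA
import Pool.Agent.TH841.TR.MakX

/-!
# Project UR: one-parameter families, the hypotheses of the model (adapted from TH841/TR/MakX)
-/

set_option autoImplicit false
set_option linter.all false

namespace Pool.Agent.R421.UR

open Finset Polynomial Pool.Agent.W262.RK Pool.Agent.TH841.PT

open Pool.Agent.H474R2.PG (rho)

open Pool.Agent.TH841.TR (ZI H1L gpol_ZI)

variable {J : Type} [Fintype J] [DecidableEq J]

/-- the inequalities for the numbers of the indices of the classes -/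
def TriA (cls : J → Fin 4) (sp : J → Bool) : Prop :=
  ∀ k : Fin 4, k ≠ 3 → 3 * (univ.filter (fun j => cls j = k)).card +
    (univ.filter (fun j => cls j = k ∧ sp j = true)).card <
      2 * (univ.filter (fun j => cls j ≠ 3)).card

/-- the density of the split primes -/
noncomputable def sg1 (sp : J → Bool) (j : J) : ℝ := if sp j = true then 1 else 1 / 2

lemma rs_rT {cls : J → Fin 4} {a : Fin 3 → ℤ} {f : J → ℤ[X]} {z p : ℕ} (hp : p.Prime)
    (hz : z < p) (j : J) : rs (rT cls a f z) j p = rho (f j) p := by
  unfold rs rT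
  simp only [if_pos (And.intro hp hz)]
  unfold rho
  have h := Finset.card_eq_sum_card_fiberwise (f := fun x : ℕ => ty cls a f p x j)
    (s := (range p).filter (fun x : ℕ => (p : ℤ) ∣ (f j).eval (x : ℤ))) (t := univ)
    (fun _ _ => mem_coe.2 (mem_univ _))
  rw [h]
  push_cast
  refine sum_congr rfl fun θ _ => ?_
  rw [filter_filter]

lemma Sp_congr {f g : ℕ → ℝ} {z y : ℕ} (h : ∀ p, p.Prime → z < p → f p = g p) :
    Sp f z y = Sp g z y := by
  unfold Sp
  refine sum_congr rfl fun p hp => ?_
  have hp' := mem_filter.1 hp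
  rw [h p hp'.2 (mem_Ioc.1 hp'.1).1]

/-- the letter with the sign of the splitting -/
lemma rsp_eq {cls : J → Fin 4} (g : J × Ty → ℕ → ℝ) (j : J) (h3 : cls j ≠ 3)
    (hA : Al (cls j) (ec (cls j)) (ec (cls j)).swap = true) (p : ℕ) :
    rsp g j p = 1 / 2 * rs g j p +
      acf cls g (⟨(j, ec (cls j), (ec (cls j)).swap), hA⟩ : I4 cls) p := by
  have hne := ec_ne (cls j)
  have hne' : (ec (cls j)).swap ≠ (false, false) := by
    intro h
    apply hne
    have := congrArg Prod.swap h
    simpa using this
  set i2 : I4 cls := ⟨(j, ec (cls j), (ec (cls j)).swap), hA⟩ with hi2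
  have hJ1 : ∀ p : ℕ, Jr 1 p = 1 := by
    intro p
    unfold Jr
    rw [jacobiSym.one_left]
    norm_num
  unfold acf
  have k1 : κm cls i2 = 1 := by
    unfold κm
    simp [hi2, hne, hne', h3]
  have k2 : w4 cls i2 = 1 / 2 := by
    unfold w4
    rw [hi2]
    simp [h3]
  have k3 : ∀ θ : Ty, bit4 cls (fun _ => θ) i2 = θ 0 := by
    intro θ
    unfold bit4
    simp [hi2, hne, hne', h3]
  simp only [k1, hJ1, k2, k3]
  unfold rs rsp
  rw [one_mul, mul_sum, ← sum_add_distrib]
  refine sum_congr rfl fun θ _ => ?_
  cases h : θ 0 <;> simp [hi2]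
  ring

/-- **the bound for the main term in a one-parameter family** -/
theorem makA (hh1 : H1L) (htw : TWG) (hgd : GDP)
    (cls : J → Fin 4) (a : Fin 3 → ℤ) (f : J → ℤ[X]) (sp : J → Bool) (ha : ∀ k, a k ≠ 0)
    (hf : Irr f) (htri : TriA cls sp)
    (hsp : ∀ j, cls j ≠ 3 → sp j = false → NSqg (f j) (kpol cls a f j 0) 1) :
    ∃ α : ℝ, 0 < α ∧ α ≤ 1 ∧ MKA α cls a f := by
  classical
  obtain ⟨α, hα0, hα1, hmdl⟩ := mdl_alpha cls (fun _ => 1) (sg1 sp) (fun _ => one_pos)
    (fun j => by unfold sg1; split_ifs <;> norm_num) (by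
      intro k hk
      have h1 := htri k hk
      have e1 : Wc cls (sg1 sp) k = ((univ.filter (fun j => cls j = k)).card : ℝ) / 2 +
          ((univ.filter (fun j => cls j = k ∧ sp j = true)).card : ℝ) / 2 := by
        unfold Wc sg1
        rw [← filter_filter, card_filter (fun j => sp j = true)]
        push_cast
        rw [sum_div, ← nsmul_one, ← sum_const, sum_div, ← sum_add_distrib]
        refine sum_congr rfl fun j _ => ?_
        split_ifs <;> norm_num
      have e2 : Wo cls (fun _ => (1 : ℝ)) = ((univ.filter (fun j => cls j ≠ 3)).card : ℝ) := by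
        unfold Wo
        simp
      have e3 : Wc cls (fun _ => (1 : ℝ)) k = ((univ.filter (fun j => cls j = k)).card : ℝ) := by
        unfold Wc
        simp
      rw [e1, e2, e3]
      have h2 : (3 * (univ.filter (fun j => cls j = k)).card +
        (univ.filter (fun j => cls j = k ∧ sp j = true)).card : ℝ) <
          2 * (univ.filter (fun j => cls j ≠ 3)).card := by exact_mod_cast h1
      linarith)
  refine ⟨α, hα0, hα1, fun c hc => ?_⟩
  obtain ⟨zg, hzg⟩ := exists_Gp hgd hf ha c hc
  choose E0 zt hE0 hzt using fun i : I4 cls =>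
    htw (f i.1.1) (hf.irr _) (hf.deg _) (gpol cls a f i) (hf.ndvd_gpol ha i)
  have hh : ∀ i : I4 cls, ∃ z0 : ℕ, ∀ z, z0 ≤ z → ∃ C : ℝ, i ∈ ZI cls sp → ∀ y : ℕ, z < y →
      ∑ p ∈ PS z y, rhoc (f i.1.1) (gpol cls a f i) p / (p : ℝ) ≤ C := by
    intro i
    by_cases hi : i ∈ ZI cls sp
    · obtain ⟨h1, h2, h3⟩ := (mem_filter.1 hi).2
      obtain ⟨z0, hz0⟩ := hh1 (f i.1.1) (hf.irr _) (hf.deg _) (gpol cls a f i)
        (hf.ndvd_gpol ha i) (by rw [gpol_ZI a f hi]; exact hsp _ h1 h2)
      exact ⟨z0, fun z hz => (hz0 z hz).imp fun C hC _ => hC⟩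
    · exact ⟨0, fun z _ => ⟨0, fun h => absurd h hi⟩⟩
  choose zh hzh using hh
  refine ⟨zg + univ.sup zt + univ.sup zh +
    (2 * c + 2 + Fintype.card (I4 cls) * (8 * c)), fun z hz => ⟨hzg z (by omega), ?_⟩⟩
  have hG := hzg z (by omega)
  have hzt' : ∀ i, zt i ≤ z := fun i => (le_sup (f := zt) (mem_univ i)).trans (by omega)
  have hzh' : ∀ i, zh i ≤ z := fun i => (le_sup (f := zh) (mem_univ i)).trans (by omega)
  choose Ct hCt using fun i : I4 cls => hzt i z (hzt' i)
  choose Ch hCh using fun i : I4 cls => hzh i z (hzh' i)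
  have hz4 := hG.four
  choose Cm hCm0 hCm using fun j : J => mert (hf.irr j) (hf.deg j) (z := z) (by omega)
  set Cs : ℝ := ∑ j, Cm j with hCs
  have hCs' : ∀ j, Cm j ≤ Cs := fun j => single_le_sum (f := Cm) (fun j _ => hCm0 j) (mem_univ j)
  have hCs0 : 0 ≤ Cs := sum_nonneg fun j _ => hCm0 j
  have hEs : ∀ i, E0 i ≤ ∑ i, E0 i := fun i =>
    single_le_sum (f := E0) (fun j _ => hE0 j) (mem_univ i)
  have hCts : ∀ i, |Ct i| ≤ ∑ i, |Ct i| := fun i =>
    single_le_sum (f := fun i => |Ct i|) (fun j _ => abs_nonneg _) (mem_univ i)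
  have hChs : ∀ i, |Ch i| ≤ ∑ i, |Ch i| := fun i =>
    single_le_sum (f := fun i => |Ch i|) (fun j _ => abs_nonneg _) (mem_univ i)
  have hE0s : 0 ≤ ∑ i, E0 i := sum_nonneg fun i _ => hE0 i
  have hC0s : 0 ≤ ∑ i, |Ct i| := sum_nonneg fun i _ => abs_nonneg _
  have hC1s : 0 ≤ ∑ i, |Ch i| := sum_nonneg fun i _ => abs_nonneg _
  set K0 : ℝ := ∑ i, |Ct i| + Cs + ∑ i, |Ch i| with hK0
  have hK00 : 0 ≤ K0 := by positivity
  have hSr : ∀ j y, Sp (rs (rT cls a f z) j) z y = Sp (fun p => rho (f j) p) z y := fun j y =>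
    Sp_congr fun p hp hzp => rs_rT hp hzp j
  have hSl : ∀ j y, z < y → Sp (fun p => rho (f j) p) z y ≤ Real.log (Real.log y) + Cs ∧
      Real.log (Real.log y) - Cs ≤ Sp (fun p => rho (f j) p) z y := by
    intro j y hy
    have h1 := abs_le.1 (hCm j y hy)
    have h2 := hCs' j
    constructor <;> linarith [h1.1, h1.2]
  have hacf : ∀ i p, acf cls (rT cls a f z) i p = aw cls a f z i p := fun i p => sum_types hG i p
  have hM : Mdl cls (rT cls a f z) (fun _ => 1) (sg1 sp) c z K0 (∑ i, E0 i) :=
    { g0 := fun i p => rT_nonneg _ _ _ _ _ _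
      gc := by
        intro j p
        by_cases h1 : p.Prime ∧ z < p
        · rw [rs_rT h1.1 h1.2]
          exact_mod_cast rho_le_prod hG h1.1 h1.2 j
        · have : rs (rT cls a f z) j p = 0 := by
            unfold rs rT
            simp [if_neg h1]
          rw [this]
          exact Nat.cast_nonneg _
      c1 := hG.one
      hz := by omega
      hE := hE0s
      hC := hK00
      lo := by
        intro j y hy
        rw [hSr]
        have := (hSl j y hy).2
        rw [one_mul]
        linarith
      up := by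
        intro j y hy
        rw [hSr]
        have := (hSl j y hy).1
        rw [one_mul]
        linarith
      spl := by
        intro j y hj hy
        have hA : Al (cls j) (ec (cls j)) (ec (cls j)).swap = true := by
          unfold Al
          rw [if_neg hj]
          simp
        set i2 : I4 cls := ⟨(j, ec (cls j), (ec (cls j)).swap), hA⟩ with hi2
        have h1 : Sp (rsp (rT cls a f z) j) z y =
            1 / 2 * Sp (fun p => rho (f j) p) z y + Sp (acf cls (rT cls a f z) i2) z y := by
          rw [← hSr]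
          unfold Sp
          rw [mul_sum, ← sum_add_distrib]
          refine sum_congr rfl fun p _ => ?_
          rw [rsp_eq (cls := cls) (rT cls a f z) j hj hA p]
          ring
        by_cases hs : sp j = true
        · -- the trivial bound
          have h2 : Sp (rsp (rT cls a f z) j) z y ≤ Sp (rs (rT cls a f z) j) z y := by
            apply Sp_mono
            intro p
            unfold rsp rs
            refine sum_le_sum fun θ _ => ?_
            have := rT_nonneg cls a f z (j, θ) p
            split_ifs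
            · exact le_rfl
            · exact this
          rw [hSr] at h2
          have h3 := (hSl j y hy).1
          unfold sg1
          rw [if_pos hs, one_mul]
          linarith
        · have hs' : sp j = false := by simpa using hs
          have hmem : i2 ∈ ZI cls sp := by
            unfold ZI
            rw [mem_filter]
            exact ⟨mem_univ _, hj, hs', rfl⟩
          have h2 : Sp (acf cls (rT cls a f z) i2) z y ≤ ∑ i, |Ch i| := by
            have h3 := hCh i2 hmem y hy
            have h4 : Sp (acf cls (rT cls a f z) i2) z y =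
                w4 cls i2 * ∑ p ∈ PS z y, rhoc (f i2.1.1) (gpol cls a f i2) p / (p : ℝ) := by
              unfold Sp
              rw [mul_sum]
              refine sum_congr rfl fun p hp => ?_
              have hp' := mem_filter.1 hp
              rw [hacf]
              unfold aw
              rw [if_pos ⟨hp'.2, (mem_Ioc.1 hp'.1).1⟩]
              ring
            rw [h4]
            have h5 : ∑ p ∈ PS z y, rhoc (f i2.1.1) (gpol cls a f i2) p / (p : ℝ) ≤
                ∑ i, |Ch i| := by linarith [hChs i2, le_abs_self (Ch i2)]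
            have h7 := mul_le_mul_of_nonneg_left h5 (Pool.Agent.TH841.PT.w4_pos cls i2).le
            have h8 := mul_le_mul_of_nonneg_right (Pool.Agent.TH841.PT.w4_le cls i2) hC1s
            linarith
          have h3 := (hSl j y hy).1
          unfold sg1
          rw [if_neg hs, h1]
          linarith
      H2 := by
        intro i y r e hy hr hsq hpr
        have h1 := hCt i y r e hy hr hsq hpr
        have hlr := Pool.Agent.TH841.PT.loglog_nonneg (by omega : 2 ≤ z) hr hpr
        have h2 : ∑ p ∈ PS z y, acf cls (rT cls a f z) i p * (Jr p r * x4 e p) / (p : ℝ) =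
            w4 cls i * ∑ p ∈ PS z y, rhoc (f i.1.1) (gpol cls a f i) p *
              (Jr p r * x4 e p) / (p : ℝ) := by
          rw [mul_sum]
          refine sum_congr rfl fun p hp => ?_
          have hp' := mem_filter.1 hp
          rw [hacf]
          unfold aw
          rw [if_pos ⟨hp'.2, (mem_Ioc.1 hp'.1).1⟩]
          ring
        rw [h2]
        have h3 : ∑ p ∈ PS z y, rhoc (f i.1.1) (gpol cls a f i) p * (Jr p r * x4 e p) / (p : ℝ) ≤
            (∑ i, E0 i) * Real.log (Real.log r) + ∑ i, |Ct i| := by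
          have := mul_le_mul_of_nonneg_right (hEs i) hlr
          linarith [hCts i, le_abs_self (Ct i)]
        have h5 : 0 ≤ (∑ i, E0 i) * Real.log (Real.log r) + ∑ i, |Ct i| := by positivity
        have h6 : w4 cls i * ∑ p ∈ PS z y, rhoc (f i.1.1) (gpol cls a f i) p *
              (Jr p r * x4 e p) / (p : ℝ) ≤ (∑ i, E0 i) * Real.log (Real.log r) + ∑ i, |Ct i| := by
          have h7 := mul_le_mul_of_nonneg_left h3 (Pool.Agent.TH841.PT.w4_pos cls i).le
          have h8 := mul_le_mul_of_nonneg_right (Pool.Agent.TH841.PT.w4_le cls i) h5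
          linarith
        rw [hK0]
        linarith }
  obtain ⟨C, hC⟩ := hmdl (rT cls a f z) c z K0 (∑ i, E0 i) hM
  refine ⟨C, fun y hy => ?_⟩
  refine (hC y hy).trans (le_of_eq ?_)
  congr 2
  have h3 : ∑ j, Sp (fun p => rho (f j) p) z y = Sp (fun p => rho (∏ j, f j) p) z y := by
    unfold Sp
    rw [sum_comm]
    refine sum_congr rfl fun p hp => ?_
    have hp' := mem_filter.1 hp
    beta_reduce
    rw [rho_prod hG hp'.2 (mem_Ioc.1 hp'.1).1, ← sum_div]
    push_cast
    rfl
  rw [← h3]
  exact sum_congr rfl fun j _ => hSr j y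

end Pool.Agent.R421.UR
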