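import Mathlib
import Pool.Agent.R421.UR.MakA
import Pool.Agent.TH841.TR.Fin2

/-!
# Project UR: pencils (adapted from TH841/TR/PenX)
-/

set_option autoImplicit false
set_option linter.all false

namespace Pool.Agent.R421.UR

open Finset Polynomial Pool.Agent.W262.RK Pool.Agent.TH841.TR

open Pool.Agent.TH841.PT hiding allc allf FP UP fp prod_allc reduce pen_all sum3 penQ AV3

open Pool.Agent.H474R2.PG (rho)

open Pool.Agent.W307.SE (SN Sel SelR Loc SN_nonneg sel_fin)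

section

variable {n : Fin 3 → ℕ} {m : ℕ}

open Classical in
/-- the condition on the numbers of the factors -/
def BalA (D : ℤ[X]) (a : Fin 3 → ℤ) (f : ∀ k : Fin 3, Fin (n k) → ℤ[X]) : Prop :=
  ∀ k, 3 * n k + (univ.filter (fun i => SqM (f k i) (vp D a f k))).card <
    2 * (n 0 + n 1 + n 2)

open Classical in
lemma triA_of {a : Fin 3 → ℤ} {f : ∀ k : Fin 3, Fin (n k) → ℤ[X]} {D : ℤ[X]} (hB : BalA D a f)
    {m : ℕ} {g : Fin m → ℤ[X]} {a' : Fin 3 → ℤ} {D₂ : ℤ[X]}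
    (hfac : ∀ k, D * UP a f k = FP a' g f k * D₂ ^ 2) :
    ∃ sp : (Σ k : Fin 3, Fin (n k)) ⊕ Fin m → Bool, TriA (allc n m) sp ∧
      ∀ j, allc n m j ≠ 3 → sp j = false →
        NSqg (allf g f j) (kpol (allc n m) a' (allf g f) j 0) 1 := by
  refine ⟨Sum.elim (fun x : Σ k : Fin 3, Fin (n k) => decide (SqM (f x.1 x.2) (vp D a f x.1)))
    (fun _ => false), ?_, ?_⟩
  · intro k hk
    obtain ⟨l, rfl⟩ : ∃ l : Fin 3, l.castSucc = k := by
      revert k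
      decide
    rw [card_allc (m := m) (fun k i => SqM (f k i) (vp D a f k)) l, card_allc', card_allc3]
    exact hB l
  · rintro (⟨k, i⟩ | i) h3 hsp
    · have h1 : ¬ SqM (f k i) (vp D a f k) := of_decide_eq_false hsp
      intro q hq
      apply h1
      refine ⟨q * D₂.map (Int.castRingHom ℚ), ?_⟩
      have hcl : allc n m (Sum.inl ⟨k, i⟩) = k.castSucc := rfl
      have hk : kpol (allc n m) a' (allf g f) (Sum.inl ⟨k, i⟩) 0 =
          C (sg4 k.castSucc) * FP a' g f (cp4 k.castSucc) := by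
        unfold kpol
        rw [if_neg h3, Pool.Agent.TH841.TR.prod_allc, hcl, C_mul]
        unfold FP
        have e1 : ∀ i, allf g f (Sum.inr i) = g i := fun i => rfl
        have e2 : ∀ i, allf g f (Sum.inl ⟨cp4 k.castSucc, i⟩) = f (cp4 k.castSucc) i := fun i => rfl
        simp only [e1, e2]
        ring
      have hv : (q * D₂.map (Int.castRingHom ℚ)) ^ 2 - (vp D a f k).map (Int.castRingHom ℚ) =
          (q ^ 2 - C ((1 : ℤ) : ℚ) * (kpol (allc n m) a' (allf g f)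
            (Sum.inl ⟨k, i⟩) 0).map (Int.castRingHom ℚ)) * (D₂.map (Int.castRingHom ℚ)) ^ 2 := by
        rw [hk]
        unfold vp
        rw [hfac]
        simp only [Polynomial.map_mul, Polynomial.map_pow, Int.cast_one, map_one, one_mul]
        ring
      rw [hv]
      exact Dvd.dvd.mul_right hq _
    · exact absurd rfl h3

/-- AVA: the average of a small power of the order of the 2-Selmer group -/
theorem ava {J : Type} [Fintype J] [DecidableEq J] (cls : J → Fin 4) (a : Fin 3 → ℤ)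
    (f : J → ℤ[X]) (sp : J → Bool) (ha : ∀ k, a k ≠ 0) (hf : Pool.Agent.TH841.PT.Irr f)
    (htri : TriA cls sp)
    (hsp : ∀ j, cls j ≠ 3 → sp j = false → NSqg (f j) (kpol cls a f j 0) 1)
    (hrel : C (a 0) * ∏ l ∈ fs cls 0, f l - C (a 1) * ∏ l ∈ fs cls 1, f l =
      C (a 2) * ∏ l ∈ fs cls 2, f l) :
    ∃ α : ℝ, 0 < α ∧ α ≤ 1 ∧ ∀ B : ℕ, ∃ C2 : ℝ, ∀ (N : ℤ) (X : ℕ), 1 ≤ X → N.natAbs ≤ X ^ B →
    ∑ t ∈ (Icc 1 X).filter (fun t : ℕ => ∀ j, (f j).eval (N + (t : ℤ)) ≠ 0),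
      SN (Fval cls a (fun l => (f l).eval (N + (t : ℤ))) 0)
        (Fval cls a (fun l => (f l).eval (N + (t : ℤ))) 1) ^ α ≤ C2 * X := by
  obtain ⟨α, hα0, hα1, hmk⟩ := makA h1l twg GDPf.gdp cls a f sp ha hf htri hsp
  refine ⟨α, hα0, hα1, fun B => ?_⟩
  exact avgA hα0.le hα1 cnth SelXf.selx antx RSPf.rsp RVU.rvp RVU.rup cls a f B ha hmk hrel

open Classical in
/-- the average of a power of the order of the 2-Selmer group -/
theorem sum3A (a : Fin 3 → ℤ) (g : Fin m → ℤ[X]) (f : ∀ k : Fin 3, Fin (n k) → ℤ[X])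
    (ha : ∀ k, a k ≠ 0) (hf : Pool.Agent.TH841.PT.Irr (allf g f))
    (hF : FP a g f 0 - FP a g f 1 = FP a g f 2)
    (sp : (Σ k : Fin 3, Fin (n k)) ⊕ Fin m → Bool) (hT : TriA (allc n m) sp)
    (hS : ∀ j, allc n m j ≠ 3 → sp j = false →
      NSqg (allf g f j) (kpol (allc n m) a (allf g f) j 0) 1) :
    ∃ α : ℝ, 0 < α ∧ α ≤ 1 ∧ ∀ L : ℕ, ∃ C : ℝ, ∀ (N : ℤ) (M : ℕ), 1 ≤ M → |N| ≤ (M : ℤ) ^ L →
      ∑ t ∈ (Ioc N (N + M)).filter (fun t => ∀ k, (FP a g f k).eval t ≠ 0),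
        SN ((FP a g f 0).eval t) ((FP a g f 1).eval t) ^ α ≤ C * M := by
  have hP : ∀ k, C (a k) * ∏ l ∈ fs (allc n m) k, allf g f l = FP a g f k := by
    intro k
    rw [Pool.Agent.TH841.TR.prod_allc]
    unfold FP
    rw [mul_assoc]
    rfl
  have hV : ∀ k t, Fval (allc n m) a (fun l => (allf g f l).eval t) k = (FP a g f k).eval t := by
    intro k t
    rw [← hP k, eval_mul, eval_C, eval_prod]
    rfl
  obtain ⟨α, hα0, hα1, hα⟩ := ava (allc n m) a (allf g f) sp ha hf hT hS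
    (by rw [hP, hP, hP]; exact hF)
  refine ⟨α, hα0, hα1, fun L => ?_⟩
  obtain ⟨C, hC⟩ := hα L
  simp only [hV] at hC
  refine ⟨C, fun N M hM hN => ?_⟩
  refine (to_Ioc (fun t => SN ((FP a g f 0).eval t) ((FP a g f 1).eval t) ^ α)
    (fun t => Real.rpow_nonneg (SN_nonneg _ _) _) (fun t => ∀ k, (FP a g f k).eval t ≠ 0)
    N M).trans ?_
  refine (sum_le_sum_of_subset_of_nonneg ?_ fun t _ _ =>
    Real.rpow_nonneg (SN_nonneg _ _) _).trans (hC N M hM (natAbs_le_of hN))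
  intro t ht
  rw [mem_filter] at ht ⊢
  refine ⟨ht.1, fun j => ?_⟩
  obtain ⟨k, hk⟩ : ∃ k, j ∈ fs (allc n m) k := by
    unfold fs
    rcases j with ⟨k, i⟩ | i
    · exact ⟨k, mem_filter.2 ⟨mem_univ _, Or.inl rfl⟩⟩
    · exact ⟨0, mem_filter.2 ⟨mem_univ _, Or.inr rfl⟩⟩
  have h2 := ht.2 k
  rw [← hP k, eval_mul, eval_prod] at h2
  exact (prod_ne_zero_iff.1 (right_ne_zero_of_mul h2)) j hk

open Classical in
/-- **the average in a pencil twisted by an arbitrary polynomial** -/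
theorem pen_allA (a : Fin 3 → ℤ) (f : ∀ k : Fin 3, Fin (n k) → ℤ[X])
    (ha : ∀ k, a k ≠ 0) (hf : Pool.Agent.TH841.PT.Irr (fp f)) (hU : UP a f 0 - UP a f 1 = UP a f 2)
    (D : ℤ[X]) (hD : D ≠ 0) (hDf : ∀ k i, ¬ f k i ∣ D) (hB : BalA D a f) :
    ∃ α : ℝ, 0 < α ∧ α ≤ 1 ∧ ∀ L : ℕ, ∃ C : ℝ, 0 ≤ C ∧ ∀ (N : ℤ) (M : ℕ), 1 ≤ M →
      |N| ≤ (M : ℤ) ^ L →
      ∑ t ∈ (Ioc N (N + M)).filter (fun t => ∀ k, (D * UP a f k).eval t ≠ 0),
        SN ((D * UP a f 0).eval t) ((D * UP a f 1).eval t) ^ α ≤ C * M := by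
  obtain ⟨m, g, a', D₂, ha', hf', hF', hfac, _⟩ := reduce a f ha hf hU D hD hDf
  obtain ⟨sp, hT, hS⟩ := triA_of hB hfac
  obtain ⟨α, hα0, hα1, hα⟩ := sum3A a' g f ha' hf' hF' sp hT hS
  refine ⟨α, hα0, hα1, fun L => ?_⟩
  obtain ⟨C, hC⟩ := hα L
  refine ⟨|C|, abs_nonneg _, fun N M hM hN => ?_⟩
  have h1 : ∑ t ∈ (Ioc N (N + M)).filter (fun t => ∀ k, (D * UP a f k).eval t ≠ 0),
        SN ((D * UP a f 0).eval t) ((D * UP a f 1).eval t) ^ α ≤
      ∑ t ∈ (Ioc N (N + M)).filter (fun t => ∀ k, (FP a' g f k).eval t ≠ 0),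
        SN ((FP a' g f 0).eval t) ((FP a' g f 1).eval t) ^ α := by
    refine (sum_le_sum fun t ht => ?_).trans (sum_le_sum_of_subset_of_nonneg (f := fun t =>
      SN ((FP a' g f 0).eval t) ((FP a' g f 1).eval t) ^ α) ?_
        fun t _ _ => Real.rpow_nonneg (SN_nonneg _ _) _)
    · have ht' := (mem_filter.1 ht).2 0
      rw [hfac, eval_mul, eval_pow] at ht'
      have hw : D₂.eval t ≠ 0 := fun h0 => ht' (by rw [h0]; ring)
      rw [hfac, hfac, eval_mul, eval_mul, eval_pow, SN_sq hw]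
    · intro t ht
      rw [mem_filter] at ht ⊢
      refine ⟨ht.1, fun k h0 => ht.2 k ?_⟩
      rw [hfac, eval_mul, h0, zero_mul]
  refine h1.trans ((hC N M hM hN).trans ?_)
  exact mul_le_mul_of_nonneg_right (le_abs_self _) (Nat.cast_nonneg _)

end

section

open Pool.Agent.TH841.SH.D (ShaTor HasDiv rk)

open Pool.Agent.TH841.SH (wt_nonneg)

open Classical in
/-- from a sum of powers over a family to ranks and Tate-Shafarevich groups -/
lemma familyA {ι : Type} (S : Finset ι) (W : ι → WeierstrassCurve ℚ) (N : ι → ℝ) (M : ℝ) {α : ℝ}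
    (hα : 0 ≤ α) (hW : ∀ i ∈ S, Pool.Agent.TH841.SH.Bd (W i) (N i)) (hS : ∑ i ∈ S, N i ^ α ≤ M) :
    (∀ i ∈ S, ∀ k : ℕ, Finite (ShaTor (W i) (2 ^ k))) ∧
    (∀ k : ℕ, 1 ≤ k → ∑ i ∈ S, ((2 : ℝ) ^ rk (W i) *
      (Nat.card (ShaTor (W i) (2 ^ k)) : ℝ) ^ ((1 : ℝ) / k)) ^ α ≤ M) ∧
    ∀ r δ : ℕ, ((S.filter (fun i => r ≤ rk (W i) ∧ HasDiv (W i) δ)).card : ℝ) ≤
        M / (2 : ℝ) ^ (α * (r + δ)) := by
  refine ⟨fun i hi k => (hW i hi).fin k, fun k hk => ?_, fun r δ => ?_⟩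
  · refine le_trans (Finset.sum_le_sum fun i hi => ?_) hS
    exact Real.rpow_le_rpow (wt_nonneg (W i) k) ((hW i hi).wt_le hk) hα
  · rw [le_div_iff₀ (by positivity)]
    refine le_trans ?_ hS
    refine le_trans ?_ (Finset.sum_le_sum_of_subset_of_nonneg (Finset.filter_subset (fun i =>
      r ≤ rk (W i) ∧ HasDiv (W i) δ) S)
      (fun i hi _ => Real.rpow_nonneg (le_trans (by positivity) (hW i hi).2) _))
    rw [← nsmul_eq_mul]
    refine Finset.card_nsmul_le_sum _ _ _ fun i hi => ?_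
    obtain ⟨hi1, hi2, hf⟩ := Finset.mem_filter.1 hi
    have h1 := Real.rpow_le_rpow (by positivity) ((hW i hi1).div_le hi2 hf) hα
    refine le_trans (le_of_eq ?_) h1
    rw [← Real.rpow_natCast, ← Real.rpow_mul (by norm_num)]
    congr 1
    push_cast
    ring

variable {n : Fin 3 → ℕ}

open Classical in
/-- pencils over the rationals -/
theorem penQA (a : Fin 3 → ℤ) (f : ∀ k : Fin 3, Fin (n k) → ℤ[X])
    (ha : ∀ k, a k ≠ 0) (hf : Pool.Agent.TH841.PT.Irr (fp f)) (hU : UP a f 0 - UP a f 1 = UP a f 2)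
    (D : ℤ[X]) (hD : D ≠ 0) (hDf : ∀ k i, ¬ f k i ∣ D) (hB : BalA D a f) :
    ∃ α : ℝ, 0 < α ∧ α ≤ 1 ∧ ∀ L : ℕ, ∃ C : ℝ, ∀ (N : ℤ) (M : ℕ), 1 ≤ M → |N| ≤ (M : ℤ) ^ L →
      ∀ P : Finset ℤ,
      P = (Ioc N (N + M)).filter (fun t => ∀ k, (D * UP a f k).eval t ≠ 0) →
      (∀ t ∈ P, ∀ k : ℕ, Finite (ShaTor (EQ ((D * UP a f 0).eval t) ((D * UP a f 1).eval t))
        (2 ^ k))) ∧
      (∀ k : ℕ, 1 ≤ k → ∑ t ∈ P, ((2 : ℝ) ^ rk (EQ ((D * UP a f 0).eval t)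
        ((D * UP a f 1).eval t)) * (Nat.card (ShaTor (EQ ((D * UP a f 0).eval t)
        ((D * UP a f 1).eval t)) (2 ^ k)) : ℝ) ^ ((1 : ℝ) / k)) ^ α ≤ C * M) ∧
      ∀ r q : ℕ, ((P.filter (fun t => r ≤ rk (EQ ((D * UP a f 0).eval t)
        ((D * UP a f 1).eval t)) ∧ HasDiv (EQ ((D * UP a f 0).eval t)
        ((D * UP a f 1).eval t)) q)).card : ℝ) ≤ C * M / (2 : ℝ) ^ (α * (r + q)) := by
  obtain ⟨α, hα0, hα1, hα⟩ := pen_allA a f ha hf hU D hD hDf hB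
  refine ⟨α, hα0, hα1, fun L => ?_⟩
  obtain ⟨C, _, hC⟩ := hα L
  refine ⟨C, fun N M hM hN P hP => ?_⟩
  refine familyA P (fun t => EQ ((D * UP a f 0).eval t) ((D * UP a f 1).eval t))
    (fun t => SN ((D * UP a f 0).eval t) ((D * UP a f 1).eval t)) (C * M) hα0.le
    (fun t ht => ?_) ?_
  · rw [hP] at ht
    obtain ⟨h1, h2, h3⟩ := Pool.Agent.TH841.TR.ne_three hU (mem_filter.1 ht).2
    exact bd_EQ h1 h2 h3
  · rw [hP]
    exact hC N M hM hN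

end

end Pool.Agent.R421.UR
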